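import Pool.Agent.H89.Hart.CaseB2

/-! Uniqueness of a smooth branch. -/

open MvPolynomial Filter Topology

set_option linter.unusedSectionVars false
set_option linter.unusedSimpArgs false

namespace H89.Hart

variable {ι : Type*} [Fintype ι] [DecidableEq ι]

theorem li_snoc {c : ℕ} (s : Fin c → ι → ℂ) (l : Fin c → ι → ℂ) (A : Matrix (Fin c) (Fin c) ℂ)
    (hA : ∀ i j, A i j = s i ⬝ᵥ l j) (φ v : ι → ℂ)
    (hne : (A.det • φ - ∑ i, (∑ j, (φ ⬝ᵥ l j) * A.adjugate j i) • s i) ⬝ᵥ v ≠ 0)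
    (hs : LinearIndependent ℂ s) :
    LinearIndependent ℂ (fun o : Option (Fin c) => o.elim φ s) := by
  rw [Fintype.linearIndependent_iff]
  intro b hb
  rw [Fintype.sum_option] at hb
  simp only [Option.elim] at hb
  have hφ : φ ∉ Submodule.span ℂ (Set.range s) := by
    intro h
    have := cramer_id s l A hA φ h
    apply hne
    rw [this, sub_self, zero_dotProduct]
  have h0 : b none = 0 := by
    by_contra h
    apply hφ
    have : φ = ∑ i, (-(b none)⁻¹ * b (some i)) • s i := by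
      have h2 : b none • φ = -∑ i, b (some i) • s i := eq_neg_of_add_eq_zero_left hb
      have h3 : φ = (b none)⁻¹ • (b none • φ) := by
        rw [smul_smul, inv_mul_cancel₀ h, one_smul]
      rw [h3, h2, smul_neg, Finset.smul_sum, ← Finset.sum_neg_distrib]
      refine Finset.sum_congr rfl fun i _ => ?_
      rw [smul_smul, neg_mul, neg_smul]
    rw [this]
    exact Submodule.sum_mem _ fun i _ => Submodule.smul_mem _ _ (Submodule.subset_span ⟨i, rfl⟩)
  rw [h0, zero_smul, zero_add] at hb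
  have h1 := Fintype.linearIndependent_iff.1 hs (fun i => b (some i)) hb
  rintro (_ | i)
  · exact h0
  · exact h1 i

/-- one inclusion of Lemma U -/
theorem branch_le {P P' : Ideal (MvPolynomial ι ℂ)} (hP : P.IsPrime) (hP' : P'.IsPrime)
    {x : ι → ℂ} (hx : x ∈ cone P) (hx' : x ∈ cone P') {c : ℕ} (h : Fin c → MvPolynomial ι ℂ)
    (hh : ∀ i, h i ∈ P) (hh' : ∀ i, h i ∈ P')
    (hli : LinearIndependent ℂ (fun i => dif (h i) x))
    (hdim : (Fintype.card ι : WithBot ℕ∞) ≤ ringKrullDim (MvPolynomial ι ℂ ⧸ P) + c) :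
    P ≤ P' := by
  obtain ⟨l, hl⟩ := exists_dual _ hli
  have hmat : matAt h l x = 1 := by
    ext i j; rw [matAt, Matrix.of_apply, hl, Matrix.one_apply]
  have hdet : (matAt h l x).det ≠ 0 := by rw [hmat]; simp
  have hD : (mat h l).det ∉ P := fun hm => hdet (by rw [← eval_det_mat]; exact hx _ hm)
  intro f hf
  have hQ : ∀ f ∈ P, ∀ v, Q h l f v ∈ P := by
    intro f hf v
    have key : (mat h l).det * Q h l f v ∈ P := by
      apply mem_of_cone hP
      intro z hz
      rw [map_mul]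
      by_contra hne
      have h1 := left_ne_zero_of_mul hne
      have h2 := right_ne_zero_of_mul hne
      rw [eval_det_mat] at h1
      rw [eval_Q] at h2
      have h3 := li_snoc (fun i => dif (h i) z) l (matAt h l z) (fun i j => rfl) (dif f z) v h2
        (li_of_det h l z h1)
      have h4 := dim_add_le P hP z hz (fun o : Option (Fin c) => o.elim f h)
        (by rintro (_ | i); exacts [hf, hh i])
        (by
          convert h3 using 2 with o
          rcases o with _ | i <;> rfl)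
      rw [Fintype.card_option, Fintype.card_fin] at h4
      have h5 : ringKrullDim (MvPolynomial ι ℂ ⧸ P) ≠ ⊥ := by
        intro hb
        rw [hb] at hdim
        simp at hdim
      obtain ⟨m, hm⟩ : ∃ m : ℕ, ringKrullDim (MvPolynomial ι ℂ ⧸ P) = m := by
        obtain ⟨e, he⟩ := WithBot.ne_bot_iff_exists.1 h5
        rw [← he] at h4 ⊢
        have : e ≠ ⊤ := by
          rintro rfl
          have h6 : ((⊤ : ℕ∞) : WithBot ℕ∞) + ((c + 1 : ℕ) : WithBot ℕ∞) = ⊤ := rfl
          rw [h6, top_le_iff] at h4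
          exact ENat.coe_ne_top (Fintype.card ι) (WithBot.coe_injective
            (show (((Fintype.card ι : ℕ) : ℕ∞) : WithBot ℕ∞) = ((⊤ : ℕ∞) : WithBot ℕ∞) from h4))
        obtain ⟨m, hm⟩ := ENat.ne_top_iff_exists.1 this
        exact ⟨m, by rw [← hm]; rfl⟩
      rw [hm] at h4 hdim
      have h6 : m + (c + 1) ≤ Fintype.card ι := by exact_mod_cast h4
      have h7 : Fintype.card ι ≤ m + c := by exact_mod_cast hdim
      omega
    exact (hP.mem_or_mem key).resolve_left hD
  obtain ⟨u, hu, huf⟩ := L0_abs h hh l hx hdet hQ hf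
  have h1 : Ideal.span (Set.range h) ≤ P' := by
    rw [Ideal.span_le]; rintro _ ⟨i, rfl⟩; exact hh' i
  exact (hP'.mem_or_mem (h1 huf)).resolve_left fun hm => hu (hx' _ hm)

theorem branch_unique {P P' : Ideal (MvPolynomial ι ℂ)} (hP : P.IsPrime) (hP' : P'.IsPrime)
    {x : ι → ℂ} (hx : x ∈ cone P) (hx' : x ∈ cone P') {c : ℕ} (h : Fin c → MvPolynomial ι ℂ)
    (hh : ∀ i, h i ∈ P) (hh' : ∀ i, h i ∈ P')
    (hli : LinearIndependent ℂ (fun i => dif (h i) x))
    (hdim : (Fintype.card ι : WithBot ℕ∞) ≤ ringKrullDim (MvPolynomial ι ℂ ⧸ P) + c)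
    (hdim' : (Fintype.card ι : WithBot ℕ∞) ≤ ringKrullDim (MvPolynomial ι ℂ ⧸ P') + c) :
    P = P' :=
  le_antisymm (branch_le hP hP' hx hx' h hh hh' hli hdim)
    (branch_le hP' hP hx' hx h hh' hh hli hdim')

/-- components of linear sections. -/
theorem exists_section {I : Ideal (MvPolynomial ι ℂ)} {r : ℕ} (hI : Smooth I r)
    (M : Submodule ℂ (ι → ℂ)) {y : ι → ℂ} (hy : y ∈ cone I) (hy0 : y ≠ 0) (hyM : y ∈ M) :
    ∃ P : Ideal (MvPolynomial ι ℂ), P.IsPrime ∧ (∀ f ∈ P, ∀ d, homogeneousComponent d f ∈ P) ∧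
      I ≤ P ∧ y ∈ cone P ∧ (∀ z ∈ cone P, z ∈ M) ∧
      (Module.finrank ℂ M : WithBot ℕ∞) ≤ ringKrullDim (MvPolynomial ι ℂ ⧸ P) + r := by
  obtain ⟨l, hl⟩ := exists_equations M
  obtain ⟨h, -, hhI, hhom, hli, -⟩ := exists_frame hI hy hy0
  obtain ⟨P, hP, hPh, hPg, hyP, hdim⟩ := exists_component
    (Sum.elim h (fun j => lf (l j)) : Fin r ⊕ Fin _ → MvPolynomial ι ℂ)
    (by rintro (i | j); exacts [hhom i, ⟨1, lf_homog _⟩]) y
    (by
      rintro (i | j)
      · exact hy _ (hhI i)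
      · simp only [Sum.elim_inr, eval_lf]
        exact (hl y).1 hyM j)
  refine ⟨P, hP, hPh, le_of_local hI h hhI hy hy0 hli hP (fun i => hPg (Sum.inl i)) hyP, hyP,
    fun z hz => ?_, ?_⟩
  · rw [hl]
    intro j
    have := hz _ (hPg (Sum.inr j))
    simpa [eval_lf] using this
  · rw [Fintype.card_sum, Fintype.card_fin, Fintype.card_fin] at hdim
    have h3 : Module.finrank ℂ M ≤ Fintype.card ι := by
      have := Submodule.finrank_le M
      rwa [Module.finrank_fintype_fun_eq_card] at this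
    rcases hdm : ringKrullDim (MvPolynomial ι ℂ ⧸ P) with _ | e
    · rw [hdm] at hdim
      exfalso
      have h5 : (⊥ : WithBot ℕ∞) + ((r + (Fintype.card ι - Module.finrank ℂ M) : ℕ) :
        WithBot ℕ∞) = ⊥ := rfl
      change _ ≤ (⊥ : WithBot ℕ∞) + _ at hdim
      rw [h5, le_bot_iff] at hdim
      exact WithBot.coe_ne_bot hdim
    · rw [hdm] at hdim
      rcases e with _ | m
      · change _ ≤ ((⊤ : ℕ∞) : WithBot ℕ∞) + _
        have : ((⊤ : ℕ∞) : WithBot ℕ∞) + ((r : ℕ) : WithBot ℕ∞) = ⊤ := rfl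
        rw [this]; exact le_top
      · change _ ≤ ((m : ℕ) : WithBot ℕ∞) + _ at hdim
        change _ ≤ ((m : ℕ) : WithBot ℕ∞) + _
        have h6 : Fintype.card ι ≤ m + (r + (Fintype.card ι - Module.finrank ℂ M)) := by
          exact_mod_cast hdim
        have h7 : Module.finrank ℂ M ≤ m + r := by omega
        exact_mod_cast h7

/-- nonzero points of large sections. -/
theorem exists_in_section {P : Ideal (MvPolynomial ι ℂ)} (hP : P.IsPrime)
    (hPh : ∀ f ∈ P, ∀ d, homogeneousComponent d f ∈ P) {m r k : ℕ}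
    (hdim : (m : WithBot ℕ∞) ≤ ringKrullDim (MvPolynomial ι ℂ ⧸ P) + r) (l : Fin k → ι → ℂ)
    (hm : k + r < m) : ∃ x ∈ cone P, x ≠ 0 ∧ ∀ j, l j ⬝ᵥ x = 0 := by
  have hdim2 : (Fintype.card (Fin k) : WithBot ℕ∞) < ringKrullDim (MvPolynomial ι ℂ ⧸ P) := by
    by_contra hcon
    push Not at hcon
    have h1 := hdim.trans (add_le_add_left hcon _)
    rw [Fintype.card_fin] at h1
    have h2 : m ≤ k + r := by exact_mod_cast h1
    omega
  obtain ⟨x, hx, hx0, hxl⟩ := exists_ne_zero P hP hPh (fun j => lf (l j))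
    (by intro j; rw [eval_lf]; simp) hdim2
  exact ⟨x, hx, hx0, fun j => by simpa [eval_lf] using hxl j⟩

end H89.Hart
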