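import Mathlib

/-!
# Linear algebra for the Hartshorne job HART-J2 (helper33)
-/

set_option autoImplicit false

namespace H89.Hart

open Module

/-- LA2 -/
theorem exists_singular {E U W : Type*} [AddCommGroup E] [Module ℂ E] [FiniteDimensional ℂ E]
    [AddCommGroup U] [Module ℂ U] [FiniteDimensional ℂ U] [AddCommGroup W] [Module ℂ W]
    [FiniteDimensional ℂ W] (β : E →ₗ[ℂ] U →ₗ[ℂ] W) (hE : 2 ≤ Module.finrank ℂ E)
    (hUW : Module.finrank ℂ U = Module.finrank ℂ W) (hU : 1 ≤ Module.finrank ℂ U) :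
    ∃ e u, e ≠ 0 ∧ u ≠ 0 ∧ β e u = 0 := by
  obtain ⟨e1, he1⟩ : ∃ e : E, e ≠ 0 := by
    have : Nontrivial E := Module.finrank_pos_iff.mp (by omega : 0 < Module.finrank ℂ E)
    exact exists_ne 0
  obtain ⟨e2, he2⟩ : ∃ e : E, e ∉ Submodule.span ℂ {e1} := by
    by_contra hcon
    push Not at hcon
    have h1 : (Submodule.span ℂ {e1} : Submodule ℂ E) = ⊤ := by
      rw [eq_top_iff]; intro x _; exact hcon x
    have h2 := finrank_span_le_card (R := ℂ) ({e1} : Set E)
    rw [h1, finrank_top] at h2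
    simp at h2
    omega
  have he20 : e2 ≠ 0 := fun h => he2 (h ▸ Submodule.zero_mem _)
  by_cases hinj : LinearMap.ker (β e2) = ⊥
  · have hb : Function.Bijective (β e2) := by
      have h1 : Function.Injective (β e2) := LinearMap.ker_eq_bot.mp hinj
      exact ⟨h1, (LinearMap.injective_iff_surjective_of_finrank_eq_finrank hUW).mp h1⟩
    let T : U ≃ₗ[ℂ] W := LinearEquiv.ofBijective (β e2) hb
    have : Nontrivial U := Module.finrank_pos_iff.mp (by omega : 0 < Module.finrank ℂ U)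
    obtain ⟨μ, hμ⟩ := Module.End.exists_eigenvalue (K := ℂ) ((T.symm : W →ₗ[ℂ] U) ∘ₗ (β e1))
    obtain ⟨u, hu⟩ := hμ.exists_hasEigenvector
    have h3 : (T.symm (β e1 u)) = μ • u := hu.apply_eq_smul
    have h4 : β e1 u = μ • β e2 u := by
      have : T (T.symm (β e1 u)) = T (μ • u) := by rw [h3]
      rw [LinearEquiv.apply_symm_apply, map_smul] at this
      exact this
    refine ⟨e1 - μ • e2, u, ?_, hu.2, ?_⟩
    · intro h0
      have h5 : e1 = μ • e2 := sub_eq_zero.mp h0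
      have hμ0 : μ ≠ 0 := by
        rintro rfl
        rw [zero_smul] at h5
        exact he1 h5
      apply he2
      rw [Submodule.mem_span_singleton]
      exact ⟨μ⁻¹, by rw [h5, smul_smul, inv_mul_cancel₀ hμ0, one_smul]⟩
    · rw [map_sub, map_smul, LinearMap.sub_apply, LinearMap.smul_apply, h4, sub_self]
  · obtain ⟨u, hu, hu0⟩ := Submodule.exists_mem_ne_zero_of_ne_bot hinj
    exact ⟨e2, u, he20, hu0, hu⟩

/-- LA1 -/
theorem exists_large_kernel {E U W : Type*} [AddCommGroup E] [Module ℂ E] [FiniteDimensional ℂ E]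
    [AddCommGroup U] [Module ℂ U] [FiniteDimensional ℂ U] [AddCommGroup W] [Module ℂ W]
    [FiniteDimensional ℂ W] (β : E →ₗ[ℂ] U →ₗ[ℂ] W) (h : ∀ u, ∃ e, e ≠ 0 ∧ β e u = 0) :
    ∃ e, e ≠ 0 ∧ Module.finrank ℂ U + 1 ≤
      Module.finrank ℂ (LinearMap.ker (β e)) + Module.finrank ℂ E := by
  classical
  -- maximal rank of `β.flip u`
  obtain ⟨u0, hu0⟩ : ∃ u0 : U, ∀ u : U,
      Module.finrank ℂ (LinearMap.range (β.flip u)) ≤
        Module.finrank ℂ (LinearMap.range (β.flip u0)) := by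
    have hbdd : ∀ u : U, Module.finrank ℂ (LinearMap.range (β.flip u)) ≤ Module.finrank ℂ W :=
      fun u => Submodule.finrank_le _
    by_contra hcon
    push Not at hcon
    have : ∀ k : ℕ, ∃ u : U, k ≤ Module.finrank ℂ (LinearMap.range (β.flip u)) := by
      intro k
      induction k with
      | zero => exact ⟨0, Nat.zero_le _⟩
      | succ k ih =>
        obtain ⟨u, hu⟩ := ih
        obtain ⟨u', hu'⟩ := hcon u
        exact ⟨u', by omega⟩
    obtain ⟨u, hu⟩ := this (Module.finrank ℂ W + 1)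
    have := hbdd u
    omega
  obtain ⟨e0, he0, hβ0⟩ := h u0
  refine ⟨e0, he0, ?_⟩
  set R := LinearMap.range (β.flip u0) with hR
  -- the rank is smaller than `dim E`
  have hrank : Module.finrank ℂ R + 1 ≤ Module.finrank ℂ E := by
    have h1 := LinearMap.finrank_range_add_finrank_ker (β.flip u0)
    rw [← hR] at h1
    have h2 : 1 ≤ Module.finrank ℂ (LinearMap.ker (β.flip u0)) := by
      rw [Submodule.one_le_finrank_iff]
      intro hbot
      have : e0 ∈ LinearMap.ker (β.flip u0) := by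
        rw [LinearMap.mem_ker, LinearMap.flip_apply]; exact hβ0
      rw [hbot, Submodule.mem_bot] at this
      exact he0 this
    omega
  -- the range of `β e0` lies in `R`
  have hclaim : LinearMap.range (β e0) ≤ R := by
    rintro _ ⟨u, rfl⟩
    by_contra hnot
    -- a basis of `R` lifted to `E`
    let b := Module.finBasis ℂ R
    have hlift : ∀ i, ∃ e : E, β.flip u0 e = (b i : W) := fun i => (b i).2
    choose e he using hlift
    let φ := Module.Free.chooseBasis ℂ W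
    let ψ : W ≃ₗ[ℂ] (Module.Free.ChooseBasisIndex ℂ W → ℂ) := φ.equivFun
    -- the family depending on `t`
    let F : ℂ → Option (Fin (Module.finrank ℂ R)) → (Module.Free.ChooseBasisIndex ℂ W → ℂ) :=
      fun t o => match o with
        | none => ψ (β e0 u)
        | some i => ψ (β (e i) u0) + t • ψ (β (e i) u)
    have hF0 : LinearIndependent ℂ (F 0) := by
      have h1 : LinearIndependent ℂ (fun i => (b i : W)) :=
        b.linearIndependent.map' R.subtype R.ker_subtype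
      have h2 : LinearIndependent ℂ (fun o : Option (Fin (Module.finrank ℂ R)) =>
          Option.casesOn' o (β e0 u) (fun i => (b i : W))) := by
        rw [linearIndependent_option']
        refine ⟨h1, ?_⟩
        intro hmem
        apply hnot
        refine (Submodule.span_le.mpr ?_ : Submodule.span ℂ (Set.range fun i => (b i : W)) ≤ R) hmem
        rintro _ ⟨i, rfl⟩
        exact (b i).2
      have h3 := h2.map' (ψ : W →ₗ[ℂ] (Module.Free.ChooseBasisIndex ℂ W → ℂ)) (LinearEquiv.ker ψ)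
      have hfun : F 0 = (ψ : W →ₗ[ℂ] (Module.Free.ChooseBasisIndex ℂ W → ℂ)) ∘
          (fun o : Option (Fin (Module.finrank ℂ R)) =>
            Option.casesOn' o (β e0 u) (fun i => (b i : W))) := by
        funext o
        cases o with
        | none => rfl
        | some i =>
          have : β (e i) u0 = (b i : W) := by rw [← LinearMap.flip_apply]; exact he i
          simp only [F, Function.comp_apply, Option.casesOn'_some, zero_smul, add_zero, this]
          rfl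
      rw [hfun]
      exact h3
    have hcont : Continuous F := by
      refine continuous_pi fun o => ?_
      cases o with
      | none => exact continuous_const
      | some i => exact continuous_const.add (continuous_id.smul continuous_const)
    have hev : ∀ᶠ t in nhds (0 : ℂ), LinearIndependent ℂ (F t) :=
      hcont.continuousAt.eventually (LinearIndependent.eventually hF0)
    obtain ⟨t, ht, ht0⟩ : ∃ t : ℂ, LinearIndependent ℂ (F t) ∧ t ≠ 0 := by
      have h1 : ∀ᶠ t in nhdsWithin (0 : ℂ) {0}ᶜ, LinearIndependent ℂ (F t) :=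
        hev.filter_mono nhdsWithin_le_nhds
      have h2 : ∀ᶠ t in nhdsWithin (0 : ℂ) {0}ᶜ, t ≠ 0 := self_mem_nhdsWithin
      exact (h1.and h2).exists
    -- all members lie in the range of `β.flip (u0 + t u)`
    have hmem : ∀ o, ∃ w ∈ LinearMap.range (β.flip (u0 + t • u)), ψ w = F t o := by
      intro o
      cases o with
      | none =>
        refine ⟨β e0 u, ⟨t⁻¹ • e0, ?_⟩, rfl⟩
        rw [LinearMap.flip_apply, map_smul, LinearMap.smul_apply, map_add, hβ0, zero_add,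
          map_smul, smul_smul, inv_mul_cancel₀ ht0, one_smul]
      | some i =>
        refine ⟨β (e i) (u0 + t • u), ⟨e i, rfl⟩, ?_⟩
        simp only [F, map_add, map_smul]
    choose w hwm hw using hmem
    have hli : LinearIndependent ℂ w := by
      apply LinearIndependent.of_comp (ψ : W →ₗ[ℂ] (Module.Free.ChooseBasisIndex ℂ W → ℂ))
      have hfun : (ψ : W →ₗ[ℂ] (Module.Free.ChooseBasisIndex ℂ W → ℂ)) ∘ w = F t := by
        funext o
        exact hw o
      rw [hfun]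
      exact ht
    have hli2 : LinearIndependent ℂ
        (fun o => (⟨w o, hwm o⟩ : LinearMap.range (β.flip (u0 + t • u)))) := by
      apply LinearIndependent.of_comp (LinearMap.range (β.flip (u0 + t • u))).subtype
      exact hli
    have hcard := hli2.fintype_card_le_finrank
    rw [Fintype.card_option, Fintype.card_fin] at hcard
    have := hu0 (u0 + t • u)
    omega
  have h1 := LinearMap.finrank_range_add_finrank_ker (β e0)
  have h2 := Submodule.finrank_mono hclaim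
  omega

/-! ### Gluing -/

section Glue

variable {B : Type*} [AddCommGroup B] [Module ℂ B] [FiniteDimensional ℂ B]
    [TopologicalSpace B] [ContinuousAdd B] [ContinuousSMul ℂ B] [T1Space B]
    {W : Type*} [AddCommGroup W] [Module ℂ W] [FiniteDimensional ℂ W]

theorem finrank_inf_ge {V : Type*} [AddCommGroup V] [Module ℂ V] [FiniteDimensional ℂ V]
    (X Y : Submodule ℂ V) : Module.finrank ℂ X + Module.finrank ℂ Y ≤
      Module.finrank ℂ (X ⊓ Y : Submodule ℂ V) + Module.finrank ℂ V := by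
  have h1 := Submodule.finrank_sup_add_finrank_inf_eq X Y
  have h2 := Submodule.finrank_le (X ⊔ Y)
  omega

theorem exists_ne_of_finrank {V : Type*} [AddCommGroup V] [Module ℂ V] [FiniteDimensional ℂ V]
    (X : Submodule ℂ V) (h : 1 ≤ Module.finrank ℂ X) : ∃ x ∈ X, x ≠ 0 := by
  apply Submodule.exists_mem_ne_zero_of_ne_bot
  rwa [← Submodule.one_le_finrank_iff]

/-- the kernel of a map with one-dimensional range -/
theorem exists_ker_ne {V W : Type*} [AddCommGroup V] [Module ℂ V] [FiniteDimensional ℂ V]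
    [AddCommGroup W] [Module ℂ W] [FiniteDimensional ℂ W] (L : V →ₗ[ℂ] W) (v : W) (S : Submodule ℂ V)
    (hL : ∀ x ∈ S, L x ∈ Submodule.span ℂ {v}) (h : 2 ≤ Module.finrank ℂ S) :
    ∃ x ∈ S, x ≠ 0 ∧ L x = 0 := by
  have h1 : Module.finrank ℂ (Submodule.map L S) ≤ 1 := by
    have h2 : Submodule.map L S ≤ Submodule.span ℂ {v} := by
      rintro _ ⟨x, hx, rfl⟩
      exact hL x hx
    refine (Submodule.finrank_mono h2).trans ?_
    have := finrank_span_le_card (R := ℂ) ({v} : Set W)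
    simpa using this
  by_contra hcon
  push Not at hcon
  have hinj : Function.Injective (L.domRestrict S) := by
    rw [← LinearMap.ker_eq_bot, LinearMap.ker_eq_bot']
    intro m hm
    by_contra hm0
    exact hcon m m.2 (fun h => hm0 (Subtype.ext h)) hm
  have h3 : Module.finrank ℂ S = Module.finrank ℂ (LinearMap.range (L.domRestrict S)) :=
    (LinearMap.finrank_range_of_inj hinj).symm
  have h4 : LinearMap.range (L.domRestrict S) = Submodule.map L S := by
    rw [LinearMap.range_domRestrict]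
  rw [h4] at h3
  omega

theorem contra_aux {B W : Type*} [AddCommGroup B] [Module ℂ B] [FiniteDimensional ℂ B]
    [AddCommGroup W] [Module ℂ W] [FiniteDimensional ℂ W] (r : ℕ) (hr : 1 ≤ r)
    (Y0 : Submodule ℂ B) (b2 : (Fin r → ℂ) →ₗ[ℂ] B →ₗ[ℂ] W) (v : W) (hv0 : v ≠ 0)
    (hmem : ∀ u ∈ Y0, u ≠ 0 → ∃ x, b2 x u = v)
    (hinj : ∀ u ∈ Y0, u ≠ 0 → ∀ z, b2 z u = 0 → z = 0)
    (hdim : r + 1 ≤ Module.finrank ℂ Y0) : False := by
  let Δ : (Fin r → ℂ) →ₗ[ℂ] Y0 →ₗ[ℂ] (W ⧸ Submodule.span ℂ {v}) :=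
    LinearMap.mk₂ ℂ (fun x u => (Submodule.span ℂ {v}).mkQ (b2 x (u : B)))
      (by intro p q u; simp only [map_add, LinearMap.add_apply])
      (by intro c p u; simp only [map_smul, LinearMap.smul_apply])
      (by intro p u u'; simp only [Submodule.coe_add, map_add])
      (by intro c p u; simp only [Submodule.coe_smul, map_smul])
  have hΔ : ∀ (x : Fin r → ℂ) (u : Y0), Δ x u = (Submodule.span ℂ {v}).mkQ (b2 x (u : B)) :=
    fun x u => rfl
  obtain ⟨x, hx0, hxker⟩ := exists_large_kernel Δ (by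
    intro u0
    by_cases hu0 : u0 = 0
    · refine ⟨fun _ => 1, fun h => ?_, ?_⟩
      · have := congrFun h ⟨0, hr⟩
        simp at this
      · rw [hu0, map_zero]
    · have hu0B : (u0 : B) ≠ 0 := fun h => hu0 (Subtype.ext h)
      obtain ⟨x, hx⟩ := hmem u0 u0.2 hu0B
      refine ⟨x, ?_, ?_⟩
      · rintro rfl
        rw [map_zero, LinearMap.zero_apply] at hx
        exact hv0 hx.symm
      · rw [hΔ, hx, Submodule.mkQ_apply, Submodule.Quotient.mk_eq_zero]
        exact Submodule.mem_span_singleton_self v)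
  rw [Module.finrank_fintype_fun_eq_card, Fintype.card_fin] at hxker
  obtain ⟨u', hu', hu'0, hz⟩ := exists_ker_ne ((b2 x) ∘ₗ Y0.subtype) v (LinearMap.ker (Δ x)) (by
    intro u hu
    rw [LinearMap.mem_ker, hΔ, Submodule.mkQ_apply, Submodule.Quotient.mk_eq_zero] at hu
    exact hu) (by omega)
  exact hx0 (hinj _ u'.2 (fun h => hu'0 (Subtype.ext h)) x hz)

/-- (G1), for a fixed `z` -/
theorem glue1 (r : ℕ) (hr : 1 ≤ r) (U1 U2 : Submodule ℂ B) (K : B → Submodule ℂ W)
    (hcl : ∀ (u : B) (v : W), u ≠ 0 → ∀ (us : ℕ → B),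
      Filter.Tendsto us Filter.atTop (nhds u) → (∀ k, v ∈ K (us k)) → v ∈ K u)
    (b1 b2 : (Fin r → ℂ) →ₗ[ℂ] B →ₗ[ℂ] W)
    (h1im : ∀ u ∈ U1, u ≠ 0 → ∀ z, b1 z u ∈ K u)
    (h2inj : ∀ u ∈ U2, u ≠ 0 → ∀ z, b2 z u = 0 → z = 0)
    (h2im : ∀ u ∈ U2, u ≠ 0 → ∀ v, v ∈ K u ↔ ∃ z, b2 z u = v)
    (hdim : 2 * r + 1 ≤ Module.finrank ℂ (U1 ⊓ U2 : Submodule ℂ B)) (z : Fin r → ℂ) :
    ∃ x, ∀ u ∈ U1 ⊓ U2, b2 x u = b1 z u := by
  set Y : Submodule ℂ B := U1 ⊓ U2 with hY
  -- the bilinear map on `(C^r × C) × Y`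
  let Γ : ((Fin r → ℂ) × ℂ) →ₗ[ℂ] Y →ₗ[ℂ] W :=
    LinearMap.mk₂ ℂ (fun p u => b2 p.1 (u : B) - p.2 • b1 z (u : B))
      (by intro p q u; simp only [Prod.fst_add, Prod.snd_add, map_add, LinearMap.add_apply, add_smul]; abel)
      (by intro c p u; simp only [Prod.smul_fst, Prod.smul_snd, map_smul, LinearMap.smul_apply, smul_sub, smul_smul, smul_eq_mul])
      (by intro p u u'; simp only [Submodule.coe_add, map_add, smul_add]; abel)
      (by intro c p u; simp only [Submodule.coe_smul, map_smul, smul_sub]; rw [smul_comm])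
  have hΓ : ∀ (x : Fin r → ℂ) (c : ℂ) (u : Y), Γ (x, c) u = b2 x (u : B) - c • b1 z (u : B) :=
    fun x c u => rfl
  obtain ⟨⟨x0, c0⟩, hne, hker⟩ := exists_large_kernel Γ (by
    intro u
    by_cases hu : (u : B) = 0
    · refine ⟨(0, 1), by simp, ?_⟩
      rw [hΓ, hu, map_zero, map_zero, smul_zero, sub_zero]
    · obtain ⟨x, hx⟩ := (h2im u u.2.2 hu _).mp (h1im u u.2.1 hu z)
      refine ⟨(x, 1), by simp, ?_⟩
      rw [hΓ, hx, one_smul, sub_self])
  have hE : Module.finrank ℂ ((Fin r → ℂ) × ℂ) = r + 1 := by simp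
  rw [hE] at hker
  -- `Y0`
  have hc0 : c0 ≠ 0 := by
    rintro rfl
    have hx0 : x0 ≠ 0 := by
      rintro rfl
      exact hne rfl
    obtain ⟨u, hu, hu0⟩ := exists_ne_of_finrank (LinearMap.ker (Γ (x0, 0))) (by omega)
    rw [LinearMap.mem_ker, hΓ, zero_smul, sub_zero] at hu
    exact hx0 (h2inj u u.2.2 (fun h => hu0 (Subtype.ext h)) x0 hu)
  obtain ⟨x1, hx1⟩ : ∃ x1 : Fin r → ℂ, x1 = c0⁻¹ • x0 := ⟨_, rfl⟩
  have hY0 : ∀ u ∈ LinearMap.ker (Γ (x0, c0)), b2 x1 (u : B) = b1 z (u : B) := by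
    intro u hu
    rw [LinearMap.mem_ker, hΓ, sub_eq_zero] at hu
    rw [hx1, map_smul, LinearMap.smul_apply, hu, smul_smul, inv_mul_cancel₀ hc0, one_smul]
  refine ⟨x1, ?_⟩
  intro u hu
  by_contra hcon
  set v : W := b1 z u - b2 x1 u with hv
  have hv0 : v ≠ 0 := fun h => hcon (sub_eq_zero.mp h).symm
  -- `v ∈ K u'` for the nonzero `u' ∈ Y0`
  have hvK : ∀ u0 ∈ LinearMap.ker (Γ (x0, c0)), u0 ≠ 0 → v ∈ K (u0 : B) := by
    intro u0 hu0 hu00
    have hu0B : (u0 : B) ≠ 0 := fun h => hu00 (Subtype.ext h)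
    have hstep : ∀ t : ℂ, t ≠ 0 → (u0 : B) + t • u ≠ 0 → v ∈ K ((u0 : B) + t • u) := by
      intro t ht hne0
      have hmemY : (u0 : B) + t • u ∈ Y := Y.add_mem u0.2 (Y.smul_mem t hu)
      have h1 : b1 z ((u0 : B) + t • u) ∈ K ((u0 : B) + t • u) := h1im _ hmemY.1 hne0 z
      have h2 : b2 x1 ((u0 : B) + t • u) ∈ K ((u0 : B) + t • u) :=
        (h2im _ hmemY.2 hne0 _).mpr ⟨x1, rfl⟩
      have h3 : t • v = b1 z ((u0 : B) + t • u) - b2 x1 ((u0 : B) + t • u) := by
        rw [map_add, map_add, map_smul, map_smul, hY0 u0 hu0, hv, smul_sub]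
        abel
      have h4 : t • v ∈ K ((u0 : B) + t • u) := by
        rw [h3]; exact (K _).sub_mem h1 h2
      have h5 := (K ((u0 : B) + t • u)).smul_mem t⁻¹ h4
      rwa [smul_smul, inv_mul_cancel₀ ht, one_smul] at h5
    -- a sequence `t_k → 0`
    have hlim : Filter.Tendsto (fun k : ℕ => (u0 : B) + ((1 : ℂ) / ((k : ℂ) + 1)) • u)
        Filter.atTop (nhds (u0 : B)) := by
      have h1 : Filter.Tendsto (fun k : ℕ => (1 : ℂ) / ((k : ℂ) + 1)) Filter.atTop (nhds 0) :=
        tendsto_one_div_add_atTop_nhds_zero_nat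
      have h2 := (h1.smul_const u).const_add (u0 : B)
      rwa [zero_smul, add_zero] at h2
    have hev : ∀ᶠ k : ℕ in Filter.atTop, (u0 : B) + ((1 : ℂ) / ((k : ℂ) + 1)) • u ≠ 0 :=
      hlim.eventually (isOpen_ne.mem_nhds hu0B)
    obtain ⟨k0, hk0⟩ := Filter.eventually_atTop.mp hev
    refine hcl (u0 : B) v hu0B (fun k => (u0 : B) + ((1 : ℂ) / (((k + k0 : ℕ) : ℂ) + 1)) • u) ?_ ?_
    · exact hlim.comp (Filter.tendsto_add_atTop_nat k0)
    · intro k
      refine hstep _ ?_ (hk0 (k + k0) (by omega))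
      exact one_div_ne_zero (Nat.cast_add_one_ne_zero _)
  -- contradiction by LA1 for `C^r × Y0 → W / span v`
  refine contra_aux r hr ((LinearMap.ker (Γ (x0, c0))).map Y.subtype) b2 v hv0 ?_ ?_ ?_
  · rintro _ ⟨u0, hu0, rfl⟩ hne0
    exact (h2im _ u0.2.2 hne0 v).mp (hvK u0 hu0 (fun h => hne0 (by rw [h]; rfl)))
  · rintro _ ⟨u0, hu0, rfl⟩ hne0
    exact h2inj _ u0.2.2 hne0
  · have h1 : Module.finrank ℂ ((LinearMap.ker (Γ (x0, c0))).map Y.subtype) =
        Module.finrank ℂ (LinearMap.ker (Γ (x0, c0))) :=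
      (Submodule.equivMapOfInjective Y.subtype Y.injective_subtype _).finrank_eq.symm
    omega

end Glue

/-- J2: gluing (pure linear algebra).  `A`, `B` finite dimensional. -/
theorem gluing {A B : Type*} [NormedAddCommGroup A] [NormedSpace ℂ A] [FiniteDimensional ℂ A]
    [NormedAddCommGroup B] [NormedSpace ℂ B] [FiniteDimensional ℂ B]
    {W : Type*} [NormedAddCommGroup W] [NormedSpace ℂ W] [FiniteDimensional ℂ W] (r : ℕ)
    (hr : 1 ≤ r)
    -- `U a ≤ B` of codimension `≤ r`, `U' u ≤ A` of codimension `≤ r`, mutually inverse relations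
    (U : A → Submodule ℂ B) (U' : B → Submodule ℂ A)
    (hU : ∀ a, a ≠ 0 → Module.finrank ℂ B ≤ Module.finrank ℂ (U a) + r)
    (hU' : ∀ u, u ≠ 0 → Module.finrank ℂ A ≤ Module.finrank ℂ (U' u) + r)
    (hUU' : ∀ a u, a ≠ 0 → u ≠ 0 → (u ∈ U a ↔ a ∈ U' u))
    -- `K u ≤ W`, `r`-dimensional for `u ≠ 0`, a closed family
    (K : B → Submodule ℂ W)
    (hcl : ∀ (u : B) (v : W), u ≠ 0 → ∀ (us : ℕ → B),
      Filter.Tendsto us Filter.atTop (nhds u) → (∀ k, v ∈ K (us k)) → v ∈ K u)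
    -- for each `a ≠ 0` a bilinear map `β a` with `β a (·, u)` an isomorphism onto `K u`
    (β : A → (Fin r → ℂ) →ₗ[ℂ] B →ₗ[ℂ] W)
    (hβinj : ∀ a, a ≠ 0 → ∀ u ∈ U a, u ≠ 0 → ∀ z, β a z u = 0 → z = 0)
    (hβim : ∀ a, a ≠ 0 → ∀ u ∈ U a, u ≠ 0 → ∀ v, v ∈ K u ↔ ∃ z, β a z u = v)
    (hB : 4 * r + 1 ≤ Module.finrank ℂ B) (hA : 2 * r + 1 ≤ Module.finrank ℂ A) :
    ∃ G : (Fin r → ℂ) →ₗ[ℂ] B →ₗ[ℂ] W, ∀ z u, z ≠ 0 → u ≠ 0 → G z u ≠ 0 := by
  classical
  obtain ⟨a0, ha0⟩ : ∃ a : A, a ≠ 0 := by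
    have : Nontrivial A := Module.finrank_pos_iff.mp (by omega : 0 < Module.finrank ℂ A)
    exact exists_ne 0
  have hdim2 : ∀ a a', a ≠ 0 → a' ≠ 0 →
      Module.finrank ℂ B ≤ Module.finrank ℂ (U a ⊓ U a' : Submodule ℂ B) + 2 * r := by
    intro a a' ha ha'
    have h1 := finrank_inf_ge (U a) (U a')
    have h2 := hU a ha
    have h3 := hU a' ha'
    omega
  have hdim3 : ∀ a a', a ≠ 0 → a' ≠ 0 →
      Module.finrank ℂ B ≤ Module.finrank ℂ (U a0 ⊓ (U a ⊓ U a') : Submodule ℂ B) + 3 * r := by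
    intro a a' ha ha'
    have h1 := finrank_inf_ge (U a0) (U a ⊓ U a')
    have h2 := hU a0 ha0
    have h3 := hdim2 a a' ha ha'
    omega
  have hglue : ∀ a a', a ≠ 0 → a' ≠ 0 → ∀ z, ∃ x, ∀ u ∈ U a ⊓ U a', β a' x u = β a z u := by
    intro a a' ha ha' z
    refine glue1 r hr (U a) (U a') K hcl (β a) (β a') ?_ (hβinj a' ha') (hβim a' ha') ?_ z
    · intro u hu hu0 z
      exact (hβim a ha u hu hu0 _).mpr ⟨z, rfl⟩
    · have := hdim2 a a' ha ha'
      omega
  -- the transition maps from `a0`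
  have hT' : ∀ (a : A) (z : Fin r → ℂ), ∃ x, a ≠ 0 → ∀ u ∈ U a0 ⊓ U a, β a x u = β a0 z u := by
    intro a z
    by_cases ha : a = 0
    · exact ⟨0, fun h => absurd ha h⟩
    · obtain ⟨x, hx⟩ := hglue a0 a ha0 ha z
      exact ⟨x, fun _ => hx⟩
  choose T hT using hT'
  -- independence
  have hind : ∀ a a', a ≠ 0 → a' ≠ 0 → ∀ u ∈ U a, u ∈ U a' → ∀ z,
      β a (T a z) u = β a' (T a' z) u := by
    intro a a' ha ha' u hu hu' z
    obtain ⟨x, hx⟩ := hglue a a' ha ha' (T a z)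
    obtain ⟨w, hw, hw0⟩ := exists_ne_of_finrank (U a0 ⊓ (U a ⊓ U a') : Submodule ℂ B) (by
      have := hdim3 a a' ha ha'
      omega)
    have hx' : x = T a' z := by
      have h1 : β a' (x - T a' z) w = 0 := by
        rw [map_sub, LinearMap.sub_apply, hx w hw.2, hT a z ha w ⟨hw.1, hw.2.1⟩,
          hT a' z ha' w ⟨hw.1, hw.2.2⟩, sub_self]
      exact sub_eq_zero.mp (hβinj a' ha' w hw.2.2 hw0 _ h1)
    rw [← hx', hx u ⟨hu, hu'⟩]
  -- a common `a`
  have hcommon : ∀ u1 u2 : B, ∃ a, a ≠ 0 ∧ u1 ∈ U a ∧ u2 ∈ U a := by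
    intro u1 u2
    have hex : ∀ u : B, ∃ S : Submodule ℂ A, Module.finrank ℂ A ≤ Module.finrank ℂ S + r ∧
        ∀ a ∈ S, a ≠ 0 → u ∈ U a := by
      intro u
      by_cases hu : u = 0
      · refine ⟨⊤, by rw [finrank_top]; omega, fun a _ _ => ?_⟩
        rw [hu]
        exact (U a).zero_mem
      · exact ⟨U' u, hU' u hu, fun a ha ha0 => (hUU' a u ha0 hu).mpr ha⟩
    obtain ⟨S1, hS1, h1⟩ := hex u1
    obtain ⟨S2, hS2, h2⟩ := hex u2
    have h3 := finrank_inf_ge S1 S2
    obtain ⟨a, ha, ha0⟩ := exists_ne_of_finrank (S1 ⊓ S2 : Submodule ℂ A) (by omega)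
    exact ⟨a, ha0, h1 a ha.1 ha0, h2 a ha.2 ha0⟩
  have hone : ∀ u : B, ∃ a, a ≠ 0 ∧ u ∈ U a := by
    intro u
    obtain ⟨a, ha, hu, _⟩ := hcommon u u
    exact ⟨a, ha, hu⟩
  choose α hα0 hα using hone
  have hTadd : ∀ a, a ≠ 0 → ∀ z z', T a (z + z') = T a z + T a z' := by
    intro a ha z z'
    obtain ⟨w, hw, hw0⟩ := exists_ne_of_finrank (U a0 ⊓ U a : Submodule ℂ B) (by
      have := hdim2 a0 a ha0 ha
      omega)
    have h1 : β a (T a (z + z') - (T a z + T a z')) w = 0 := by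
      rw [map_sub, LinearMap.sub_apply, map_add, LinearMap.add_apply, hT a _ ha w hw,
        hT a _ ha w hw, hT a _ ha w hw, map_add, LinearMap.add_apply, sub_self]
    exact sub_eq_zero.mp (hβinj a ha w hw.2 hw0 _ h1)
  have hTsmul : ∀ a, a ≠ 0 → ∀ (c : ℂ) z, T a (c • z) = c • T a z := by
    intro a ha c z
    obtain ⟨w, hw, hw0⟩ := exists_ne_of_finrank (U a0 ⊓ U a : Submodule ℂ B) (by
      have := hdim2 a0 a ha0 ha
      omega)
    have h1 : β a (T a (c • z) - c • T a z) w = 0 := by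
      rw [map_sub, LinearMap.sub_apply, map_smul, LinearMap.smul_apply, hT a _ ha w hw,
        hT a _ ha w hw, map_smul, LinearMap.smul_apply, sub_self]
    exact sub_eq_zero.mp (hβinj a ha w hw.2 hw0 _ h1)
  let f : (Fin r → ℂ) → B → W := fun z u => β (α u) (T (α u) z) u
  have hf : ∀ a, a ≠ 0 → ∀ u ∈ U a, ∀ z, f z u = β a (T a z) u := by
    intro a ha u hu z
    exact hind (α u) a (hα0 u) ha u (hα u) hu z
  let G : (Fin r → ℂ) →ₗ[ℂ] B →ₗ[ℂ] W := LinearMap.mk₂ ℂ f
    (by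
      intro z z' u
      simp only [f]
      rw [hTadd _ (hα0 u), map_add, LinearMap.add_apply])
    (by
      intro c z u
      simp only [f]
      rw [hTsmul _ (hα0 u), map_smul, LinearMap.smul_apply])
    (by
      intro z u u'
      obtain ⟨a, ha, hu, hu'⟩ := hcommon u u'
      rw [hf a ha _ ((U a).add_mem hu hu'), hf a ha _ hu, hf a ha _ hu', map_add])
    (by
      intro c z u
      rw [hf (α u) (hα0 u) _ ((U (α u)).smul_mem c (hα u)), hf (α u) (hα0 u) _ (hα u), map_smul])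
  refine ⟨G, ?_⟩
  intro z u hz hu hG
  have h1 : β (α u) (T (α u) z) u = 0 := hG
  have h2 := hβinj (α u) (hα0 u) u (hα u) hu _ h1
  obtain ⟨w, hw, hw0⟩ := exists_ne_of_finrank (U a0 ⊓ U (α u) : Submodule ℂ B) (by
    have := hdim2 a0 (α u) ha0 (hα0 u)
    omega)
  have h3 := hT (α u) z (hα0 u) w hw
  rw [h2, map_zero, LinearMap.zero_apply] at h3
  exact hz (hβinj a0 ha0 w hw.1 hw0 z h3.symm)

end H89.Hart
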