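import Mathlib

/-! From one diagonal matrix of infinite order to a one-parameter group. -/

open MvPolynomial

set_option linter.unusedSectionVars false
set_option linter.unusedSimpArgs false

namespace H89.Hart

variable {ι : Type*} [Fintype ι] [DecidableEq ι]

theorem vandermonde_zero (T : Finset ℂ) (c : ℂ → ℂ)
    (h : ∀ k : ℕ, ∑ χ ∈ T, χ ^ k * c χ = 0) : ∀ χ ∈ T, c χ = 0 := by
  have hli := linearIndependent_monoidHom (Multiplicative ℕ) ℂ
  have hli2 := hli.comp (powersHom ℂ) (powersHom ℂ).injective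
  have hsum : ∑ χ ∈ T, c χ • (((fun f => f : (Multiplicative ℕ →* ℂ) → Multiplicative ℕ → ℂ)) ∘
      (powersHom ℂ)) χ = 0 := by
    funext k
    simp only [Finset.sum_apply, Pi.smul_apply, Function.comp, smul_eq_mul, Pi.zero_apply]
    have := h k.toAdd
    rw [← this]
    refine Finset.sum_congr rfl fun χ _ => ?_
    rw [mul_comm]
    rfl
  exact linearIndependent_iff'.1 hli2 T c hsum

/-- If `F` vanishes on the orbit of `y` under a diagonal matrix `a`, it vanishes on the orbit
under every one-parameter group whose weights respect the multiplicative relations of `a`. -/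
theorem eval_act_zero (F : MvPolynomial ι ℂ) (y a : ι → ℂ)
    (h : ∀ k : ℕ, eval (fun i => a i ^ k * y i) F = 0) (w : ι → ℤ)
    (hw : ∀ m m' : ι →₀ ℕ, ∏ i, a i ^ m i = ∏ i, a i ^ m' i →
      ∑ i, (m i : ℤ) * w i = ∑ i, (m' i : ℤ) * w i) {t : ℂ} (ht : t ≠ 0) :
    eval (fun i => t ^ w i * y i) F = 0 := by
  classical
  let val : (ι →₀ ℕ) → ℂ := fun m => ∏ i, a i ^ m i
  let T : Finset ℂ := F.support.image val
  let c : ℂ → ℂ := fun χ => ∑ m ∈ F.support.filter (fun m => val m = χ),
    coeff m F * ∏ i, y i ^ m i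
  have h1 : ∀ k : ℕ, ∑ χ ∈ T, χ ^ k * c χ = 0 := by
    intro k
    rw [← h k, eval_eq']
    rw [← Finset.sum_fiberwise_of_maps_to (g := val) (t := T)
      (fun m hm => Finset.mem_image_of_mem _ hm)]
    refine Finset.sum_congr rfl fun χ _ => ?_
    rw [Finset.mul_sum]
    refine Finset.sum_congr rfl fun m hm => ?_
    have hval : val m = χ := (Finset.mem_filter.1 hm).2
    have : ∏ i, (a i ^ k * y i) ^ m i = χ ^ k * ∏ i, y i ^ m i := by
      rw [← hval]
      simp only [val, mul_pow, Finset.prod_mul_distrib, ← Finset.prod_pow]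
      congr 1
      refine Finset.prod_congr rfl fun i _ => ?_
      rw [← pow_mul, ← pow_mul, mul_comm]
    rw [this]; ring
  have h2 := vandermonde_zero T c h1
  rw [eval_eq', ← Finset.sum_fiberwise_of_maps_to (g := val) (t := T)
      (fun m hm => Finset.mem_image_of_mem _ hm)]
  apply Finset.sum_eq_zero
  intro χ hχ
  obtain ⟨m₀, hm₀, hm₀χ⟩ := Finset.mem_image.1 hχ
  have h3 : ∀ m ∈ F.support.filter (fun m => val m = χ),
      coeff m F * ∏ i, (t ^ w i * y i) ^ m i =
      t ^ (∑ i, (m₀ i : ℤ) * w i) * (coeff m F * ∏ i, y i ^ m i) := by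
    intro m hm
    have hval : val m = χ := (Finset.mem_filter.1 hm).2
    have h4 := hw m m₀ (hval.trans hm₀χ.symm)
    rw [← h4]
    have : ∏ i, (t ^ w i * y i) ^ m i = t ^ (∑ i, (m i : ℤ) * w i) * ∏ i, y i ^ m i := by
      simp only [mul_pow, Finset.prod_mul_distrib]
      congr 1
      have h5 : ∀ s : Finset ι, ∏ i ∈ s, (t ^ w i) ^ m i = t ^ ∑ i ∈ s, (m i : ℤ) * w i := by
        intro s
        induction s using Finset.induction_on with
        | empty => simp
        | insert b s hb ih =>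
          rw [Finset.prod_insert hb, Finset.sum_insert hb, ih, zpow_add₀ ht]
          congr 1
          rw [mul_comm, zpow_mul, zpow_natCast]
      exact h5 _
    rw [this]; ring
  rw [Finset.sum_congr rfl h3, ← Finset.mul_sum]
  have h6 := h2 χ hχ
  change ∑ m ∈ F.support.filter (fun m => val m = χ), coeff m F * ∏ i, y i ^ m i = 0 at h6
  rw [h6, mul_zero]

/-- the rational relations of `a`. -/
def relQ (a : ι → ℂ) (ha : ∀ i, a i ≠ 0) : Submodule ℚ (ι → ℚ) where
  carrier := {v | ∃ K : ℕ, 0 < K ∧ ∃ u : ι → ℤ, (∀ i, (K : ℚ) * v i = u i) ∧ ∏ i, a i ^ u i = 1}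
  add_mem' {v v'} := by
    rintro ⟨K, hK, u, hu, h⟩ ⟨K', hK', u', hu', h'⟩
    refine ⟨K * K', Nat.mul_pos hK hK', fun i => K' * u i + K * u' i, fun i => ?_, ?_⟩
    · push_cast
      rw [Pi.add_apply, ← hu i, ← hu' i]; ring
    · have : ∏ i, a i ^ ((K' : ℤ) * u i + K * u' i) =
          (∏ i, a i ^ u i) ^ (K' : ℤ) * (∏ i, a i ^ u' i) ^ (K : ℤ) := by
        rw [← Finset.prod_zpow, ← Finset.prod_zpow, ← Finset.prod_mul_distrib]
        refine Finset.prod_congr rfl fun i _ => ?_
        rw [zpow_add₀ (ha i), ← zpow_mul, ← zpow_mul, mul_comm (K' : ℤ), mul_comm (K : ℤ)]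
      rw [this, h, h', one_zpow, one_zpow, one_mul]
  zero_mem' := ⟨1, one_pos, 0, by simp, by simp⟩
  smul_mem' q v := by
    rintro ⟨K, hK, u, hu, h⟩
    refine ⟨K * q.den, Nat.mul_pos hK q.den_pos, fun i => q.num * u i, fun i => ?_, ?_⟩
    · push_cast
      rw [Pi.smul_apply, smul_eq_mul, ← hu i]
      have : (q.den : ℚ) * q = q.num := by rw [mul_comm]; exact Rat.mul_den_eq_num q
      linear_combination (K : ℚ) * v i * this
    · have : ∏ i, a i ^ (q.num * u i) = (∏ i, a i ^ u i) ^ q.num := by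
        rw [← Finset.prod_zpow]
        refine Finset.prod_congr rfl fun i _ => ?_
        rw [← zpow_mul, mul_comm]
      rw [this, h, one_zpow]

theorem exists_weights (a : ι → ℂ) (ha : ∀ i, a i ≠ 0) {i j : ι}
    (hij : ∀ k : ℕ, 0 < k → a i ^ k ≠ a j ^ k) :
    ∃ w : ι → ℤ, w i ≠ w j ∧ ∀ m m' : ι →₀ ℕ, ∏ i, a i ^ m i = ∏ i, a i ^ m' i →
      ∑ i, (m i : ℤ) * w i = ∑ i, (m' i : ℤ) * w i := by
  have hne : i ≠ j := by rintro rfl; exact hij 1 one_pos rfl
  have hnot : (Pi.single i 1 - Pi.single j 1 : ι → ℚ) ∉ relQ a ha := by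
    rintro ⟨K, hK, u, hu, h⟩
    have hui : u i = K := by
      have := hu i
      rw [Pi.sub_apply, Pi.single_eq_same, Pi.single_eq_of_ne hne, sub_zero, mul_one] at this
      exact_mod_cast this.symm
    have huj : u j = -K := by
      have := hu j
      rw [Pi.sub_apply, Pi.single_eq_same, Pi.single_eq_of_ne hne.symm, zero_sub, mul_neg,
        mul_one] at this
      exact_mod_cast this.symm
    have hu0 : ∀ k, k ≠ i → k ≠ j → u k = 0 := by
      intro k hki hkj
      have := hu k
      rw [Pi.sub_apply, Pi.single_eq_of_ne hki, Pi.single_eq_of_ne hkj, sub_zero, mul_zero] at this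
      exact_mod_cast this.symm
    have h1 : ∏ k, a k ^ u k = a i ^ u i * a j ^ u j := by
      rw [← Finset.prod_subset (Finset.subset_univ ({i, j} : Finset ι))]
      · rw [Finset.prod_pair hne]
      · intro k _ hk
        simp only [Finset.mem_insert, Finset.mem_singleton, not_or] at hk
        rw [hu0 k hk.1 hk.2, zpow_zero]
    rw [h1, hui, huj, zpow_neg, zpow_natCast, zpow_natCast] at h
    apply hij K hK
    have h2 := pow_ne_zero K (ha j)
    field_simp at h
    exact h
  obtain ⟨f, hf, hle⟩ := Submodule.exists_le_ker_of_notMem hnot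
  let d : ℤ := ∏ k, ((f (Pi.single k 1)).den : ℤ)
  have hd : d ≠ 0 := Finset.prod_ne_zero_iff.2 fun k _ => by
    have := (f (Pi.single k 1)).den_pos; positivity
  have hint : ∀ k, ∃ z : ℤ, (z : ℚ) = d * f (Pi.single k 1) := by
    intro k
    obtain ⟨e, he⟩ : ((f (Pi.single k 1)).den : ℤ) ∣ d := Finset.dvd_prod_of_mem _ (Finset.mem_univ k)
    refine ⟨e * (f (Pi.single k 1)).num, ?_⟩
    rw [he]
    push_cast
    have : (f (Pi.single k 1)) * ((f (Pi.single k 1)).den : ℚ) = (f (Pi.single k 1)).num :=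
      Rat.mul_den_eq_num _
    rw [← this]; ring
  choose w hw using hint
  have hf' : ∀ v : ι → ℚ, f v = ∑ k, v k * f (Pi.single k 1) := by
    intro v
    have : v = ∑ k, v k • (Pi.single k (1 : ℚ) : ι → ℚ) := by
      funext m; simp [Finset.sum_apply, Pi.single_apply]
    conv_lhs => rw [this, map_sum]
    simp
  refine ⟨w, ?_, ?_⟩
  · intro h
    apply hf
    rw [map_sub]
    have h1 : (d : ℚ) * f (Pi.single i 1) = d * f (Pi.single j 1) := by rw [← hw, ← hw, h]
    have h2 : (d : ℚ) ≠ 0 := by exact_mod_cast hd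
    rw [mul_left_cancel₀ h2 h1, sub_self]
  · intro m m' hmm
    have hmem : (fun k => (m k : ℚ) - m' k) ∈ relQ a ha := by
      refine ⟨1, one_pos, fun k => m k - m' k, fun k => by push_cast; ring, ?_⟩
      have : ∏ k, a k ^ ((m k : ℤ) - m' k) = (∏ k, a k ^ m k) / ∏ k, a k ^ m' k := by
        rw [← Finset.prod_div_distrib]
        refine Finset.prod_congr rfl fun k _ => ?_
        rw [zpow_sub₀ (ha k), zpow_natCast, zpow_natCast]
      rw [this, hmm, div_self]
      exact Finset.prod_ne_zero_iff.2 fun k _ => pow_ne_zero _ (ha k)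
    have h1 := LinearMap.mem_ker.1 (hle hmem)
    rw [hf'] at h1
    have h2 : ((∑ k, (m k : ℤ) * w k : ℤ) : ℚ) - ((∑ k, (m' k : ℤ) * w k : ℤ) : ℚ) = 0 := by
      push_cast
      rw [← Finset.sum_sub_distrib]
      have : (d : ℚ) * ∑ k, ((m k : ℚ) - m' k) * f (Pi.single k 1) = 0 := by rw [h1, mul_zero]
      rw [← this, Finset.mul_sum]
      refine Finset.sum_congr rfl fun k _ => ?_
      rw [hw]; ring
    exact_mod_cast sub_eq_zero.1 h2

end H89.Hart
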