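import Pool.Agent.H89.Hart.Core

/-! A smooth hypersurface with a one-parameter group is a quadric. -/

open MvPolynomial Filter Topology

set_option linter.unusedSectionVars false
set_option linter.unusedSimpArgs false

namespace H89.Hart

variable {ι : Type*} [Fintype ι] [DecidableEq ι]

/-- value at a coordinate vector. -/
theorem weight_of_eval_single {w : ι → ℤ} {c : ℤ} {e : ℕ} {f : MvPolynomial ι ℂ}
    (hw : IsWeightedHomogeneous w f c) (he : f.IsHomogeneous e) {i : ι}
    (h : eval (Pi.single i 1 : ι → ℂ) f ≠ 0) : (e : ℤ) * w i = c := by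
  obtain ⟨m, hm, hmi⟩ := exists_monomial h
  have hm1 : ∀ j, j ≠ i → m j = 0 := by
    intro j hj
    by_contra hne
    apply hmi j hne
    rw [Pi.single_apply, if_neg hj]
  have h1 := hw (mem_support_iff.1 hm)
  rw [weight_eq, Finset.sum_eq_single i (fun j _ hj => by rw [hm1 j hj]; simp) (by simp)] at h1
  have h2 := he.degree_eq_sum_deg_support hm
  have h3 : e = m i := by
    rw [h2]
    by_cases hmi0 : m i = 0
    · rw [hmi0]
      apply Finset.sum_eq_zero
      intro j _
      by_cases hj : j = i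
      · rw [hj, hmi0]
      · exact hm1 j hj
    · rw [Finset.sum_eq_single i (fun j _ hj => hm1 j hj)]
      intro hni
      exact absurd (Finsupp.mem_support_iff.2 hmi0) hni
  rw [h3]; exact h1

/-- components of a homogeneous generator are multiples of it. -/
theorem gen_weighted {I : Ideal (MvPolynomial ι ℂ)} (hI : I.IsPrime) {w : ι → ℤ}
    (hw : ∀ t : ℂ, t ≠ 0 → ∀ x ∈ cone I, act w t x ∈ cone I) {G : MvPolynomial ι ℂ}
    (hG : I = Ideal.span {G}) (hG0 : G ≠ 0) {e : ℕ} (he : G.IsHomogeneous e) :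
    ∃ c, IsWeightedHomogeneous w G c := by
  obtain ⟨m, hm⟩ := support_nonempty.2 hG0
  set c := Finsupp.weight w m with hc
  set G' := weightedHomogeneousComponent w c G with hG'
  have hG'I : G' ∈ I := wcomp_mem hI w hw (by rw [hG]; exact Ideal.mem_span_singleton_self G) c
  have hG'0 : G' ≠ 0 := by
    intro h
    have h1 : coeff m G' = coeff m G := by
      classical
      rw [hG', coeff_weightedHomogeneousComponent, if_pos hc.symm]
    rw [h, coeff_zero] at h1
    exact mem_support_iff.1 hm h1.symm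
  have hG'e : G'.IsHomogeneous e := by
    intro d hd
    classical
    rw [hG', coeff_weightedHomogeneousComponent] at hd
    apply he
    intro h0
    apply hd
    rw [h0, ite_self]
  rw [hG] at hG'I
  obtain ⟨h, hh⟩ := Ideal.mem_span_singleton.1 hG'I
  have hh0 : h ≠ 0 := by rintro rfl; exact hG'0 (by rw [hh, mul_zero])
  have hdeg : G.totalDegree + h.totalDegree = e := by
    rw [← totalDegree_mul_of_isDomain hG0 hh0, ← hh, hG'e.totalDegree hG'0]
  rw [he.totalDegree hG0] at hdeg
  have hht : h.totalDegree = 0 := by omega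
  have hC := totalDegree_eq_zero_iff_eq_C.1 hht
  set k := coeff 0 h with hk
  have hk0 : k ≠ 0 := by
    intro h0; apply hh0; rw [hC, h0, map_zero]
  have hGG' : G = k⁻¹ • G' := by
    rw [hh, hC, MvPolynomial.smul_eq_C_mul, mul_comm G, ← mul_assoc, ← C_mul, inv_mul_cancel₀ hk0,
      C_1, one_mul]
  refine ⟨c, ?_⟩
  rw [hGG', MvPolynomial.smul_eq_C_mul]
  have h1 := (isWeightedHomogeneous_C (w := w) (k⁻¹ : ℂ)).mul
    (weightedHomogeneousComponent_isWeightedHomogeneous (w := w) c G)
  rwa [zero_add] at h1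

theorem Setup.deg_le {I : Ideal (MvPolynomial ι ℂ)} {w : ι → ℤ} {D : ℤ}
    (S : Setup I 1 w D) {G : MvPolynomial ι ℂ} (hG : I = Ideal.span {G}) {e : ℕ}
    (he : G.IsHomogeneous e) : e ≤ 2 := by
  have hD := S.hD
  have hdif : ∀ x ∈ cone I, x ≠ 0 → dif G x ≠ 0 := by
    intro x hx hx0 h0
    have h1 : N I x = ⊥ := by
      rw [Submodule.eq_bot_iff]
      intro φ hφ
      obtain ⟨f, hf, rfl⟩ := mem_N.1 hφ
      rw [hG] at hf
      obtain ⟨h, rfl⟩ := Ideal.mem_span_singleton.1 hf
      rw [dif_mul, h0, smul_zero, add_zero, hx G (by rw [hG]; exact Ideal.mem_span_singleton_self G),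
        zero_smul]
    have h2 := S.smooth.rank x hx hx0
    rw [h1, finrank_bot] at h2
    exact absurd h2 (by norm_num)
  have hG0 : G ≠ 0 := by
    rintro rfl
    obtain ⟨a, ha, ha0, -⟩ := S.exists_low
    exact hdif a ha ha0 (dif_zero a)
  obtain ⟨c, hc⟩ := gen_weighted S.smooth.prime S.stab hG hG0 he
  have key : ∀ i, ∃ l, ((e : ℤ) - 1) * w i + w l = c := by
    intro i
    by_cases h : eval (Pi.single i 1 : ι → ℂ) G = 0
    · have hmem : (Pi.single i 1 : ι → ℂ) ∈ cone I := by
        intro f hf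
        rw [hG] at hf
        obtain ⟨h', rfl⟩ := Ideal.mem_span_singleton.1 hf
        rw [map_mul, h, zero_mul]
      have hne := hdif _ hmem (by
        intro h0
        have := congrFun h0 i
        rw [Pi.single_eq_same] at this
        exact one_ne_zero this)
      obtain ⟨l, hl⟩ : ∃ l, dif G (Pi.single i 1) l ≠ 0 := by
        by_contra hcon; push Not at hcon; exact hne (_root_.funext hcon)
      refine ⟨l, ?_⟩
      have h1 : IsWeightedHomogeneous w (pderiv l G) (c - w l) := hc.pderiv (by ring)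
      have h2 := weight_of_eval_single h1 (he.pderiv (i := l)) hl
      rcases Nat.eq_zero_or_pos e with h0 | h0
      · -- constant: its differential vanishes
        exfalso
        subst h0
        apply hl
        have hC := totalDegree_eq_zero_iff_eq_C.1 (he.totalDegree hG0)
        rw [hC]
        simp [dif]
      · have : ((e - 1 : ℕ) : ℤ) = (e : ℤ) - 1 := by omega
        rw [this] at h2
        linarith
    · refine ⟨i, ?_⟩
      have := weight_of_eval_single hc he h
      linarith
  obtain ⟨i, hi⟩ := S.top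
  obtain ⟨j, hj⟩ := S.bot
  obtain ⟨l, hl⟩ := key i
  obtain ⟨l', hl'⟩ := key j
  have h1 := S.ge l
  have h2 := S.le l'
  rw [hi] at hl
  rw [hj] at hl'
  by_contra hcon
  push Not at hcon
  have h3 : (2 : ℤ) ≤ (e : ℤ) - 1 := by omega
  nlinarith

theorem core2 (ι : Type) [Fintype ι] [DecidableEq ι] (I : Ideal (MvPolynomial ι ℂ)) (r : ℕ)
    (w : ι → ℤ) (hI : Smooth I r)
    (hstab : ∀ t : ℂ, t ≠ 0 → ∀ x ∈ cone I, (fun i => t ^ w i * x i) ∈ cone I)
    (hnd : ∀ s : ι → ℂ, (∀ x ∈ cone I, s ⬝ᵥ x = 0) → s = 0)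
    (hw : ∃ i j, w i ≠ w j) (hcard : 23 * r < Fintype.card ι) :
    r ≤ 1 ∧ (r = 1 → ∀ G e, I = Ideal.span {G} → G.IsHomogeneous e → e ≤ 2) := by
  refine ⟨core ι I r w hI hstab hnd hw hcard, ?_⟩
  rintro rfl G e hG he
  obtain ⟨i₀, j₀, hij⟩ := hw
  have hne : (Finset.univ : Finset ι).Nonempty := ⟨i₀, Finset.mem_univ _⟩
  obtain ⟨i₁, -, hmin⟩ := Finset.exists_min_image _ w hne
  obtain ⟨i₂, -, hmax⟩ := Finset.exists_max_image _ w hne
  have h1 := hmin i₀ (Finset.mem_univ _)
  have h2 := hmin j₀ (Finset.mem_univ _)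
  have h3 := hmax i₀ (Finset.mem_univ _)
  have h4 := hmax j₀ (Finset.mem_univ _)
  have S : Setup I 1 (fun i => 2 * w i - (w i₁ + w i₂)) (w i₂ - w i₁) :=
    { smooth := hI
      rpos := by omega
      stab := by
        intro t ht x hx
        have h5 := smul_mem_cone hI (hstab (t ^ 2) (pow_ne_zero 2 ht) x hx)
          (t ^ (-(w i₁ + w i₂)))
        have : t ^ (-(w i₁ + w i₂)) • (fun i => (t ^ 2) ^ w i * x i) =
            act (fun i => 2 * w i - (w i₁ + w i₂)) t x := by
          funext i
          simp only [act, Pi.smul_apply, smul_eq_mul]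
          rw [← mul_assoc, ← zpow_natCast t 2, ← zpow_mul, ← zpow_add₀ ht]
          congr 2
          push_cast
          ring
        rwa [this] at h5
      nd := hnd
      hD := by omega
      le := fun i => by have := hmax i (Finset.mem_univ _); omega
      ge := fun i => by have := hmin i (Finset.mem_univ _); omega
      top := ⟨i₂, by ring⟩
      bot := ⟨i₁, by ring⟩ }
  exact S.deg_le hG he

end H89.Hart
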