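import Pool.Agent.H89.Hart.Reduction
import Pool.Agent.H89.Hart.Quad
import Pool.Agent.H89.Hart.InfOrder

/-!
# The final theorem for one diagonalizable automorphism of infinite order
-/

open MvPolynomial

set_option linter.unusedSectionVars false
set_option linter.unusedSimpArgs false

namespace H89.Hart

open H15.Hart

/-- Reduction of the final theorem to the nondegenerate diagonal case (after helper15). -/
theorem reduction2
    (n r : ℕ) (I : Ideal (MvPolynomial (Fin (n + 1)) ℂ)) (hI : Smooth I r)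
    (hdim : ringKrullDim (MvPolynomial (Fin (n + 1)) ℂ ⧸ I) + r = n + 1)
    (A : (Fin (n + 1) → ℂ) ≃ₗ[ℂ] (Fin (n + 1) → ℂ)) (w : Fin (n + 1) → ℤ)
    (hstab : ∀ t : ℂ, t ≠ 0 → ∀ x ∈ cone I, A (fun i => t ^ w i * A.symm x i) ∈ cone I)
    (hmove : ∃ x ∈ cone I, ∃ t : ℂ, t ≠ 0 ∧ ∀ c : ℂ, A (fun i => t ^ w i * A.symm x i) ≠ c • x)
    (hn : 23 * r < n + 1) :
    ∃ F : Fin r → MvPolynomial (Fin (n + 1)) ℂ, ∃ d : Fin r → ℕ,
      (∀ i, (F i).IsHomogeneous (d i)) ∧ (∀ i, d i = 1 ∨ d i = 2) ∧
      (∀ i j, d i = 2 → d j = 2 → i = j) ∧ I = Ideal.span (Set.range F) ∧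
      ∀ x ∈ cone I, x ≠ 0 → LinearIndependent ℂ (fun i => dif (F i) x) := by
  classical
  -- the span of the cone in the diagonal coordinates
  let Y : Set (Fin (n + 1) → ℂ) := {y | A y ∈ cone I}
  let W : Submodule ℂ (Fin (n + 1) → ℂ) := Submodule.span ℂ Y
  let D : ℂ → (Fin (n + 1) → ℂ) →ₗ[ℂ] (Fin (n + 1) → ℂ) := fun t =>
    { toFun := fun y i => t ^ w i * y i
      map_add' := fun y z => by funext i; simp [mul_add]
      map_smul' := fun c y => by funext i; simp; ring }
  have hD : ∀ t y, D t y = fun i => t ^ w i * y i := fun _ _ => rfl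
  have hYW : ∀ x ∈ cone I, A.symm x ∈ W := fun x hx =>
    Submodule.subset_span (show A (A.symm x) ∈ cone I by rwa [A.apply_symm_apply])
  have hDY : ∀ t, t ≠ 0 → ∀ y ∈ Y, D t y ∈ Y := by
    intro t ht y hy
    have := hstab t ht (A y) hy
    rw [A.symm_apply_apply] at this
    exact this
  have hDW : ∀ t, t ≠ 0 → ∀ y ∈ W, D t y ∈ W := by
    intro t ht y hy
    have h1 : D t y ∈ W.map (D t) := Submodule.mem_map_of_mem hy
    have h2 : W.map (D t) ≤ W := by
      rw [Submodule.map_span, Submodule.span_le]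
      rintro _ ⟨y, hy, rfl⟩
      exact Submodule.subset_span (hDY t ht y hy)
    exact h2 h1
  obtain ⟨κ, _, _, a, B, hBW, hBa, hBW'⟩ := exists_coords W
  let L : (κ → ℂ) →ₗ[ℂ] (Fin (n + 1) → ℂ) := A.toLinearMap ∘ₗ B
  let M : (Fin (n + 1) → ℂ) →ₗ[ℂ] (κ → ℂ) := LinearMap.funLeft ℂ ℂ a ∘ₗ A.symm.toLinearMap
  have hL : ∀ z, L z = A (B z) := fun _ => rfl
  have hM : ∀ x, M x = fun k => A.symm x (a k) := fun _ => rfl
  have hInv : Inv L M I :=
    { ML := fun z => by
        rw [hL, hM, A.symm_apply_apply]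
        funext k
        exact hBa z k
      LM := fun x hx => by
        rw [hL, hM, hBW' _ (hYW x hx), A.apply_symm_apply] }
  have hBD : ∀ t, t ≠ 0 → ∀ z, B (fun k => t ^ w (a k) * z k) = D t (B z) := by
    intro t ht z
    rw [← hBW' _ (hDW t ht _ (hBW z))]
    congr 1
    funext k
    change t ^ w (a k) * z k = t ^ w (a k) * B z (a k)
    rw [hBa]
  obtain ⟨x₀, hx₀, t₀, ht₀, hmv⟩ := hmove
  have hx₀0 : x₀ ≠ 0 := by
    rintro rfl
    apply hmv 0
    rw [map_zero, smul_zero]
    have : (fun i => t₀ ^ w i * (0 : Fin (n + 1) → ℂ) i) = 0 := by funext i; simp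
    rw [this, map_zero]
  set r₀ := Module.finrank ℂ (LinearMap.ker (tr L)) with hr₀
  have hcard : r₀ + Fintype.card κ = n + 1 := by
    have := finrank_ker_tr hInv
    rwa [Fintype.card_fin] at this
  have hr₀r : r₀ ≤ r := by
    rw [← hI.rank x₀ hx₀ hx₀0]
    exact Submodule.finrank_mono (ker_tr_le hInv hI.prime x₀)
  set r' := r - r₀ with hr'
  have hsm : Smooth (pull M I) r' :=
    { prime := pull_isPrime hInv hI.prime
      homog := fun g hg d => by
        change sub M _ ∈ I
        rw [← homogeneousComponent_sub]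
        exact hI.homog _ hg d
      rank := fun z hz hz0 => by
        have h1 := finrank_N_pull hInv hI.prime z
        rw [hI.rank _ ((cone_pull hInv hI.prime).1 hz) (L_ne_zero hInv hI.prime hz0)] at h1
        omega }
  have hr12 : r' ≤ 1 ∧ (r' = 1 → ∀ G e, pull M I = Ideal.span {G} → G.IsHomogeneous e →
      e ≤ 2) := by
    refine core2 κ (pull M I) r' (fun k => w (a k)) hsm ?_ ?_ ?_ (by omega)
    · intro t ht z hz
      rw [cone_pull hInv hI.prime, hL] at hz ⊢
      rw [hBD t ht z, hD]
      have := hstab t ht _ hz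
      rwa [A.symm_apply_apply] at this
    · intro s hs
      have h1 : ∀ y ∈ W, s ⬝ᵥ (fun k => y (a k)) = 0 := by
        intro y hy
        induction hy using Submodule.span_induction with
        | mem y hy =>
          apply hs
          rw [cone_pull hInv hI.prime, hL, hBW' y (Submodule.subset_span hy)]
          exact hy
        | zero => simp [dotProduct]
        | add y z _ _ h h' =>
          have : (fun k => (y + z) (a k)) = (fun k => y (a k)) + fun k => z (a k) := rfl
          rw [this, dotProduct_add, h, h', add_zero]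
        | smul c y _ h =>
          have : (fun k => (c • y) (a k)) = c • fun k => y (a k) := rfl
          rw [this, dotProduct_smul, h, smul_zero]
      funext k
      have h2 := h1 _ (hBW (Pi.single k 1))
      simpa [hBa] using h2
    · by_contra hne
      push Not at hne
      obtain ⟨c, hc⟩ : ∃ c : ℂ, ∀ k, t₀ ^ w (a k) = c := by
        rcases isEmpty_or_nonempty κ with he | ⟨⟨k₀⟩⟩
        · exact ⟨0, fun k => he.elim k⟩
        · exact ⟨t₀ ^ w (a k₀), fun k => by rw [hne k k₀]⟩
      apply hmv c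
      have h1 : D t₀ (A.symm x₀) = c • A.symm x₀ := by
        rw [← hBW' _ (hDW t₀ ht₀ _ (hYW x₀ hx₀))]
        conv_rhs => rw [← hBW' _ (hYW x₀ hx₀)]
        rw [← map_smul]
        congr 1
        funext k
        change t₀ ^ w (a k) * A.symm x₀ (a k) = c * A.symm x₀ (a k)
        rw [hc]
      change A (D t₀ (A.symm x₀)) = _
      rw [h1, map_smul, A.apply_symm_apply]
  have hr1 := hr12.1
  obtain ⟨d, hd⟩ := exists_nat_of_add (n := n + 1) (by rw [hdim]; norm_cast)
  have hdim' : ringKrullDim (MvPolynomial κ ℂ ⧸ pull M I) + r' = Fintype.card κ := by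
    rw [ringKrullDim_pull hInv hI.prime, hd]
    rw [hd] at hdim
    have h1 : d + r = n + 1 := by exact_mod_cast hdim
    have h2 : d + r' = Fintype.card κ := by omega
    exact_mod_cast h2
  obtain ⟨F', hF'h, hF'⟩ := exists_gens hsm.prime hsm.homog hr1 hdim'
  choose d' hd' using hF'h
  have hd'12 : ∀ j, d' j = 1 ∨ d' j = 2 := by
    intro j
    have hj := j.2
    have hr1' : r' = 1 := by omega
    have hrange : pull M I = Ideal.span {F' j} := by
      rw [hF']
      congr 1
      ext x
      constructor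
      · rintro ⟨j', rfl⟩
        have : j' = j := Fin.ext (by have := j'.2; omega)
        rw [this]; rfl
      · rintro rfl; exact ⟨j, rfl⟩
    have h1 := hr12.2 hr1' (F' j) (d' j) hrange (hd' j)
    have h2 : d' j ≠ 0 := by
      intro h0
      have h3 := hd' j
      rw [h0] at h3
      by_cases hF0 : F' j = 0
      · have h4 := hr12.2 hr1' (F' j) 3 hrange (by rw [hF0]; exact isHomogeneous_zero _ _ _)
        omega
      · have hC := totalDegree_eq_zero_iff_eq_C.1 (h3.totalDegree hF0)
        apply hsm.prime.ne_top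
        rw [hrange, Ideal.eq_top_iff_one, hC]
        have hk : coeff 0 (F' j) ≠ 0 := by
          intro hk; apply hF0; rw [hC, hk, map_zero]
        have h5 : (1 : MvPolynomial κ ℂ) = C (coeff 0 (F' j))⁻¹ * C (coeff 0 (F' j)) := by
          rw [← C_mul, inv_mul_cancel₀ hk, C_1]
        rw [h5]
        exact Ideal.mul_mem_left _ _ (Ideal.mem_span_singleton_self _)
    omega
  let b := Module.finBasis ℂ (LinearMap.ker (tr L))
  have hb : Submodule.span ℂ (Set.range fun j => (b j : Fin (n + 1) → ℂ)) =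
      LinearMap.ker (tr L) := by
    have h1 := congrArg (Submodule.map (LinearMap.ker (tr L)).subtype) b.span_eq
    rw [Submodule.map_span, Submodule.map_subtype_top, ← Set.range_comp] at h1
    exact h1
  have hgen := gens_pull hInv hI.prime (fun j => (b j : Fin (n + 1) → ℂ)) hb F' hF'
  let e : Fin r ≃ Fin r₀ ⊕ Fin r' :=
    ((finSumFinEquiv).trans (finCongr (show r₀ + r' = r by omega))).symm
  have hgen' : I = Ideal.span (Set.range fun i => Sum.elim (fun j => lin (b j : Fin (n + 1) → ℂ))
      (fun j => sub M (F' j)) (e i)) := by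
    have : (Set.range fun i => Sum.elim (fun j => lin (b j : Fin (n + 1) → ℂ))
      (fun j => sub M (F' j)) (e i)) = Set.range (Sum.elim (fun j => lin (b j : Fin (n + 1) → ℂ))
      (fun j => sub M (F' j))) := e.surjective.range_comp _
    rw [this]
    exact hgen
  refine ⟨_, fun i => Sum.elim (fun _ => 1) d' (e i), ?_, ?_, ?_, hgen', ?_⟩
  · intro i
    dsimp only
    rcases e i with j | j
    · exact lin_homog _
    · exact sub_homog M (hd' j)
  · intro i
    dsimp only
    rcases e i with j | j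
    · exact Or.inl rfl
    · exact hd'12 j
  · intro i i' hi hi'
    dsimp only at hi hi'
    apply e.injective
    rcases hei : e i with j | j
    · rw [hei] at hi; exact absurd hi (by simp)
    · rcases hei' : e i' with j' | j'
      · rw [hei'] at hi'; exact absurd hi' (by simp)
      · congr 1
        exact Fin.ext (by have := j.2; have := j'.2; omega)
  · intro x hx hx0
    rw [linearIndependent_iff_card_eq_finrank_span, Set.finrank, ← N_span hgen' hx,
      hI.rank x hx hx0, Fintype.card_fin]

/-- the theorem for one diagonalizable automorphism of infinite order. -/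
theorem main (n r : ℕ) (I : Ideal (MvPolynomial (Fin (n + 1)) ℂ)) (hI : Smooth I r)
    (hdim : ringKrullDim (MvPolynomial (Fin (n + 1)) ℂ ⧸ I) + r = n + 1)
    (A : (Fin (n + 1) → ℂ) ≃ₗ[ℂ] (Fin (n + 1) → ℂ)) (a : Fin (n + 1) → ℂ) (ha : ∀ i, a i ≠ 0)
    (hstab : ∀ x ∈ cone I, A (fun i => a i * A.symm x i) ∈ cone I)
    (hmove : ∀ m : ℕ, 0 < m → ∃ x ∈ cone I, ∀ c : ℂ, A (fun i => a i ^ m * A.symm x i) ≠ c • x)
    (hn : 23 * r < n + 1) :
    ∃ F : Fin r → MvPolynomial (Fin (n + 1)) ℂ, ∃ d : Fin r → ℕ,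
      (∀ i, (F i).IsHomogeneous (d i)) ∧ (∀ i, d i = 1 ∨ d i = 2) ∧
      (∀ i j, d i = 2 → d j = 2 → i = j) ∧ I = Ideal.span (Set.range F) ∧
      ∀ x ∈ cone I, x ≠ 0 → LinearIndependent ℂ (fun i => dif (F i) x) := by
  classical
  -- a common exponent for all pairs of finite relative order
  let ord : Fin (n + 1) → Fin (n + 1) → ℕ := fun i j =>
    if h : ∃ k : ℕ, 0 < k ∧ a i ^ k = a j ^ k then h.choose else 1
  have hord0 : ∀ i j, 0 < ord i j := by
    intro i j
    by_cases h : ∃ k : ℕ, 0 < k ∧ a i ^ k = a j ^ k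
    · simp only [ord, dif_pos h]; exact h.choose_spec.1
    · simp only [ord, dif_neg h]; exact one_pos
  have hord : ∀ i j, (∃ k : ℕ, 0 < k ∧ a i ^ k = a j ^ k) → a i ^ ord i j = a j ^ ord i j := by
    intro i j h
    simp only [ord, dif_pos h]; exact h.choose_spec.2
  let m : ℕ := ∏ i, ∏ j, ord i j
  have hm : 0 < m := Finset.prod_pos fun i _ => Finset.prod_pos fun j _ => hord0 i j
  have hdvd : ∀ i j, ord i j ∣ m := fun i j =>
    (Finset.dvd_prod_of_mem (fun j => ord i j) (Finset.mem_univ j)).trans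
      (Finset.dvd_prod_of_mem (fun i => ∏ j, ord i j) (Finset.mem_univ i))
  obtain ⟨x, hx, hxm⟩ := hmove m hm
  set y := A.symm x with hy
  obtain ⟨i, j, hi, hj, hij⟩ : ∃ i j, y i ≠ 0 ∧ y j ≠ 0 ∧ a i ^ m ≠ a j ^ m := by
    by_contra hcon
    push Not at hcon
    by_cases hy0 : y = 0
    · apply hxm 0
      rw [hy0]
      have h1 : (fun i => a i ^ m * (0 : Fin (n + 1) → ℂ) i) = 0 := by funext i; simp
      rw [h1, map_zero, zero_smul]
    · obtain ⟨i, hi⟩ : ∃ i, y i ≠ 0 := by
        by_contra hc; push Not at hc; exact hy0 (funext hc)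
      apply hxm (a i ^ m)
      have h1 : (fun k => a k ^ m * y k) = a i ^ m • y := by
        funext k
        rw [Pi.smul_apply, smul_eq_mul]
        by_cases hk : y k = 0
        · rw [hk, mul_zero, mul_zero]
        · rw [hcon k i hk hi]
      rw [h1, map_smul, hy, A.apply_symm_apply]
  have hinf : ∀ k : ℕ, 0 < k → a i ^ k ≠ a j ^ k := by
    intro k hk h
    apply hij
    obtain ⟨q, hq⟩ := hdvd i j
    rw [hq, pow_mul, pow_mul, hord i j ⟨k, hk, h⟩]
  obtain ⟨w, hwij, hw⟩ := exists_weights a ha hinf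
  refine reduction2 n r I hI hdim A w ?_ ?_ hn
  · intro t ht z hz f hf
    have hk : ∀ k : ℕ, A (fun i => a i ^ k * A.symm z i) ∈ cone I := by
      intro k
      induction k with
      | zero => simpa using hz
      | succ k ih =>
        have := hstab _ ih
        rw [A.symm_apply_apply] at this
        have e : (fun i => a i * (a i ^ k * A.symm z i)) = fun i => a i ^ (k + 1) * A.symm z i := by
          funext i; ring
        rwa [e] at this
    have h1 := eval_act_zero (sub A.toLinearMap f) (A.symm z) a (fun k => by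
      rw [H15.Hart.eval_sub]; exact hk k f hf) w hw ht
    rw [H15.Hart.eval_sub] at h1
    exact h1
  · refine ⟨x, hx, 2, two_ne_zero, fun c hc => hwij ?_⟩
    have h1 : (fun i => (2 : ℂ) ^ w i * y i) = c • y := by
      apply A.injective
      rw [map_smul, hy, A.apply_symm_apply]
      exact hc
    have h2 : (2 : ℂ) ^ w i = c := by
      have := congrFun h1 i
      rw [Pi.smul_apply, smul_eq_mul] at this
      exact mul_right_cancel₀ hi this
    have h3 : (2 : ℂ) ^ w j = c := by
      have := congrFun h1 j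
      rw [Pi.smul_apply, smul_eq_mul] at this
      exact mul_right_cancel₀ hj this
    have h4 : (2 : ℂ) ^ w i = (2 : ℂ) ^ w j := h2.trans h3.symm
    have h5 : ((2 : ℝ) ^ w i) = (2 : ℝ) ^ w j := by
      have := congrArg (fun z : ℂ => z.re) h4
      have e : ∀ n : ℤ, ((2 : ℂ) ^ n) = (((2 : ℝ) ^ n : ℝ) : ℂ) := fun n => by push_cast; rfl
      simp only [e, Complex.ofReal_re] at this
      exact this
    exact zpow_right_injective₀ (by norm_num) (by norm_num) h5

end H89.Hart
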