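import Pool.Agent.H89.Hart.L0

/-! Weights: one-parameter groups acting diagonally. -/

open MvPolynomial

set_option linter.unusedSectionVars false
set_option linter.unusedSimpArgs false

namespace H89.Hart

variable {ι : Type*} [Fintype ι] [DecidableEq ι]

/-- the diagonal action with integer weights. -/
noncomputable def act (v : ι → ℤ) (t : ℂ) (x : ι → ℂ) : ι → ℂ := fun i => t ^ v i * x i

theorem weight_eq (v : ι → ℤ) (m : ι →₀ ℕ) : Finsupp.weight v m = ∑ i, (m i : ℤ) * v i := by
  rw [Finsupp.weight_apply, Finsupp.sum_fintype]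
  · simp
  · simp

theorem prod_zpow_eq {α : Type*} (s : Finset α) (a : α → ℤ) {t : ℂ} (ht : t ≠ 0) :
    ∏ i ∈ s, t ^ a i = t ^ ∑ i ∈ s, a i := by
  classical
  induction s using Finset.induction_on with
  | empty => simp
  | insert b s hb ih => rw [Finset.prod_insert hb, Finset.sum_insert hb, ih, zpow_add₀ ht]

theorem eval_act (v : ι → ℤ) {c : ℤ} {f : MvPolynomial ι ℂ} (hf : IsWeightedHomogeneous v f c)
    {t : ℂ} (ht : t ≠ 0) (x : ι → ℂ) : eval (act v t x) f = t ^ c * eval x f := by
  rw [eval_eq', eval_eq', Finset.mul_sum]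
  refine Finset.sum_congr rfl fun m hm => ?_
  have hw := hf (mem_support_iff.1 hm)
  rw [weight_eq] at hw
  have : ∏ i, act v t x i ^ m i = t ^ c * ∏ i, x i ^ m i := by
    simp only [act, mul_pow, Finset.prod_mul_distrib]
    congr 1
    rw [← hw, ← prod_zpow_eq _ _ ht]
    refine Finset.prod_congr rfl fun i _ => ?_
    rw [mul_comm, zpow_mul, zpow_natCast]
  rw [this]; ring

/-- if a Laurent polynomial vanishes at all `t ≠ 0`, its coefficients vanish. -/
theorem laurent_zero (S : Finset ℤ) (a : ℤ → ℂ) (h : ∀ t : ℂ, t ≠ 0 → ∑ c ∈ S, t ^ c * a c = 0) :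
    ∀ c ∈ S, a c = 0 := by
  have hli := linearIndependent_monoidHom ℂˣ ℂ
  let χ : ℤ → (ℂˣ →* ℂ) := fun c => (Units.coeHom ℂ).comp (zpowGroupHom c)
  have hinj : Function.Injective χ := by
    intro c d hcd
    have h2 := congrArg (fun φ => φ (Units.mk0 (2 : ℂ) two_ne_zero)) hcd
    simp only [χ, MonoidHom.comp_apply, zpowGroupHom_apply, Units.coeHom_apply,
      Units.val_zpow_eq_zpow_val, Units.val_mk0] at h2
    have h3 : ((2 : ℝ) ^ c) = (2 : ℝ) ^ d := by
      have := congrArg (fun z : ℂ => z.re) h2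
      have e : ∀ n : ℤ, ((2 : ℂ) ^ n) = (((2 : ℝ) ^ n : ℝ) : ℂ) := fun n => by push_cast; rfl
      simp only [e, Complex.ofReal_re] at this
      exact this
    exact zpow_right_injective₀ (by norm_num) (by norm_num) h3
  have hli2 := hli.comp χ hinj
  have hsum : ∑ c ∈ S, a c • (((fun f => f : (ℂˣ →* ℂ) → ℂˣ → ℂ)) ∘ χ) c = 0 := by
    funext t
    simp only [Finset.sum_apply, Pi.smul_apply, Function.comp, smul_eq_mul, Pi.zero_apply, χ,
      MonoidHom.comp_apply, zpowGroupHom_apply, Units.coeHom_apply, Units.val_zpow_eq_zpow_val]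
    rw [← h t t.ne_zero]
    exact Finset.sum_congr rfl fun c _ => mul_comm _ _
  exact linearIndependent_iff'.1 hli2 S a hsum

theorem wcomp_mem {I : Ideal (MvPolynomial ι ℂ)} (hI : I.IsPrime) (v : ι → ℤ)
    (hv : ∀ t : ℂ, t ≠ 0 → ∀ x ∈ cone I, act v t x ∈ cone I) {f : MvPolynomial ι ℂ} (hf : f ∈ I)
    (c : ℤ) : weightedHomogeneousComponent v c f ∈ I := by
  classical
  apply mem_of_cone hI
  intro x hx
  let S : Finset ℤ := f.support.image (Finsupp.weight v)
  by_cases hc : c ∈ S
  · have hfs : f = ∑ c ∈ S, weightedHomogeneousComponent v c f := by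
      ext m
      rw [coeff_sum]
      simp only [coeff_weightedHomogeneousComponent]
      by_cases hm : m ∈ f.support
      · rw [Finset.sum_eq_single (Finsupp.weight v m)]
        · simp
        · intro b _ hb; simp [Ne.symm hb]
        · intro h; exact absurd (Finset.mem_image_of_mem _ hm) h
      · rw [notMem_support_iff.1 hm]; simp
    refine laurent_zero S (fun c => eval x (weightedHomogeneousComponent v c f)) ?_ c hc
    intro t ht
    have h1 := hv t ht x hx f hf
    rw [hfs, map_sum] at h1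
    rw [← h1]
    refine Finset.sum_congr rfl fun c _ => ?_
    rw [eval_act v (weightedHomogeneousComponent_isWeightedHomogeneous c f) ht]
  · have : weightedHomogeneousComponent v c f = 0 := by
      rw [weightedHomogeneousComponent_apply]
      apply Finset.sum_eq_zero
      intro d hd
      rw [Finset.mem_filter] at hd
      exact absurd (Finset.mem_image.2 ⟨d, hd.1, hd.2⟩) hc
    rw [this, map_zero]

/-- a nonzero value forces a monomial supported on the support of the point. -/
theorem exists_monomial {f : MvPolynomial ι ℂ} {x : ι → ℂ} (h : eval x f ≠ 0) :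
    ∃ m ∈ f.support, ∀ i, m i ≠ 0 → x i ≠ 0 := by
  by_contra hc
  push Not at hc
  apply h
  rw [eval_eq']
  apply Finset.sum_eq_zero
  intro m hm
  obtain ⟨i, hi, hxi⟩ := hc m hm
  rw [Finset.prod_eq_zero (Finset.mem_univ i), mul_zero]
  rw [hxi, zero_pow hi]

theorem eval_eq_zero_of_weight {v : ι → ℤ} {c : ℤ} {f : MvPolynomial ι ℂ}
    (hf : IsWeightedHomogeneous v f c) {x : ι → ℂ} (hx : ∀ i, x i ≠ 0 → v i = 0) (hc : c ≠ 0) :
    eval x f = 0 := by
  by_contra h
  obtain ⟨m, hm, hmx⟩ := exists_monomial h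
  have hw := hf (mem_support_iff.1 hm)
  rw [weight_eq] at hw
  apply hc
  rw [← hw]
  apply Finset.sum_eq_zero
  intro i _
  by_cases hi : m i = 0
  · simp [hi]
  · rw [hx i (hmx i hi), mul_zero]

theorem eval_eq_zero_of_neg {v : ι → ℤ} {c : ℤ} {f : MvPolynomial ι ℂ}
    (hf : IsWeightedHomogeneous v f c) {x : ι → ℂ} (hx : ∀ i, x i ≠ 0 → 0 ≤ v i) (hc : c < 0) :
    eval x f = 0 := by
  by_contra h
  obtain ⟨m, hm, hmx⟩ := exists_monomial h
  have hw := hf (mem_support_iff.1 hm)
  rw [weight_eq] at hw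
  have : 0 ≤ ∑ i, (m i : ℤ) * v i := by
    apply Finset.sum_nonneg
    intro i _
    by_cases hi : m i = 0
    · simp [hi]
    · exact mul_nonneg (Int.natCast_nonneg _) (hx i (hmx i hi))
  omega

/-- degree bound on a line. -/
theorem natDegree_ln_lt {v : ι → ℤ} {c θ : ℤ} {f : MvPolynomial ι ℂ}
    (hf : IsWeightedHomogeneous v f c) {a u : ι → ℂ} (ha : ∀ i, a i ≠ 0 → 0 ≤ v i)
    (hu : ∀ i, u i ≠ 0 → θ ≤ v i) (hθ : 0 < θ) {k : ℕ} (hk : 0 < k) (hc : c < θ * k) :
    (ln a u f).natDegree < k := by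
  rw [Nat.lt_iff_le_pred hk]
  have h0 : ln a u f = ∑ m ∈ f.support, Polynomial.C (coeff m f) *
      ∏ i, (Polynomial.C (a i) + Polynomial.C (u i) * Polynomial.X) ^ m i := by
    conv_lhs => rw [ln, aeval_def, eval₂_eq']
    rfl
  rw [h0]
  apply Polynomial.natDegree_sum_le_of_forall_le
  intro m hm
  have hw := hf (mem_support_iff.1 hm)
  rw [weight_eq] at hw
  by_cases hz : ∃ i, m i ≠ 0 ∧ a i = 0 ∧ u i = 0
  · obtain ⟨i, hi, hai, hui⟩ := hz
    have : ∏ i, (Polynomial.C (a i) + Polynomial.C (u i) * Polynomial.X) ^ m i = 0 := by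
      apply Finset.prod_eq_zero (Finset.mem_univ i)
      simp [hai, hui, hi]
    rw [this]; simp
  · push Not at hz
    have h1 : (∏ i, (Polynomial.C (a i) + Polynomial.C (u i) * Polynomial.X) ^ m i).natDegree ≤
        ∑ i, if u i = 0 then 0 else m i := by
      refine (Polynomial.natDegree_prod_le _ _).trans (Finset.sum_le_sum fun i _ => ?_)
      refine Polynomial.natDegree_pow_le.trans ?_
      by_cases hui : u i = 0
      · simp [hui]
      · rw [if_neg hui]
        have : (Polynomial.C (a i) + Polynomial.C (u i) * Polynomial.X).natDegree ≤ 1 := by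
          rw [add_comm]; exact Polynomial.natDegree_linear_le
        calc m i * _ ≤ m i * 1 := Nat.mul_le_mul_left _ this
          _ = m i := mul_one _
    have h2 : θ * ((∑ i, if u i = 0 then 0 else m i : ℕ) : ℤ) ≤ c := by
      rw [← hw, Nat.cast_sum, Finset.mul_sum]
      refine Finset.sum_le_sum fun i _ => ?_
      by_cases hui : u i = 0
      · rw [if_pos hui]
        by_cases hi : m i = 0
        · simp [hi]
        · have := ha i (fun e => hz i hi e hui)
          simp only [Nat.cast_zero, mul_zero]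
          positivity
      · rw [if_neg hui, mul_comm]
        exact mul_le_mul_of_nonneg_left (hu i hui) (Int.natCast_nonneg _)
    have h3 : ((∑ i, if u i = 0 then 0 else m i : ℕ) : ℤ) < k := by
      by_contra hcon
      push Not at hcon
      have : θ * (k : ℤ) ≤ θ * ((∑ i, if u i = 0 then 0 else m i : ℕ) : ℤ) :=
        mul_le_mul_of_nonneg_left hcon hθ.le
      omega
    have h4 : (∑ i, if u i = 0 then 0 else m i) < k := by exact_mod_cast h3
    refine (Polynomial.natDegree_C_mul_le _ _).trans (h1.trans ?_)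
    exact Nat.le_pred_of_lt h4

theorem eval_line_const {v : ι → ℤ} {c θ : ℤ} {f : MvPolynomial ι ℂ}
    (hf : IsWeightedHomogeneous v f c) {a u : ι → ℂ} (ha : ∀ i, a i ≠ 0 → 0 ≤ v i)
    (hu : ∀ i, u i ≠ 0 → θ ≤ v i) (hθ : 0 < θ) (hc : c < θ) (t : ℂ) :
    eval (a + t • u) f = eval a f := by
  have h := natDegree_ln_lt hf ha hu hθ (k := 1) one_pos (by simpa using hc)
  rw [← eval_ln, Polynomial.eq_C_of_natDegree_eq_zero (by omega : (ln a u f).natDegree = 0),
    Polynomial.eval_C, coeff_zero_ln]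

theorem eval_line_affine {v : ι → ℤ} {c θ : ℤ} {f : MvPolynomial ι ℂ}
    (hf : IsWeightedHomogeneous v f c) {a u : ι → ℂ} (ha : ∀ i, a i ≠ 0 → 0 ≤ v i)
    (hu : ∀ i, u i ≠ 0 → θ ≤ v i) (hθ : 0 < θ) (hc : c < θ * 2) (t : ℂ) :
    eval (a + t • u) f = eval a f + t * (dif f a ⬝ᵥ u) := by
  have h := natDegree_ln_lt hf ha hu hθ (k := 2) two_pos (by simpa using hc)
  rw [← eval_ln, Polynomial.eq_X_add_C_of_natDegree_le_one (by omega : (ln a u f).natDegree ≤ 1)]
  simp [coeff_zero_ln, coeff_one_ln]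
  ring

/-- the vector `Hess f(p)(u, ·)`. -/
noncomputable def hess (f : MvPolynomial ι ℂ) (p u : ι → ℂ) : ι → ℂ :=
  fun l => dif (pderiv l f) p ⬝ᵥ u

theorem dif_support {v : ι → ℤ} {c : ℤ} {f : MvPolynomial ι ℂ}
    (hf : IsWeightedHomogeneous v f c) {x : ι → ℂ} (hx : ∀ i, x i ≠ 0 → v i = 0) {i : ι}
    (h : dif f x i ≠ 0) : v i = c := by
  by_contra hne
  apply h
  exact eval_eq_zero_of_weight (hf.pderiv (n' := c - v i) (by ring)) hx (by omega)

theorem hess_support {v : ι → ℤ} {c : ℤ} {f : MvPolynomial ι ℂ}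
    (hf : IsWeightedHomogeneous v f c) {x : ι → ℂ} (hx : ∀ i, x i ≠ 0 → v i = 0) {u : ι → ℂ}
    {l : ι} (h : hess f x u l ≠ 0) : ∃ k, u k ≠ 0 ∧ v k + v l = c := by
  rw [hess, dotProduct] at h
  obtain ⟨k, -, hk⟩ := Finset.exists_ne_zero_of_sum_ne_zero h
  refine ⟨k, right_ne_zero_of_mul hk, ?_⟩
  have := dif_support (hf.pderiv (n' := c - v l) (by ring)) hx (left_ne_zero_of_mul hk)
  omega

theorem hess_add_right (f : MvPolynomial ι ℂ) (p u u' : ι → ℂ) :
    hess f p (u + u') = hess f p u + hess f p u' := by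
  funext l; simp [hess, dotProduct_add]

theorem hess_smul_right (f : MvPolynomial ι ℂ) (p : ι → ℂ) (c : ℂ) (u : ι → ℂ) :
    hess f p (c • u) = c • hess f p u := by
  funext l; simp [hess, dotProduct_smul]

/-- homogeneous frames at a fixed point. -/
theorem exists_wframe {I : Ideal (MvPolynomial ι ℂ)} {r : ℕ} (hI : Smooth I r) {v : ι → ℤ}
    (hv : ∀ t : ℂ, t ≠ 0 → ∀ x ∈ cone I, act v t x ∈ cone I) {p : ι → ℂ}
    (hp : p ∈ cone I) (hp0 : p ≠ 0) :
    ∃ g : Fin r → MvPolynomial ι ℂ, ∃ c : Fin r → ℤ, (∀ i, g i ∈ I) ∧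
      (∀ i, ∃ d, (g i).IsHomogeneous d) ∧ (∀ i, IsWeightedHomogeneous v (g i) (c i)) ∧
      LinearIndependent ℂ (fun i => dif (g i) p) := by
  let s : Set (ι → ℂ) := {y | ∃ f ∈ I, (∃ d, f.IsHomogeneous d) ∧
    (∃ c, IsWeightedHomogeneous v f c) ∧ dif f p = y}
  have hs : Submodule.span ℂ s = N I p := by
    apply le_antisymm
    · rw [Submodule.span_le]
      rintro _ ⟨f, hf, -, -, rfl⟩
      exact mem_N.2 ⟨f, hf, rfl⟩
    · intro y hy
      obtain ⟨f, hf, rfl⟩ := mem_N.1 hy
      have h1 : dif f p = ∑ d ∈ Finset.range (f.totalDegree + 1),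
          dif (homogeneousComponent d f) p := by
        rw [← dif_sum, sum_homogeneousComponent]
      rw [h1]
      refine Submodule.sum_mem _ fun d _ => ?_
      have hfd := hI.homog f hf d
      set g := homogeneousComponent d f with hg
      have hgd : g.IsHomogeneous d := homogeneousComponent_isHomogeneous d f
      have h2 : g = ∑ c ∈ g.support.image (Finsupp.weight v), weightedHomogeneousComponent v c g := by
        classical
        ext m
        rw [coeff_sum]
        simp only [coeff_weightedHomogeneousComponent]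
        by_cases hm : m ∈ g.support
        · rw [Finset.sum_eq_single (Finsupp.weight v m)]
          · simp
          · intro b _ hb; simp [Ne.symm hb]
          · intro h; exact absurd (Finset.mem_image_of_mem _ hm) h
        · rw [notMem_support_iff.1 hm]; simp
      rw [h2, dif_sum]
      refine Submodule.sum_mem _ fun c _ => Submodule.subset_span ?_
      refine ⟨_, wcomp_mem hI.prime v hv hfd c, ⟨d, ?_⟩,
        ⟨c, weightedHomogeneousComponent_isWeightedHomogeneous c g⟩, rfl⟩
      intro m hm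
      classical
      rw [coeff_weightedHomogeneousComponent] at hm
      apply hgd
      intro h0
      apply hm
      rw [h0, ite_self]
  have hr : Module.finrank ℂ (Submodule.span ℂ s) = r := by rw [hs]; exact hI.rank p hp hp0
  obtain ⟨b, hb1, hb3⟩ : ∃ b : Fin r → ι → ℂ, (∀ i, b i ∈ s) ∧ LinearIndependent ℂ b := by
    have h := Submodule.exists_fun_fin_finrank_span_eq ℂ s
    rw [hr] at h
    obtain ⟨b, hb1, -, hb3⟩ := h
    exact ⟨b, hb1, hb3⟩
  choose g hg hg2 hg3 hg4 using hb1
  choose c hc using hg3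
  refine ⟨g, c, hg, hg2, hc, ?_⟩
  have : (fun i => dif (g i) p) = b := funext hg4
  rw [this]; exact hb3

end H89.Hart
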