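import Pool.Agent.H89.Hart.Frame

/-! Local equations of a smooth variety. -/

open MvPolynomial

set_option linter.unusedSectionVars false
set_option linter.unusedSimpArgs false

namespace H89.Hart

variable {ι : Type*} [Fintype ι] [DecidableEq ι]

/-- the maximal ideal of a point. -/
noncomputable def mI (p : ι → ℂ) : Ideal (MvPolynomial ι ℂ) := RingHom.ker (eval p)

theorem mem_mI {p : ι → ℂ} {f : MvPolynomial ι ℂ} : f ∈ mI p ↔ eval p f = 0 := RingHom.mem_ker

theorem pderiv_mem_pow (p : ι → ℂ) (i : ι) (k : ℕ) : ∀ f ∈ mI p ^ (k + 1),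
    pderiv i f ∈ mI p ^ k := by
  induction k with
  | zero => intro f _; simp
  | succ k ih =>
    intro f hf
    rw [pow_succ] at hf
    refine Submodule.mul_induction_on hf ?_ ?_
    · intro a ha b hb
      rw [Derivation.leibniz, smul_eq_mul, smul_eq_mul]
      refine Ideal.add_mem _ (Ideal.mul_mem_right _ _ ha) ?_
      rw [pow_succ, mul_comm b]
      exact Ideal.mul_mem_mul (ih a ha) hb
    · intro a b ha hb
      rw [map_add]; exact Ideal.add_mem _ ha hb

/-- Euler operator centred at `p`. -/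
noncomputable def Eu (p : ι → ℂ) (f : MvPolynomial ι ℂ) : MvPolynomial ι ℂ :=
  ∑ i, (X i - C (p i)) * pderiv i f

theorem Eu_add (p : ι → ℂ) (f g : MvPolynomial ι ℂ) : Eu p (f + g) = Eu p f + Eu p g := by
  simp [Eu, mul_add, Finset.sum_add_distrib]

theorem Eu_mul (p : ι → ℂ) (f g : MvPolynomial ι ℂ) :
    Eu p (f * g) = f * Eu p g + g * Eu p f := by
  simp only [Eu, Derivation.leibniz, smul_eq_mul, Finset.mul_sum, ← Finset.sum_add_distrib]
  refine Finset.sum_congr rfl fun i _ => ?_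
  ring

theorem X_sub_mem (p : ι → ℂ) (i : ι) : (X i - C (p i) : MvPolynomial ι ℂ) ∈ mI p := by
  simp [mem_mI]

theorem Eu_mem (p : ι → ℂ) (f : MvPolynomial ι ℂ) : Eu p f ∈ mI p :=
  Ideal.sum_mem _ fun i _ => Ideal.mul_mem_right _ _ (X_sub_mem p i)

theorem Eu_sub_mem (p : ι → ℂ) (f : MvPolynomial ι ℂ) :
    Eu p f - (f - C (eval p f)) ∈ mI p ^ 2 := by
  induction f using MvPolynomial.induction_on with
  | C c => simp [Eu]
  | add f g hf hg =>
    have : Eu p (f + g) - (f + g - C (eval p (f + g))) =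
      (Eu p f - (f - C (eval p f))) + (Eu p g - (g - C (eval p g))) := by
      rw [Eu_add, map_add, C_add]; ring
    rw [this]; exact Ideal.add_mem _ hf hg
  | mul_X f j hf =>
    have hX : Eu p (X j : MvPolynomial ι ℂ) = X j - C (p j) := by
      rw [Eu, Finset.sum_eq_single j]
      · simp
      · intro i _ hi; simp [pderiv_X, Pi.single_apply, hi, Ne.symm hi]
      · simp
    have : Eu p (f * X j) - (f * X j - C (eval p (f * X j))) =
      (X j - C (p j)) * Eu p f + C (p j) * (Eu p f - (f - C (eval p f))) := by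
      rw [Eu_mul, hX, map_mul, eval_X, C_mul]; ring
    rw [this]
    refine Ideal.add_mem _ ?_ (Ideal.mul_mem_left _ _ hf)
    rw [pow_two]; exact Ideal.mul_mem_mul (X_sub_mem p j) (Eu_mem p f)

theorem Eu_pow (p : ι → ℂ) (k : ℕ) : ∀ f ∈ mI p ^ k,
    Eu p f - (k : MvPolynomial ι ℂ) * f ∈ mI p ^ (k + 1) := by
  induction k with
  | zero => intro f _; simpa using Eu_mem p f
  | succ k ih =>
    intro f hf
    rw [pow_succ] at hf
    refine Submodule.mul_induction_on hf ?_ ?_
    · intro a ha b hb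
      have h1 : Eu p b - b ∈ mI p ^ 2 := by
        have := Eu_sub_mem p b
        rw [mem_mI.1 hb, C_0, sub_zero] at this
        exact this
      have : Eu p (a * b) - ((k + 1 : ℕ) : MvPolynomial ι ℂ) * (a * b) =
          a * (Eu p b - b) + (Eu p a - (k : MvPolynomial ι ℂ) * a) * b := by
        rw [Eu_mul]; push_cast; ring
      rw [this]
      refine Ideal.add_mem _ ?_ ?_
      · rw [show k + 1 + 1 = k + 2 from rfl, pow_add]; exact Ideal.mul_mem_mul ha h1
      · rw [pow_succ]; exact Ideal.mul_mem_mul (ih a ha) hb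
    · intro a b ha hb
      have : Eu p (a + b) - ((k + 1 : ℕ) : MvPolynomial ι ℂ) * (a + b) =
          (Eu p a - ((k + 1 : ℕ) : MvPolynomial ι ℂ) * a) +
          (Eu p b - ((k + 1 : ℕ) : MvPolynomial ι ℂ) * b) := by
        rw [Eu_add]; ring
      rw [this]; exact Ideal.add_mem _ ha hb

theorem dd_single (k : ι) (f : MvPolynomial ι ℂ) : dd (Pi.single k 1) f = pderiv k f := by
  rw [dd, Finset.sum_eq_single k]
  · simp
  · intro i _ hi; simp [Pi.single_apply, hi]
  · simp

theorem dd_mem_pow (p v : ι → ℂ) (k : ℕ) (f : MvPolynomial ι ℂ) (hf : f ∈ mI p ^ (k + 1)) :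
    dd v f ∈ mI p ^ k :=
  Ideal.sum_mem _ fun i _ => Ideal.mul_mem_left _ _ (pderiv_mem_pow p i k f hf)

/-- Local equations, abstract form. -/
theorem L0_abs {I : Ideal (MvPolynomial ι ℂ)} {c : ℕ} (g : Fin c → MvPolynomial ι ℂ)
    (hg : ∀ i, g i ∈ I) (l : Fin c → ι → ℂ) {p : ι → ℂ} (hp : p ∈ cone I)
    (hdet : (matAt g l p).det ≠ 0) (hQ : ∀ h ∈ I, ∀ v, Q g l h v ∈ I) {h : MvPolynomial ι ℂ}
    (hh : h ∈ I) : ∃ u, eval p u ≠ 0 ∧ u * h ∈ Ideal.span (Set.range g) := by
  classical
  set J := Ideal.span (Set.range g) with hJ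
  have hJI : J ≤ I := by
    rw [hJ, Ideal.span_le]; rintro _ ⟨i, rfl⟩; exact hg i
  have hIm : I ≤ mI p := fun f hf => mem_mI.2 (hp f hf)
  have hgJ : ∀ i, g i ∈ J := fun i => Ideal.subset_span ⟨i, rfl⟩
  -- the operator
  let cf : MvPolynomial ι ℂ → Fin c → MvPolynomial ι ℂ :=
    fun f i => ∑ j, dd (l j) f * (mat g l).adjugate j i
  have hD : ∀ f, (mat g l).det * Eu p f - ∑ i, cf f i * Eu p (g i) =
      ∑ k, (X k - C (p k)) * Q g l f (Pi.single k 1) := by
    intro f
    simp only [Q, dd_single, mul_sub, Finset.sum_sub_distrib, Eu, Finset.mul_sum, cf]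
    congr 1
    · refine Finset.sum_congr rfl fun k _ => ?_
      ring
    · rw [Finset.sum_comm]
      refine Finset.sum_congr rfl fun k _ => Finset.sum_congr rfl fun i _ => ?_
      ring
  have step : ∀ k : ℕ, ∀ f ∈ I, f ∈ J ⊔ mI p ^ (k + 1) := by
    intro k
    induction k with
    | zero =>
      intro f hf
      rw [zero_add, pow_one]
      exact Ideal.mem_sup_right (hIm hf)
    | succ k ih =>
      intro f hf
      obtain ⟨j, hj, f', hf', rfl⟩ := Submodule.mem_sup.1 (ih f hf)
      have hf'I : f' ∈ I := by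
        have := Ideal.sub_mem I hf (hJI hj)
        simpa using this
      refine Ideal.add_mem _ (Ideal.mem_sup_left hj) ?_
      set M := J ⊔ mI p ^ (k + 1 + 1) with hM
      -- D f' ∈ M
      have h1 : (mat g l).det * Eu p f' - ∑ i, cf f' i * Eu p (g i) ∈ M := by
        rw [hD]
        refine Ideal.sum_mem _ fun i _ => ?_
        obtain ⟨a, ha, b, hb, hab⟩ := Submodule.mem_sup.1 (ih _ (hQ f' hf'I (Pi.single i 1)))
        rw [← hab, mul_add]
        refine Ideal.add_mem _ (Ideal.mem_sup_left (Ideal.mul_mem_left _ _ ha))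
          (Ideal.mem_sup_right ?_)
        rw [pow_succ' (mI p) (k + 1)]
        exact Ideal.mul_mem_mul (X_sub_mem p i) hb
      have h2 : ∀ i, cf f' i * Eu p (g i) ∈ M := by
        intro i
        have hc : cf f' i ∈ mI p ^ k :=
          Ideal.sum_mem _ fun j _ => Ideal.mul_mem_right _ _ (dd_mem_pow p (l j) k f' hf')
        have hE : Eu p (g i) - g i ∈ mI p ^ 2 := by
          have := Eu_sub_mem p (g i)
          rw [mem_mI.1 (hIm (hg i)), C_0, sub_zero] at this
          exact this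
        have : cf f' i * Eu p (g i) = cf f' i * g i + cf f' i * (Eu p (g i) - g i) := by ring
        rw [this]
        refine Ideal.add_mem _ (Ideal.mem_sup_left (Ideal.mul_mem_left _ _ (hgJ i)))
          (Ideal.mem_sup_right ?_)
        rw [show k + 1 + 1 = k + 2 from rfl, pow_add]
        exact Ideal.mul_mem_mul hc hE
      have h3 : (mat g l).det * Eu p f' ∈ M := by
        have := Ideal.add_mem _ h1 (Ideal.sum_mem M fun i (_ : i ∈ Finset.univ) => h2 i)
        simpa using this
      have h4 : (mat g l).det * (((k + 1 : ℕ) : MvPolynomial ι ℂ) * f') ∈ M := by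
        have := Ideal.sub_mem _ h3 (Ideal.mem_sup_right (Ideal.mul_mem_left _ (mat g l).det
          (Eu_pow p (k + 1) f' hf')) : _ ∈ M)
        have e : (mat g l).det * Eu p f' - (mat g l).det * (Eu p f' -
          ((k + 1 : ℕ) : MvPolynomial ι ℂ) * f') = (mat g l).det *
            (((k + 1 : ℕ) : MvPolynomial ι ℂ) * f') := by ring
        rwa [e] at this
      have h5 : ((mat g l).det - C (eval p (mat g l).det)) *
          (((k + 1 : ℕ) : MvPolynomial ι ℂ) * f') ∈ M := by
        refine Ideal.mem_sup_right ?_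
        rw [pow_succ' (mI p) (k + 1)]
        refine Ideal.mul_mem_mul (mem_mI.2 (by simp)) (Ideal.mul_mem_left _ _ hf')
      have h6 : C (eval p (mat g l).det) * (((k + 1 : ℕ) : MvPolynomial ι ℂ) * f') ∈ M := by
        have := Ideal.sub_mem _ h4 h5
        have e : (mat g l).det * (((k + 1 : ℕ) : MvPolynomial ι ℂ) * f') -
          ((mat g l).det - C (eval p (mat g l).det)) * (((k + 1 : ℕ) : MvPolynomial ι ℂ) * f') =
          C (eval p (mat g l).det) * (((k + 1 : ℕ) : MvPolynomial ι ℂ) * f') := by ring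
        rwa [e] at this
      have hne : eval p (mat g l).det * ((k + 1 : ℕ) : ℂ) ≠ 0 := by
        rw [eval_det_mat]
        exact mul_ne_zero hdet (Nat.cast_ne_zero.2 (Nat.succ_ne_zero k))
      have h7 := Ideal.mul_mem_left M (C (eval p (mat g l).det * ((k + 1 : ℕ) : ℂ))⁻¹) h6
      have e7 : (C (eval p (mat g l).det * ((k + 1 : ℕ) : ℂ))⁻¹ : MvPolynomial ι ℂ) *
          (C (eval p (mat g l).det) * (((k + 1 : ℕ) : MvPolynomial ι ℂ) * f')) = f' := by
        have : ((k + 1 : ℕ) : MvPolynomial ι ℂ) = C ((k + 1 : ℕ) : ℂ) := by simp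
        rw [this, ← mul_assoc, ← mul_assoc, ← C_mul, ← C_mul, mul_assoc _ (eval p _),
          inv_mul_cancel₀ hne, C_1, one_mul]
      rwa [e7] at h7
  -- Krull's intersection theorem
  have hmem : (Ideal.Quotient.mk J h) ∈
      (⨅ i : ℕ, mI p ^ i • ⊤ : Submodule (MvPolynomial ι ℂ) (MvPolynomial ι ℂ ⧸ J)) := by
    rw [Submodule.mem_iInf]
    intro i
    rcases i with _ | k
    · simp
    · obtain ⟨j, hj, f', hf', hsum⟩ := Submodule.mem_sup.1 (step k h hh)
      have : Ideal.Quotient.mk J h = f' • (1 : MvPolynomial ι ℂ ⧸ J) := by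
        rw [← hsum, map_add, Ideal.Quotient.eq_zero_iff_mem.2 hj, zero_add]
        change Ideal.Quotient.mk J f' = Ideal.Quotient.mk J (f' * 1)
        rw [mul_one]
      rw [this]
      exact Submodule.smul_mem_smul hf' trivial
  obtain ⟨⟨r, hr⟩, hrh⟩ := (Ideal.mem_iInf_smul_pow_eq_bot_iff (mI p) _).1 hmem
  refine ⟨1 - r, ?_, ?_⟩
  · rw [map_sub, mem_mI.1 hr]; simp
  · rw [← Ideal.Quotient.eq_zero_iff_mem, map_mul, map_sub, map_one, sub_mul, one_mul]
    have : (Ideal.Quotient.mk J r) * (Ideal.Quotient.mk J h) = Ideal.Quotient.mk J h := by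
      rw [← map_mul]; exact hrh
    rw [this, sub_self]

/-- Local equations of a smooth variety. -/
theorem L0 {I : Ideal (MvPolynomial ι ℂ)} {r : ℕ} (hI : Smooth I r)
    (g : Fin r → MvPolynomial ι ℂ) (hg : ∀ i, g i ∈ I) {p : ι → ℂ} (hp : p ∈ cone I)
    (hp0 : p ≠ 0) (hli : LinearIndependent ℂ (fun i => dif (g i) p)) {h : MvPolynomial ι ℂ}
    (hh : h ∈ I) : ∃ u, eval p u ≠ 0 ∧ u * h ∈ Ideal.span (Set.range g) := by
  obtain ⟨l, hl⟩ := exists_dual _ hli
  have hmat : matAt g l p = 1 := by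
    ext i j; rw [matAt, Matrix.of_apply, hl, Matrix.one_apply]
  have hdet : (matAt g l p).det ≠ 0 := by rw [hmat]; simp
  exact L0_abs g hg l hp hdet (fun f hf v => Q_mem hI g hg l hp hp0 hdet hf v) hh

/-- Curves on which local equations vanish lie in the cone. -/
theorem line_mem {I : Ideal (MvPolynomial ι ℂ)} {r : ℕ} (hI : Smooth I r)
    (g : Fin r → MvPolynomial ι ℂ) (hg : ∀ i, g i ∈ I) {p : ι → ℂ} (hp : p ∈ cone I)
    (hp0 : p ≠ 0) (hli : LinearIndependent ℂ (fun i => dif (g i) p)) (u : ι → ℂ)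
    (hz : ∀ i, ∀ t : ℂ, eval (p + t • u) (g i) = 0) (t : ℂ) : p + t • u ∈ cone I := by
  intro h hh
  obtain ⟨q, hq, hqh⟩ := L0 hI g hg hp hp0 hli hh
  have hz' : ∀ i, ln p u (g i) = 0 := fun i => Polynomial.funext fun t => by
    rw [eval_ln, hz, Polynomial.eval_zero]
  have h1 : ln p u (q * h) = 0 := by
    have : Ideal.span (Set.range g) ≤ RingHom.ker (ln p u).toRingHom := by
      rw [Ideal.span_le]; rintro _ ⟨i, rfl⟩; exact RingHom.mem_ker.2 (hz' i)
    exact RingHom.mem_ker.1 (this hqh)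
  rw [map_mul] at h1
  have hq' : ln p u q ≠ 0 := by
    intro h0
    have := eval_ln p u q 0
    rw [h0, zero_smul, add_zero, Polynomial.eval_zero] at this
    exact hq this.symm
  have h2 : ln p u h = 0 := (mul_eq_zero.1 h1).resolve_left hq'
  rw [← eval_ln, h2, Polynomial.eval_zero]

end H89.Hart
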