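import Pool.Agent.H89.Hart.Defs

/-! Basic facts: differentials, cones, conormal spaces, restriction to lines. -/

open MvPolynomial

set_option linter.unusedSectionVars false
set_option linter.unusedSimpArgs false

namespace H89.Hart

variable {ι : Type*} [Fintype ι] [DecidableEq ι]

theorem dif_add (f g : MvPolynomial ι ℂ) (p : ι → ℂ) : dif (f + g) p = dif f p + dif g p := by
  funext i; simp [dif]

theorem dif_sub (f g : MvPolynomial ι ℂ) (p : ι → ℂ) : dif (f - g) p = dif f p - dif g p := by
  funext i; simp [dif]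

theorem dif_zero (p : ι → ℂ) : dif (0 : MvPolynomial ι ℂ) p = 0 := by
  funext i; simp [dif]

theorem dif_smul (c : ℂ) (f : MvPolynomial ι ℂ) (p : ι → ℂ) : dif (c • f) p = c • dif f p := by
  funext i; simp [dif, MvPolynomial.smul_eq_C_mul]

theorem dif_sum {α : Type*} (s : Finset α) (f : α → MvPolynomial ι ℂ) (p : ι → ℂ) :
    dif (∑ a ∈ s, f a) p = ∑ a ∈ s, dif (f a) p := by
  classical
  induction s using Finset.induction_on with
  | empty => simp [dif_zero]
  | insert a s ha ih => rw [Finset.sum_insert ha, Finset.sum_insert ha, dif_add, ih]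

theorem dif_mul (f g : MvPolynomial ι ℂ) (p : ι → ℂ) :
    dif (f * g) p = eval p f • dif g p + eval p g • dif f p := by
  funext i; simp [dif]

theorem dif_X (i : ι) (p : ι → ℂ) : dif (X i : MvPolynomial ι ℂ) p = Pi.single i 1 := by
  funext j
  by_cases h : j = i
  · subst h; simp [dif]
  · simp [dif, pderiv_X, Pi.single_apply, h, Ne.symm h]

theorem cone_anti {I J : Ideal (MvPolynomial ι ℂ)} (h : I ≤ J) : cone J ⊆ cone I :=
  fun _ hx f hf => hx f (h hf)

theorem isClosed_cone (I : Ideal (MvPolynomial ι ℂ)) : IsClosed (cone I) := by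
  have : cone I = ⋂ f ∈ I, {x | eval x f = 0} := by ext x; simp [cone]
  rw [this]
  refine isClosed_biInter fun f _ => ?_
  exact isClosed_eq (MvPolynomial.continuous_eval f) continuous_const

/-- Nullstellensatz for a prime ideal. -/
theorem mem_of_cone {P : Ideal (MvPolynomial ι ℂ)} (hP : P.IsPrime) {f : MvPolynomial ι ℂ}
    (hf : ∀ x ∈ cone P, eval x f = 0) : f ∈ P := by
  have h := MvPolynomial.IsPrime.vanishingIdeal_zeroLocus P (K := ℂ) (h := hP)
  rw [← h, mem_vanishingIdeal_iff]
  intro x hx
  have : x ∈ cone P := fun g hg => by simpa [aeval_eq_eval] using hx g hg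
  simpa [aeval_eq_eval] using hf x this

/-- restriction of a polynomial to the line `a + t u`. -/
noncomputable def ln (a u : ι → ℂ) : MvPolynomial ι ℂ →ₐ[ℂ] Polynomial ℂ :=
  aeval (fun i => Polynomial.C (a i) + Polynomial.C (u i) * Polynomial.X)

theorem eval_ln (a u : ι → ℂ) (f : MvPolynomial ι ℂ) (t : ℂ) :
    (ln a u f).eval t = eval (a + t • u) f := by
  have : ((Polynomial.aeval t : Polynomial ℂ →ₐ[ℂ] ℂ).comp (ln a u)) =
      (aeval (a + t • u) : MvPolynomial ι ℂ →ₐ[ℂ] ℂ) := by
    apply MvPolynomial.algHom_ext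
    intro i
    simp only [ln, AlgHom.comp_apply, aeval_X, Polynomial.aeval_def, Polynomial.eval₂_add,
      Polynomial.eval₂_mul, Polynomial.eval₂_C, Polynomial.eval₂_X, Pi.add_apply, Pi.smul_apply,
      smul_eq_mul, Algebra.algebraMap_self, RingHom.id_apply]
    ring
  have h2 := congrArg (fun φ => φ f) this
  simpa [aeval_eq_eval, Polynomial.aeval_def] using h2

theorem derivative_ln (a u : ι → ℂ) (f : MvPolynomial ι ℂ) :
    (ln a u f).derivative = ∑ i, Polynomial.C (u i) * ln a u (pderiv i f) := by
  induction f using MvPolynomial.induction_on with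
  | C c => simp [ln]
  | add p q hp hq =>
    rw [map_add, Polynomial.derivative_add, hp, hq, ← Finset.sum_add_distrib]
    refine Finset.sum_congr rfl fun i _ => ?_
    rw [map_add, map_add, mul_add]
  | mul_X p j hp =>
    rw [map_mul, Polynomial.derivative_mul, hp]
    have h1 : (ln a u (X j : MvPolynomial ι ℂ)).derivative = Polynomial.C (u j) := by
      simp [ln]
    rw [h1]
    have h2 : ∀ i, Polynomial.C (u i) * ln a u (pderiv i (p * X j)) =
        (Polynomial.C (u i) * ln a u (pderiv i p)) * ln a u (X j) +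
        (if i = j then Polynomial.C (u j) * ln a u p else 0) := by
      intro i
      rw [Derivation.leibniz, pderiv_X]
      by_cases h : i = j
      · subst h; simp [Pi.single_apply, map_add, map_mul]; ring
      · have h' : ¬ j = i := fun e => h e.symm
        simp [h, h', Pi.single_apply, map_mul]; ring
    rw [Finset.sum_congr rfl (fun i _ => h2 i), Finset.sum_add_distrib, Finset.sum_mul]
    simp [mul_comm]

/-- the derivative of `f` along a line. -/
theorem eval_derivative_ln (a u : ι → ℂ) (f : MvPolynomial ι ℂ) (t : ℂ) :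
    (ln a u f).derivative.eval t = dif f (a + t • u) ⬝ᵥ u := by
  rw [derivative_ln, Polynomial.eval_finsetSum]
  simp only [Polynomial.eval_mul, Polynomial.eval_C, eval_ln, dotProduct, dif]
  refine Finset.sum_congr rfl fun i _ => mul_comm _ _

theorem coeff_one_ln (a u : ι → ℂ) (f : MvPolynomial ι ℂ) :
    (ln a u f).coeff 1 = dif f a ⬝ᵥ u := by
  have := eval_derivative_ln a u f 0
  rw [zero_smul, add_zero] at this
  rw [← this, ← Polynomial.coeff_zero_eq_eval_zero, Polynomial.coeff_derivative]
  simp

theorem coeff_zero_ln (a u : ι → ℂ) (f : MvPolynomial ι ℂ) :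
    (ln a u f).coeff 0 = eval a f := by
  have := eval_ln a u f 0
  rw [zero_smul, add_zero] at this
  rw [← this, ← Polynomial.coeff_zero_eq_eval_zero]

theorem continuous_dif (f : MvPolynomial ι ℂ) : Continuous (dif f) :=
  continuous_pi fun i => MvPolynomial.continuous_eval (pderiv i f)

end H89.Hart
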