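import Pool.Agent.H89.Hart.LemmaU

/-! Case A: a large weight space in the middle. -/

open MvPolynomial Filter Topology

set_option linter.unusedSectionVars false
set_option linter.unusedSimpArgs false

namespace H89.Hart

variable {ι : Type*} [Fintype ι] [DecidableEq ι]

/-- A frame of weight zero at a point of the middle fixed locus. -/
structure MidFrame (I : Ideal (MvPolynomial ι ℂ)) (r : ℕ) (w : ι → ℤ) (D : ℤ) (p : ι → ℂ)
    (g : Fin r → MvPolynomial ι ℂ) : Prop where
  setup : Setup I r w D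
  mem : p ∈ cone I
  ne : p ≠ 0
  supp : ∀ i, p i ≠ 0 → w i = 0
  gI : ∀ i, g i ∈ I
  gw : ∀ i, IsWeightedHomogeneous w (g i) 0
  li : LinearIndependent ℂ (fun i => dif (g i) p)

theorem exists_midFrame {I : Ideal (MvPolynomial ι ℂ)} {r : ℕ} {w : ι → ℤ} {D : ℤ}
    (S : Setup I r w D) {p : ι → ℂ} (hp : p ∈ cone I) (hp0 : p ≠ 0)
    (hs : ∀ i, p i ≠ 0 → w i = 0) (hN : ∀ s ∈ N I p, ∀ i, s i ≠ 0 → w i = 0) :
    ∃ g, MidFrame I r w D p g := by
  obtain ⟨g, c, h1, -, h2, h3⟩ := exists_wframe S.smooth S.stab hp hp0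
  refine ⟨g, S, hp, hp0, hs, h1, fun i => ?_, h3⟩
  obtain ⟨l, hl⟩ : ∃ l, dif (g i) p l ≠ 0 := by
    by_contra hc; push Not at hc; exact h3.ne_zero i (funext hc)
  have h4 := dif_support (h2 i) hs hl
  have h5 := hN _ (mem_N.2 ⟨g i, h1 i, rfl⟩) l hl
  have : c i = 0 := by omega
  rw [← this]; exact h2 i

section mid

variable {I : Ideal (MvPolynomial ι ℂ)} {r : ℕ} {w : ι → ℤ} {D : ℤ} {p : ι → ℂ}
  {g : Fin r → MvPolynomial ι ℂ}

theorem MidFrame.line (F : MidFrame I r w D p g) {b : ι → ℂ} (hb : ∀ i, b i ≠ 0 → w i = D)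
    (t : ℂ) : p + t • b ∈ cone I := by
  have hD := F.setup.hD
  refine line_mem F.setup.smooth g F.gI F.mem F.ne F.li b (fun i t => ?_) t
  rw [eval_line_const (F.gw i) (θ := D) (fun j hj => (F.supp j hj).ge)
    (fun j hj => (hb j hj).ge) hD hD, F.mem _ (F.gI i)]

theorem MidFrame.dif_line (F : MidFrame I r w D p g) {b : ι → ℂ} (hb : ∀ i, b i ≠ 0 → w i = D)
    (i : Fin r) (t : ℂ) : dif (g i) (p + t • b) = dif (g i) p + t • hess (g i) p b := by
  have hD := F.setup.hD
  funext l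
  have h1 : IsWeightedHomogeneous w (pderiv l (g i)) (0 - w l) := (F.gw i).pderiv (by ring)
  have h2 := eval_line_affine h1 (θ := D) (a := p) (u := b)
    (fun j hj => (F.supp j hj).ge) (fun j hj => (hb j hj).ge) hD
    (by have := F.setup.ge l; omega) t
  simpa [dif, hess] using h2

theorem MidFrame.mem_N_line (F : MidFrame I r w D p g) {b : ι → ℂ}
    (hb : ∀ i, b i ≠ 0 → w i = D) (z : Fin r → ℂ) (t : ℂ) :
    sz g p z + t • bet g p z b ∈ N I (p + t • b) := by
  have : sz g p z + t • bet g p z b = ∑ i, z i • dif (g i) (p + t • b) := by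
    simp only [F.dif_line hb, sz, bet_apply, smul_add, Finset.sum_add_distrib, Finset.smul_sum,
      smul_smul, mul_comm]
  rw [this]
  exact Submodule.sum_mem _ fun i _ => Submodule.smul_mem _ _ (mem_N.2 ⟨_, F.gI i, rfl⟩)

theorem MidFrame.mem_N_line' (F : MidFrame I r w D p g) {b : ι → ℂ}
    (hb : ∀ i, b i ≠ 0 → w i = D) (z : Fin r → ℂ) {τ : ℂ} (hτ : τ ≠ 0) :
    τ • sz g p z + bet g p z b ∈ N I (τ • p + b) := by
  have h1 := F.mem_N_line hb z τ⁻¹
  have h2 := N_smul F.setup.smooth hτ (Submodule.smul_mem _ τ h1)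
  have e1 : τ • (p + τ⁻¹ • b) = τ • p + b := by
    rw [smul_add, smul_smul, mul_inv_cancel₀ hτ, one_smul]
  have e2 : τ • (sz g p z + τ⁻¹ • bet g p z b) = τ • sz g p z + bet g p z b := by
    rw [smul_add, smul_smul, mul_inv_cancel₀ hτ, one_smul]
  rwa [e1, e2] at h2

theorem MidFrame.line' (F : MidFrame I r w D p g) {b : ι → ℂ} (hb : ∀ i, b i ≠ 0 → w i = D)
    {τ : ℂ} (hτ : τ ≠ 0) : τ • p + b ∈ cone I := by
  have h2 := smul_mem_cone F.setup.smooth (F.line hb τ⁻¹) τ
  have e1 : τ • (p + τ⁻¹ • b) = τ • p + b := by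
    rw [smul_add, smul_smul, mul_inv_cancel₀ hτ, one_smul]
  rwa [e1] at h2

theorem MidFrame.bet_mem (F : MidFrame I r w D p g) {b : ι → ℂ} (hb : ∀ i, b i ≠ 0 → w i = D)
    (hb0 : b ≠ 0) (z : Fin r → ℂ) : b ∈ cone I ∧ bet g p z b ∈ N I b :=
  mem_N_of_tendsto F.setup.smooth hb0 (tendsto_smul_add p b)
    (tendsto_smul_add (sz g p z) (bet g p z b)) (by
      filter_upwards [self_mem_nhdsWithin] with τ hτ
      exact ⟨F.line' hb hτ, F.mem_N_line' hb z hτ⟩)

theorem MidFrame.sz_mem (F : MidFrame I r w D p g) {b : ι → ℂ} (hb : ∀ i, b i ≠ 0 → w i = D)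
    (hb0 : b ≠ 0) {z : Fin r → ℂ} (hz : bet g p z b = 0) : sz g p z ∈ N I b := by
  refine (mem_N_of_tendsto F.setup.smooth hb0 (tendsto_smul_add p b) tendsto_const_nhds ?_).2
  filter_upwards [self_mem_nhdsWithin] with τ hτ
  refine ⟨F.line' hb hτ, ?_⟩
  have h := F.mem_N_line' hb z hτ
  rw [hz, add_zero] at h
  have := Submodule.smul_mem _ τ⁻¹ h
  rwa [smul_smul, inv_mul_cancel₀ hτ, one_smul] at this

theorem MidFrame.sz_ne (F : MidFrame I r w D p g) {z : Fin r → ℂ} (hz : z ≠ 0) :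
    sz g p z ≠ 0 := fun h =>
  hz (funext (Fintype.linearIndependent_iff.1 F.li z h))

theorem MidFrame.sz_supp (F : MidFrame I r w D p g) {z : Fin r → ℂ} {l : ι}
    (hl : sz g p z l ≠ 0) : w l = 0 := by
  rw [sz, Finset.sum_apply] at hl
  obtain ⟨i, -, hi⟩ := Finset.exists_ne_zero_of_sum_ne_zero hl
  have h1 : dif (g i) p l ≠ 0 := by
    intro h; apply hi; simp [h]
  exact dif_support (F.gw i) F.supp h1

theorem MidFrame.bet_supp (F : MidFrame I r w D p g) {b : ι → ℂ} (hb : ∀ i, b i ≠ 0 → w i = D)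
    {z : Fin r → ℂ} {l : ι} (hl : bet g p z b l ≠ 0) : -w l = D := by
  obtain ⟨i, k, hk, hkl⟩ := bet_support (c := fun _ => 0) F.gw F.supp hl
  have := hb k hk
  omega

theorem MidFrame.N_cap (F : MidFrame I r w D p g) {b : ι → ℂ} (hb : ∀ i, b i ≠ 0 → w i = D)
    (hb0 : b ≠ 0) {s : ι → ℂ} (hs : s ∈ N I b) (hs0 : ∀ i, s i ≠ 0 → w i = 0) : s ∈ N I p := by
  have hD := F.setup.hD
  let A : (Fin r → ℂ) →ₗ[ℂ] (ι → ℂ) := Fintype.linearCombination ℂ (fun i => dif (g i) p)
  have hA : ∀ z, A z = sz g p z := fun z => by simp [A, sz, Fintype.linearCombination_apply]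
  let B : (Fin r → ℂ) →ₗ[ℂ] (ι → ℂ) := (bet g p).flip b
  have hB : ∀ z, B z = bet g p z b := fun z => rfl
  have hAinj : Function.Injective A := by
    rw [← LinearMap.ker_eq_bot, LinearMap.ker_eq_bot']
    intro z hz
    by_contra h
    exact F.sz_ne h (by rw [← hA, hz])
  set K := LinearMap.ker B with hK
  have hle : K.map A ⊔ LinearMap.range B ≤ N I b := by
    refine sup_le ?_ ?_
    · rintro _ ⟨z, hz, rfl⟩
      rw [hA]
      exact F.sz_mem hb hb0 (LinearMap.mem_ker.1 hz)
    · rintro _ ⟨z, rfl⟩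
      exact (F.bet_mem hb hb0 z).2
  have hdisj : K.map A ⊓ LinearMap.range B = ⊥ := by
    rw [Submodule.eq_bot_iff]
    rintro x ⟨⟨z, -, hz⟩, ⟨z', hz'⟩⟩
    funext l
    by_contra hl
    have h1 : w l = 0 := by
      rw [← hz, hA] at hl; exact F.sz_supp hl
    have h2 : -w l = D := by
      rw [← hz', hB] at hl; exact F.bet_supp hb hl
    omega
  have hfin : Module.finrank ℂ (K.map A ⊔ LinearMap.range B : Submodule ℂ (ι → ℂ)) = r := by
    have h1 := Submodule.finrank_sup_add_finrank_inf_eq (K.map A) (LinearMap.range B)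
    rw [hdisj, finrank_bot, add_zero] at h1
    have h2 := (Submodule.equivMapOfInjective A hAinj K).finrank_eq
    have h3 := LinearMap.finrank_range_add_finrank_ker B
    rw [← hK, Module.finrank_fintype_fun_eq_card, Fintype.card_fin] at h3
    omega
  have heq : K.map A ⊔ LinearMap.range B = N I b :=
    Submodule.eq_of_le_of_finrank_eq hle
      (by rw [hfin, F.setup.smooth.rank b (F.bet_mem hb hb0 0).1 hb0])
  rw [← heq] at hs
  obtain ⟨_, ⟨z, -, rfl⟩, _, ⟨z', rfl⟩, hsum⟩ := Submodule.mem_sup.1 hs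
  have hB0 : B z' = 0 := by
    funext l
    by_contra hl
    have h2 : -w l = D := by rw [hB] at hl; exact F.bet_supp hb hl
    have h3 : s l = 0 := by
      by_contra h; have := hs0 l h; omega
    have h4 : A z l = 0 := by
      by_contra h; rw [hA] at h; have := F.sz_supp h; omega
    have h5 := congrFun hsum l
    rw [Pi.add_apply, h3, h4, zero_add] at h5
    exact hl h5
  rw [hB0, add_zero, hA] at hsum
  rw [← hsum]
  exact Submodule.sum_mem _ fun i _ => Submodule.smul_mem _ _ (mem_N.2 ⟨_, F.gI i, rfl⟩)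

/-- (a4) nondegeneracy in Case A. -/
theorem MidFrame.nondeg (F : MidFrame I r w D p g)
    (hN : ∀ q ∈ cone I, q ≠ 0 → (∀ i, q i ≠ 0 → w i = 0) → ∀ s ∈ N I q, ∀ i, s i ≠ 0 → w i = 0)
    (h0 : r + 2 ≤ Fintype.card {i // w i = 0}) {b : ι → ℂ} (hb : ∀ i, b i ≠ 0 → w i = D)
    (hb0 : b ≠ 0) {z : Fin r → ℂ} (hz : z ≠ 0) : bet g p z b ≠ 0 := by
  intro hzb
  have S := F.setup
  set s := sz g p z with hs
  have hs0 : s ≠ 0 := F.sz_ne hz
  have hsw : ∀ i, s i ≠ 0 → w i = 0 := fun i hi => F.sz_supp hi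
  have hsb : s ∈ N I b := F.sz_mem hb hb0 hzb
  -- the fixed locus lies in the hyperplane
  have hfix : ∀ q ∈ cone I, (∀ i, q i ≠ 0 → w i = 0) → s ⬝ᵥ q = 0 := by
    intro q hq hqw
    by_cases hq0 : q = 0
    · rw [hq0, dotProduct_zero]
    · obtain ⟨g', F'⟩ := exists_midFrame S hq hq0 hqw (hN q hq hq0 hqw)
      exact dot_self S.smooth hq (F'.N_cap hb hb0 hsb hsw)
  obtain ⟨y, hy, hsy⟩ : ∃ y ∈ cone I, s ⬝ᵥ y ≠ 0 := by
    by_contra hc
    push Not at hc
    exact hs0 (S.nd s hc)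
  have hy0 : y ≠ 0 := by rintro rfl; simp at hsy
  obtain ⟨l₀, hl₀⟩ : ∃ l, s l ≠ 0 := by
    by_contra hc; push Not at hc; exact hs0 (funext hc)
  have hwl₀ := hsw l₀ hl₀
  set V0 : Submodule ℂ (ι → ℂ) := V (fun i => w i = 0) with hV0
  have hV0fin : Module.finrank ℂ V0 = Fintype.card {i // w i = 0} := finrank_V _
  set H := cut V0 (fun _ : Fin 1 => s) with hH
  have hHmem : ∀ x, x ∈ H ↔ (∀ i, x i ≠ 0 → w i = 0) ∧ s ⬝ᵥ x = 0 := fun x =>
    ⟨fun h => ⟨h.1, h.2 0⟩, fun h => ⟨h.1, fun _ => h.2⟩⟩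
  have hHfin := finrank_cut V0 (fun _ : Fin 1 => s)
  rw [← hH] at hHfin
  have hHlt : Module.finrank ℂ H < Module.finrank ℂ V0 := by
    apply Submodule.finrank_lt_finrank_of_lt
    refine lt_of_le_of_ne (fun x hx => hx.1) ?_
    intro he
    have h1 : (Pi.single l₀ 1 : ι → ℂ) ∈ V0 := by
      intro i hi
      by_cases hil : i = l₀
      · rw [hil]; exact hwl₀
      · simp [Pi.single_apply, hil] at hi
    rw [← he, hHmem, dotProduct_single, mul_one] at h1
    exact hl₀ h1.2
  set M := H ⊔ Submodule.span ℂ {y} with hM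
  have hyM : y ∈ M := Submodule.mem_sup_right (Submodule.mem_span_singleton_self y)
  have hMfin : Module.finrank ℂ M = Module.finrank ℂ H + 1 := by
    have h1 := Submodule.finrank_sup_add_finrank_inf_eq H (Submodule.span ℂ {y})
    have h2 : H ⊓ Submodule.span ℂ {y} = ⊥ := by
      rw [Submodule.eq_bot_iff]
      rintro x ⟨hx1, hx2⟩
      obtain ⟨c, rfl⟩ := Submodule.mem_span_singleton.1 hx2
      have := ((hHmem _).1 hx1).2
      rw [dotProduct_smul, smul_eq_mul] at this
      rcases mul_eq_zero.1 this with h | h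
      · rw [h, zero_smul]
      · exact absurd h hsy
    rw [h2, finrank_bot, add_zero, finrank_span_singleton hy0] at h1
    exact h1
  have hMH : ∀ x ∈ M, s ⬝ᵥ x = 0 → x ∈ H := by
    intro x hx hsx
    obtain ⟨h, hh, c, hc, rfl⟩ := Submodule.mem_sup.1 hx
    obtain ⟨c, rfl⟩ := Submodule.mem_span_singleton.1 hc
    rw [dotProduct_add, ((hHmem h).1 hh).2, zero_add, dotProduct_smul, smul_eq_mul] at hsx
    rcases mul_eq_zero.1 hsx with h' | h'
    · rw [h', zero_smul, add_zero]; exact hh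
    · exact absurd h' hsy
  -- the two branches
  obtain ⟨P, hP, hPh, hIP, hyP, hPM, hPdim⟩ := exists_section S.smooth M hy hy0 hyM
  obtain ⟨x, hxP, hx0, hxs⟩ := exists_in_section hP hPh hPdim (fun _ : Fin 1 => s) (by omega)
  have hxI : x ∈ cone I := cone_anti hIP hxP
  have hxH : x ∈ H := hMH x (hPM x hxP) (hxs 0)
  have hxw := ((hHmem x).1 hxH).1
  obtain ⟨P', hP', -, hIP', hxP', hPM', hPdim'⟩ := exists_section S.smooth V0 hxI hx0 hxw
  have hP'H : ∀ z ∈ cone P', z ∈ H := fun z hz =>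
    (hHmem z).2 ⟨hPM' z hz, hfix z (cone_anti hIP' hz) (hPM' z hz)⟩
  -- common equations
  obtain ⟨h, -, hhI, -, hli, -⟩ := exists_frame S.smooth hxI hx0
  obtain ⟨m, hm, l, hl⟩ : ∃ m, m = Fintype.card ι - Module.finrank ℂ M ∧
      ∃ l : Fin m → ι → ℂ, ∀ x, x ∈ M ↔ ∀ j, l j ⬝ᵥ x = 0 := ⟨_, rfl, exists_equations M⟩
  have hlli : LinearIndependent ℂ l := by
    let φ : (ι → ℂ) →ₗ[ℂ] (Fin m → ℂ) :=
      { toFun := fun x j => l j ⬝ᵥ x
        map_add' := fun x y => by funext i; simp [dotProduct_add]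
        map_smul' := fun c x => by funext i; simp [dotProduct_smul] }
    have hker : LinearMap.ker φ = M := by
      ext x
      rw [LinearMap.mem_ker, hl]
      constructor
      · intro h j; exact congrFun h j
      · intro h; exact _root_.funext h
    have h1 := LinearMap.finrank_range_add_finrank_ker φ
    rw [hker, Module.finrank_fintype_fun_eq_card] at h1
    have h2 : LinearMap.range φ = ⊤ := by
      apply Submodule.eq_top_of_finrank_eq
      rw [Module.finrank_fintype_fun_eq_card, Fintype.card_fin]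
      omega
    rw [Fintype.linearIndependent_iff]
    intro c hc j
    obtain ⟨x, hx⟩ : ∃ x, φ x = Pi.single j 1 := by
      have : (Pi.single j 1 : Fin m → ℂ) ∈ LinearMap.range φ := by rw [h2]; trivial
      exact this
    have h3 : (∑ i, c i • l i) ⬝ᵥ x = c j := by
      rw [sum_dotProduct, Finset.sum_eq_single j]
      · rw [smul_dotProduct]
        have : l j ⬝ᵥ x = 1 := by
          have := congrFun hx j
          rw [Pi.single_eq_same] at this
          exact this
        rw [this, smul_eq_mul, mul_one]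
      · intro i _ hij
        rw [smul_dotProduct]
        have : l i ⬝ᵥ x = 0 := by
          have := congrFun hx i
          rw [Pi.single_eq_of_ne hij] at this
          exact this
        rw [this, smul_zero]
      · simp
    rw [hc, zero_dotProduct] at h3
    exact h3.symm
  have hdisj : Disjoint (Submodule.span ℂ (Set.range fun i => dif (h i) x))
      (Submodule.span ℂ (Set.range l)) := by
    rw [Submodule.disjoint_def]
    intro φ hφ1 hφ2
    rw [span_dif_eq (S.smooth.rank x hxI hx0) h hhI hli] at hφ1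
    have hφw := hN x hxI hx0 hxw φ hφ1
    have hφM : ∀ v ∈ M, φ ⬝ᵥ v = 0 := by
      intro v hv
      obtain ⟨c, rfl⟩ := (Submodule.mem_span_range_iff_exists_fun ℂ).1 hφ2
      rw [sum_dotProduct]
      apply Finset.sum_eq_zero
      intro i _
      rw [smul_dotProduct, (hl v).1 hv i, smul_zero]
    have hφs : φ = (φ l₀ / s l₀) • s := by
      funext k
      by_cases hk : w k = 0
      · have h1 : (Pi.single k 1 - (s k / s l₀) • Pi.single l₀ 1 : ι → ℂ) ∈ H := by
          rw [hHmem]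
          constructor
          · intro i hi
            by_cases hik : i = k
            · rw [hik]; exact hk
            · by_cases hil : i = l₀
              · rw [hil]; exact hwl₀
              · simp [Pi.single_apply, hik, hil] at hi
          · rw [dotProduct_sub, dotProduct_smul, dotProduct_single, dotProduct_single]
            simp only [mul_one, smul_eq_mul]
            field_simp
            ring
        have h2 := hφM _ (Submodule.mem_sup_left h1)
        rw [dotProduct_sub, dotProduct_smul, dotProduct_single, dotProduct_single] at h2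
        simp only [mul_one, smul_eq_mul] at h2
        rw [Pi.smul_apply, smul_eq_mul]
        have h3 : φ k = s k / s l₀ * φ l₀ := by linear_combination h2
        rw [h3]; ring
      · have h1 : φ k = 0 := by by_contra hc; exact hk (hφw k hc)
        have h2 : s k = 0 := by by_contra hc; exact hk (hsw k hc)
        rw [Pi.smul_apply, h1, h2, smul_zero]
    have h4 := hφM y hyM
    rw [hφs, smul_dotProduct, smul_eq_mul] at h4
    rcases mul_eq_zero.1 h4 with h5 | h5
    · rw [hφs, h5, zero_smul]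
    · exact absurd h5 hsy
  let fam : Fin r ⊕ Fin m → MvPolynomial ι ℂ := Sum.elim h (fun j => lf (l j))
  have hfamli : LinearIndependent ℂ (fun i => dif (fam i) x) := by
    have e : (fun i => dif (fam i) x) = Sum.elim (fun i => dif (h i) x) l := by
      refine _root_.funext fun i => ?_
      rcases i with i | j
      · rfl
      · simp only [fam, Sum.elim_inr, dif_lf]
    rw [e]
    exact LinearIndependent.sum_type hli hlli hdisj
  have hfamP : ∀ i, fam i ∈ P := by
    rintro (i | j)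
    · exact hIP (hhI i)
    · apply mem_of_cone hP
      intro z hz
      simp only [fam, Sum.elim_inr, eval_lf]
      exact (hl z).1 (hPM z hz) j
  have hfamP' : ∀ i, fam i ∈ P' := by
    rintro (i | j)
    · exact hIP' (hhI i)
    · apply mem_of_cone hP'
      intro z hz
      simp only [fam, Sum.elim_inr, eval_lf]
      exact (hl z).1 (Submodule.mem_sup_left (hP'H z hz)) j
  have hMle : Module.finrank ℂ M ≤ Fintype.card ι := by
    have := Submodule.finrank_le M
    rwa [Module.finrank_fintype_fun_eq_card] at this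
  have hdim1 : ∀ Q : Ideal (MvPolynomial ι ℂ), (Module.finrank ℂ M : WithBot ℕ∞) ≤
      ringKrullDim (MvPolynomial ι ℂ ⧸ Q) + r →
      (Fintype.card ι : WithBot ℕ∞) ≤ ringKrullDim (MvPolynomial ι ℂ ⧸ Q) + ((r + m : ℕ) :
        WithBot ℕ∞) := by
    intro Q hQ
    have h1 : (Fintype.card ι : WithBot ℕ∞) = (Module.finrank ℂ M : WithBot ℕ∞) + (m : ℕ) := by
      have : Fintype.card ι = Module.finrank ℂ M + m := by omega
      exact_mod_cast congrArg (fun n : ℕ => (n : WithBot ℕ∞)) this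
    rw [h1]
    push_cast
    rw [← add_assoc]
    exact add_le_add_left hQ _
  have heq := branch_unique hP hP' hxP hxP' (fun i => fam (finSumFinEquiv.symm i))
    (fun i => hfamP _) (fun i => hfamP' _)
    (hfamli.comp _ finSumFinEquiv.symm.injective) (hdim1 P hPdim)
    (hdim1 P' (le_trans (by exact_mod_cast (by omega : Module.finrank ℂ M ≤
      Module.finrank ℂ V0)) hPdim'))
  rw [heq] at hyP
  exact hsy ((hHmem y).1 (hP'H y hyP)).2

/-- the pencil in Case A. -/
theorem MidFrame.pencil (F : MidFrame I r w D p g)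
    (hN : ∀ q ∈ cone I, q ≠ 0 → (∀ i, q i ≠ 0 → w i = 0) → ∀ s ∈ N I q, ∀ i, s i ≠ 0 → w i = 0)
    (h0 : r + 2 ≤ Fintype.card {i // w i = 0}) :
    ∃ β : (Fin r → ℂ) →ₗ[ℂ] V (fun k => w k = D) →ₗ[ℂ] V (fun k => -w k = D),
      ∀ z u, z ≠ 0 → u ≠ 0 → β z u ≠ 0 := by
  refine ⟨rbet g p _ _ ?_, ?_⟩
  · intro z u hu l hl
    exact F.bet_supp hu hl
  · intro z u hz hu h0'
    have h1 := congrArg Subtype.val h0'
    rw [rbet_apply] at h1
    exact F.nondeg hN h0 u.2 (fun h => hu (Subtype.ext h)) hz h1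

/-- Case A, given the support of the conormal spaces. -/
theorem Setup.caseA (S : Setup I r w D)
    (hN : ∀ q ∈ cone I, q ≠ 0 → (∀ i, q i ≠ 0 → w i = 0) → ∀ s ∈ N I q, ∀ i, s i ≠ 0 → w i = 0)
    (h0 : r + 2 ≤ Fintype.card {i // w i = 0}) : r ≤ 1 := by
  -- a nonzero point in the middle
  obtain ⟨y, hy, hy0, -⟩ := S.exists_low
  obtain ⟨P, hP, hPh, hIP, -, -, hPdim⟩ := exists_section S.smooth ⊤ hy hy0 trivial
  obtain ⟨l, hl⟩ := exists_equations (V fun i => w i = 0)
  have hle : Fintype.card {i // w i = 0} ≤ Fintype.card ι := Fintype.card_subtype_le _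
  obtain ⟨p, hp, hp0, hpl⟩ := exists_in_section hP hPh hPdim l (by
    rw [finrank_V, finrank_top, Module.finrank_fintype_fun_eq_card]; omega)
  have hpI := cone_anti hIP hp
  have hpw : ∀ i, p i ≠ 0 → w i = 0 := (hl p).2 hpl
  obtain ⟨g, F⟩ := exists_midFrame S hpI hp0 hpw (hN p hpI hp0 hpw)
  have hN' : ∀ q ∈ cone I, q ≠ 0 → (∀ i, q i ≠ 0 → -w i = 0) →
      ∀ s ∈ N I q, ∀ i, s i ≠ 0 → -w i = 0 := by
    simpa only [neg_eq_zero] using hN
  obtain ⟨g', F'⟩ := exists_midFrame S.mirror hpI hp0 (fun i hi => by rw [hpw i hi, neg_zero])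
    (hN' p hpI hp0 (fun i hi => by rw [hpw i hi, neg_zero]))
  obtain ⟨β, hβ⟩ := F.pencil hN h0
  obtain ⟨β', hβ'⟩ := F'.pencil hN' (by simpa only [neg_eq_zero] using h0)
  refine r_le_one_of β hβ ?_ ?_
  · have := card_le_of_nondeg S.rpos β' hβ'
    simpa only [neg_neg] using this
  · obtain ⟨k, hk⟩ := S.top
    exact Fintype.card_pos_iff.2 ⟨⟨k, hk⟩⟩

end mid

end H89.Hart
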