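import Mathlib

/-!
# Smooth projective varieties with a one-parameter group: basic definitions

`ι` is a finite set of coordinates, `V = ι → ℂ`.  A closed subvariety of `P(V)` is given by a
homogeneous prime ideal `I`; we work with its affine cone.
-/

open MvPolynomial

namespace H89.Hart

variable {ι : Type*} [Fintype ι] [DecidableEq ι]

/-- The differential of `f` at `p`, as the vector of partial derivatives. -/
noncomputable def dif (f : MvPolynomial ι ℂ) (p : ι → ℂ) : ι → ℂ := fun i => eval p (pderiv i f)

/-- The affine cone: the common zeros of all elements of `I`. -/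
def cone (I : Ideal (MvPolynomial ι ℂ)) : Set (ι → ℂ) := {x | ∀ f ∈ I, eval x f = 0}

/-- `f ↦ dif f p` as a linear map. -/
noncomputable def difLin (p : ι → ℂ) : MvPolynomial ι ℂ →ₗ[ℂ] (ι → ℂ) where
  toFun f := dif f p
  map_add' f g := by funext i; simp [dif]
  map_smul' c f := by funext i; simp [dif, MvPolynomial.smul_eq_C_mul]

/-- The conormal space of the cone at `x`: all differentials at `x` of elements of `I`. -/
noncomputable def N (I : Ideal (MvPolynomial ι ℂ)) (x : ι → ℂ) : Submodule ℂ (ι → ℂ) :=
  (I.restrictScalars ℂ).map (difLin x)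

theorem mem_N {I : Ideal (MvPolynomial ι ℂ)} {x v : ι → ℂ} :
    v ∈ N I x ↔ ∃ f ∈ I, dif f x = v := by
  simp [N, Submodule.mem_map, difLin]

/-- `I` is (the ideal of) an irreducible smooth closed subvariety of codimension `r`. -/
structure Smooth (I : Ideal (MvPolynomial ι ℂ)) (r : ℕ) : Prop where
  prime : I.IsPrime
  homog : ∀ f ∈ I, ∀ d, homogeneousComponent d f ∈ I
  rank : ∀ x ∈ cone I, x ≠ 0 → Module.finrank ℂ (N I x) = r

end H89.Hart
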