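import Mathlib
import Pool.Agent.H89.Hart.Defs

/-!
# Dimension theory (job HART-J1, helper94)

* `height_eq_dim`: in an affine domain every maximal ideal has height equal to the dimension;
* `exists_component` (J1a), `exists_ne_zero` (J1b), `dim_add_le` (J1c), `mem_of_forall_cone` (J1d).
-/

open MvPolynomial

namespace H89.Hart

theorem height_isMaximal {K : Type*} [Field K] {ι : Type*} [Finite ι] :
    ∀ (P : Ideal (MvPolynomial ι K)), P.IsMaximal → P.height = Nat.card ι := by
  induction ι using Finite.induction_empty_option with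
  | of_equiv e H =>
    intro P hP
    have h1 := H (P.comap (renameEquiv K e).toRingEquiv)
      (Ideal.comap_isMaximal_of_equiv (renameEquiv K e).toRingEquiv)
    rw [RingEquiv.height_comap] at h1
    rw [h1, Nat.card_congr e]
  | h_empty =>
    intro P hP
    have e : MvPolynomial PEmpty K ≃+* K := (isEmptyAlgEquiv K PEmpty).toRingEquiv
    have hf : IsField (MvPolynomial PEmpty K) := e.toMulEquiv.isField (Field.toIsField K)
    have hs := (Ring.isField_iff_isSimpleOrder_ideal).mp hf
    have : P = ⊥ := (hs.eq_bot_or_eq_top P).resolve_right hP.ne_top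
    rw [this]
    simp
  | h_option IH =>
    rename_i α _
    intro P hP
    let e := (optionEquivLeft K α).toRingEquiv
    let Q : Ideal (Polynomial (MvPolynomial α K)) := P.comap e.symm
    have hQ : Q.IsMaximal := Ideal.comap_isMaximal_of_equiv e.symm
    have h1 : P.height = Q.height := (RingEquiv.height_comap e.symm P).symm
    have h2 := Polynomial.height_eq_height_add_one (Q.under (MvPolynomial α K)) Q
    have h3 : (Q.under (MvPolynomial α K)).IsMaximal :=
      Polynomial.isMaximal_comap_C_of_isJacobsonRing Q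
    rw [h1, h2, IH _ h3]
    simp [Nat.card_eq_fintype_card, Fintype.card_option]

theorem ringKrullDim_le_of_integral {R S : Type*} [CommRing R] [CommRing S] [Algebra R S]
    [Algebra.IsIntegral R S] : ringKrullDim S ≤ ringKrullDim R := by
  refine Order.krullDim_le_of_strictMono (PrimeSpectrum.comap (algebraMap R S)) ?_
  intro p q hpq
  exact Ideal.IsIntegral.comap_lt_comap (A := S) (R := R) (I := p.asIdeal) (J := q.asIdeal) hpq

theorem height_eq_dim {K : Type*} [Field K] {A : Type*} [CommRing A] [IsDomain A] [Algebra K A]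
    [Algebra.FiniteType K A] (M : Ideal A) [hM : M.IsMaximal] :
    (M.height : WithBot ℕ∞) = ringKrullDim A := by
  apply le_antisymm (Ideal.height_le_ringKrullDim_of_ne_top hM.ne_top)
  obtain ⟨s, g, hg, hfin⟩ := exists_finite_inj_algHom_of_fg K A
  algebraize [g.toRingHom]
  have hfin' : Module.Finite (MvPolynomial (Fin s) K) A := hfin
  have : FaithfulSMul (MvPolynomial (Fin s) K) A :=
    (faithfulSMul_iff_algebraMap_injective _ _).mpr hg
  have : Algebra.IsIntegral (MvPolynomial (Fin s) K) A := Algebra.IsIntegral.of_finite _ _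
  have hdim : ringKrullDim A ≤ s := by
    refine (ringKrullDim_le_of_integral (R := MvPolynomial (Fin s) K) (S := A)).trans ?_
    rw [MvPolynomial.ringKrullDim_of_isNoetherianRing]
    simp
  have hN : IsNoetherianRing A := Algebra.FiniteType.isNoetherianRing K A
  have h1 := Ideal.height_eq_height_add_of_liesOver_of_hasGoingDown
    (M.under (MvPolynomial (Fin s) K)) M
  have h2 : (M.under (MvPolynomial (Fin s) K)).height = Nat.card (Fin s) :=
    height_isMaximal _ inferInstance
  have h3 : (s : ℕ∞) ≤ M.height := by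
    rw [h1, h2]; simp
  exact hdim.trans (by exact_mod_cast h3)

variable {σ : Type*} [Fintype σ] [DecidableEq σ]

omit [Fintype σ] [DecidableEq σ] in
theorem cone_eq_zeroLocus (P : Ideal (MvPolynomial σ ℂ)) : cone P = zeroLocus ℂ P := by
  ext x; simp [cone]

omit [Fintype σ] [DecidableEq σ] in
theorem le_vanishing {P : Ideal (MvPolynomial σ ℂ)} {x : σ → ℂ} (hx : x ∈ cone P) :
    P ≤ vanishingIdeal ℂ {x} := by
  intro f hf
  rw [mem_vanishingIdeal_singleton_iff]
  simpa using hx f hf

omit [DecidableEq σ] in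
/-- J1d -/
theorem mem_of_forall_cone (P : Ideal (MvPolynomial σ ℂ)) (hP : P.IsPrime)
    (f : MvPolynomial σ ℂ) (hf : ∀ x ∈ cone P, eval x f = 0) : f ∈ P := by
  have := hP
  rw [← IsPrime.vanishingIdeal_zeroLocus (K := ℂ) P, mem_vanishingIdeal_iff]
  intro x hx
  rw [← cone_eq_zeroLocus] at hx
  simpa using hf x hx

omit [DecidableEq σ] in
attribute [local instance] MvPolynomial.gradedAlgebra in
/-- J1a -/
theorem exists_component {α : Type*} [Fintype α] (g : α → MvPolynomial σ ℂ)
    (hg : ∀ a, ∃ d, (g a).IsHomogeneous d) (q : σ → ℂ) (hq : ∀ a, eval q (g a) = 0) :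
    ∃ P : Ideal (MvPolynomial σ ℂ), P.IsPrime ∧ (∀ f ∈ P, ∀ d, homogeneousComponent d f ∈ P) ∧
      (∀ a, g a ∈ P) ∧ q ∈ cone P ∧
      (Fintype.card σ : WithBot ℕ∞) ≤ ringKrullDim (MvPolynomial σ ℂ ⧸ P) + Fintype.card α := by
  classical
  set J : Ideal (MvPolynomial σ ℂ) := Ideal.span (Set.range g) with hJ
  set M : Ideal (MvPolynomial σ ℂ) := vanishingIdeal ℂ {q} with hM
  have hgM : Set.range g ⊆ (M : Set (MvPolynomial σ ℂ)) := by
    rintro _ ⟨a, rfl⟩
    have : g a ∈ M := by
      rw [hM, mem_vanishingIdeal_singleton_iff]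
      simpa using hq a
    exact this
  have hJM : J ≤ M := Ideal.span_le.mpr hgM
  have hMmax : M.IsMaximal := by rw [hM]; infer_instance
  have h1 := Ideal.height_le_height_add_encard_of_subset (Set.range g) (p := M) hgM
  rw [← hJ] at h1
  have hM' : (M.map (Ideal.Quotient.mk J)).IsPrime := Ideal.isPrime_map_quotientMk_of_isPrime hJM
  obtain ⟨l, hl1, hl2⟩ := Ideal.exists_ltSeries_length_eq_height (M.map (Ideal.Quotient.mk J))
  rw [height_isMaximal M hMmax, ← hl2] at h1
  have hcard : (Set.range g).encard ≤ Fintype.card α := by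
    rw [← Set.image_univ]
    refine (Set.encard_image_le g Set.univ).trans ?_
    simp [Set.encard_univ]
  -- the comap of the head
  let Q0 : Ideal (MvPolynomial σ ℂ) := l.head.asIdeal.comap (Ideal.Quotient.mk J)
  have hJQ0 : J ≤ Q0 := by
    intro f hf
    change Ideal.Quotient.mk J f ∈ l.head.asIdeal
    rw [Ideal.Quotient.eq_zero_iff_mem.mpr hf]
    exact zero_mem _
  have hQ0M : Q0 ≤ M := by
    have h2 : l.head.asIdeal ≤ M.map (Ideal.Quotient.mk J) := by
      have := l.head_le_last
      rw [hl1] at this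
      exact this
    intro f hf
    have h3 : Ideal.Quotient.mk J f ∈ M.map (Ideal.Quotient.mk J) := h2 hf
    rwa [Ideal.mem_quotient_iff_mem hJM] at h3
  obtain ⟨P, hPmin, hPQ⟩ := Ideal.exists_minimalPrimes_le (I := J) (J := Q0) hJQ0
  have hPprime : P.IsPrime := hPmin.1.1
  have hJP : J ≤ P := hPmin.1.2
  refine ⟨P, hPprime, ?_, ?_, ?_, ?_⟩
  · have hJh : J.IsHomogeneous (homogeneousSubmodule σ ℂ) := by
      refine Ideal.homogeneous_span _ _ ?_
      rintro _ ⟨a, rfl⟩
      obtain ⟨d, hd⟩ := hg a
      exact ⟨d, hd⟩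
    have hcore : (P.homogeneousCore (homogeneousSubmodule σ ℂ)).toIdeal.IsPrime :=
      Ideal.IsPrime.homogeneousCore (𝒜 := homogeneousSubmodule σ ℂ) hPprime
    have hle : (P.homogeneousCore (homogeneousSubmodule σ ℂ)).toIdeal ≤ P :=
      Ideal.toIdeal_homogeneousCore_le _ _
    have hJcore : J ≤ (P.homogeneousCore (homogeneousSubmodule σ ℂ)).toIdeal := by
      refine Ideal.span_le.mpr ?_
      rintro _ ⟨a, rfl⟩
      obtain ⟨d, hd⟩ := hg a
      exact Ideal.mem_homogeneousCore_of_homogeneous_of_mem ⟨d, hd⟩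
        (hJP (Ideal.subset_span ⟨a, rfl⟩))
    have heq : P ≤ (P.homogeneousCore (homogeneousSubmodule σ ℂ)).toIdeal :=
      hPmin.2 ⟨hcore, hJcore⟩ hle
    have hPh : P.IsHomogeneous (homogeneousSubmodule σ ℂ) := by
      rw [Ideal.IsHomogeneous.iff_eq]
      exact le_antisymm hle heq
    intro f hf d
    exact homogeneousComponent_mem_of_mem hPh hf d
  · intro a
    exact hJP (Ideal.subset_span ⟨a, rfl⟩)
  · intro f hf
    have : f ∈ M := hQ0M (hPQ hf)
    rw [hM, mem_vanishingIdeal_singleton_iff] at this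
    simpa using this
  · have hdim : (l.length : WithBot ℕ∞) ≤ ringKrullDim (MvPolynomial σ ℂ ⧸ P) := by
      rw [ringKrullDim_quotient]
      let l' : LTSeries (PrimeSpectrum.zeroLocus (R := MvPolynomial σ ℂ) P) :=
        { length := l.length
          toFun := fun i => ⟨PrimeSpectrum.comap (Ideal.Quotient.mk J) (l i), by
            rw [PrimeSpectrum.mem_zeroLocus]
            have h4 : l.head ≤ l i := LTSeries.monotone l (Fin.zero_le i)
            intro f hf
            exact h4 (hPQ hf)⟩
          step := by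
            intro i
            have h5 := l.step i
            exact (RingHom.strictMono_comap_of_surjective Ideal.Quotient.mk_surjective) h5 }
      exact Order.LTSeries.length_le_krullDim l'
    have h6 : (Fintype.card σ : ℕ∞) ≤ l.length + Fintype.card α := by
      rw [Nat.card_eq_fintype_card] at h1
      exact h1.trans (by gcongr)
    calc (Fintype.card σ : WithBot ℕ∞) = (((Fintype.card σ : ℕ) : ℕ∞) : WithBot ℕ∞) := rfl
      _ ≤ ((l.length + Fintype.card α : ℕ∞) : WithBot ℕ∞) := by exact_mod_cast h6
      _ = (l.length : WithBot ℕ∞) + Fintype.card α := rfl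
      _ ≤ _ := by gcongr

omit [DecidableEq σ] in
/-- the dimension of `S/P` is at most the number of equations cutting out an isolated point. -/
theorem dim_le_of_minimal (P : Ideal (MvPolynomial σ ℂ)) (hP : P.IsPrime) (x : σ → ℂ)
    (hx : x ∈ cone P) {β : Type*} [Fintype β] (l : β → MvPolynomial σ ℂ)
    (hl : ∀ b, eval x (l b) = 0)
    (hmin : ∀ Q : Ideal (MvPolynomial σ ℂ), Q.IsPrime → P ≤ Q → (∀ b, l b ∈ Q) →
      Q ≤ vanishingIdeal ℂ {x} → vanishingIdeal ℂ {x} ≤ Q) :
    ringKrullDim (MvPolynomial σ ℂ ⧸ P) ≤ Fintype.card β := by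
  classical
  set M : Ideal (MvPolynomial σ ℂ) := vanishingIdeal ℂ {x} with hM
  have hMmax : M.IsMaximal := by rw [hM]; infer_instance
  have hPM : P ≤ M := le_vanishing hx
  let M' := M.map (Ideal.Quotient.mk P)
  have hM' : M'.IsMaximal := by
    refine .map_of_surjective_of_ker_le Ideal.Quotient.mk_surjective ?_
    rw [Ideal.mk_ker]
    exact hPM
  have hdom : IsDomain (MvPolynomial σ ℂ ⧸ P) := Ideal.Quotient.isDomain P
  rw [← height_eq_dim (K := ℂ) M']
  let s : Finset (MvPolynomial σ ℂ ⧸ P) :=
    Finset.univ.image (fun b => Ideal.Quotient.mk P (l b))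
  have hs : M' ∈ (Ideal.span (s : Set (MvPolynomial σ ℂ ⧸ P))).minimalPrimes := by
    refine ⟨⟨hM'.isPrime, ?_⟩, ?_⟩
    · refine Ideal.span_le.mpr ?_
      intro y hy
      simp only [s, Finset.coe_image, Finset.coe_univ, Set.image_univ, Set.mem_range] at hy
      obtain ⟨b, rfl⟩ := hy
      have : l b ∈ M := by
        rw [hM, mem_vanishingIdeal_singleton_iff]
        simpa using hl b
      exact Ideal.mem_map_of_mem _ this
    · rintro Q ⟨hQ, hQs⟩ hQM
      have hcomap : M ≤ Q.comap (Ideal.Quotient.mk P) := by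
        have := hQ
        refine hmin _ inferInstance ?_ ?_ ?_
        · intro f hf
          change Ideal.Quotient.mk P f ∈ Q
          rw [Ideal.Quotient.eq_zero_iff_mem.mpr hf]
          exact zero_mem _
        · intro b
          exact hQs (Ideal.subset_span (by simp [s]))
        · intro f hf
          have h3 : Ideal.Quotient.mk P f ∈ M' := hQM hf
          rwa [Ideal.mem_quotient_iff_mem hPM] at h3
      exact Ideal.map_le_iff_le_comap.mpr hcomap
  have h1 := Ideal.height_le_card_of_mem_minimalPrimes_span_finset (p := M') (s := s) hs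
  have h2 : s.card ≤ Fintype.card β := Finset.card_image_le.trans (by simp)
  have h3 : M'.height ≤ (Fintype.card β : ℕ∞) := h1.trans (by exact_mod_cast h2)
  exact_mod_cast h3

omit [DecidableEq σ] in
/-- J1b -/
theorem exists_ne_zero (P : Ideal (MvPolynomial σ ℂ)) (hP : P.IsPrime)
    (hh : ∀ f ∈ P, ∀ d, homogeneousComponent d f ∈ P) {β : Type*} [Fintype β]
    (l : β → MvPolynomial σ ℂ) (hl : ∀ b, eval (0 : σ → ℂ) (l b) = 0)
    (hdim : (Fintype.card β : WithBot ℕ∞) < ringKrullDim (MvPolynomial σ ℂ ⧸ P)) :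
    ∃ x ∈ cone P, x ≠ 0 ∧ ∀ b, eval x (l b) = 0 := by
  by_contra hcon
  push Not at hcon
  have h0 : (0 : σ → ℂ) ∈ cone P := by
    intro f hf
    have h1 := hh f hf 0
    rw [homogeneousComponent_zero] at h1
    have h2 : coeff 0 f = 0 := by
      by_contra h3
      apply hP.ne_top
      rw [Ideal.eq_top_iff_one]
      have h4 := P.mul_mem_left (C (coeff 0 f)⁻¹) h1
      rwa [← C_mul, inv_mul_cancel₀ h3, C_1] at h4
    have h5 : eval (0 : σ → ℂ) f = constantCoeff f := by
      rw [← MvPolynomial.eval_zero]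
    rw [h5]
    exact h2
  refine absurd hdim (not_lt.mpr (dim_le_of_minimal P hP 0 h0 l hl ?_))
  intro Q hQ hPQ hlQ _ f hf
  refine mem_of_forall_cone Q hQ f ?_
  intro x hx
  have hxP : x ∈ cone P := fun g hg => hx g (hPQ hg)
  have hx0 : x = 0 := by
    by_contra hne
    obtain ⟨b, hb⟩ := hcon x hxP hne
    exact hb (hx _ (hlQ b))
  rw [hx0]
  rw [mem_vanishingIdeal_singleton_iff] at hf
  simpa using hf

/-- first order Taylor expansion modulo the square of the maximal ideal -/
theorem taylor (x : σ → ℂ) (f : MvPolynomial σ ℂ) :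
    f - C (eval x f) - ∑ i, C (eval x (pderiv i f)) * (X i - C (x i)) ∈
      (vanishingIdeal ℂ {x} : Ideal (MvPolynomial σ ℂ)) ^ 2 := by
  set M : Ideal (MvPolynomial σ ℂ) := vanishingIdeal ℂ {x} with hM
  have hXM : ∀ j, (X j - C (x j) : MvPolynomial σ ℂ) ∈ M := by
    intro j
    rw [hM, mem_vanishingIdeal_singleton_iff]
    simp
  have hLM : ∀ f : MvPolynomial σ ℂ,
      ∑ i, C (eval x (pderiv i f)) * (X i - C (x i)) ∈ M := by
    intro f
    exact Ideal.sum_mem _ fun i _ => Ideal.mul_mem_left _ _ (hXM i)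
  induction f using MvPolynomial.induction_on with
  | C a => simp
  | add p q hp hq =>
    have := add_mem hp hq
    convert this using 1
    simp only [map_add, add_mul, Finset.sum_add_distrib]
    ring
  | mul_X p j hp =>
    have key : p * X j - C (eval x (p * X j)) -
        ∑ i, C (eval x (pderiv i (p * X j))) * (X i - C (x i)) =
        X j * (p - C (eval x p) - ∑ i, C (eval x (pderiv i p)) * (X i - C (x i))) +
        (X j - C (x j)) * ∑ i, C (eval x (pderiv i p)) * (X i - C (x i)) := by
      have h1 : ∀ i, C (eval x (pderiv i (p * X j))) * (X i - C (x i)) =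
          C (x j) * (C (eval x (pderiv i p)) * (X i - C (x i))) +
          (if i = j then C (eval x p) * (X j - C (x j)) else 0 : MvPolynomial σ ℂ) := by
        intro i
        rw [Derivation.leibniz, pderiv_X]
        by_cases hij : i = j
        · subst hij
          simp
          ring
        · simp [hij, Ne.symm hij]
          ring
      simp only [h1, Finset.sum_add_distrib, ← Finset.mul_sum, Finset.sum_ite_eq',
        Finset.mem_univ, if_true, map_mul, eval_X]
      ring
    rw [key]
    refine add_mem (Ideal.mul_mem_left _ _ hp) ?_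
    rw [pow_two]
    exact Ideal.mul_mem_mul (hXM j) (hLM p)

/-- J1c (embedding dimension) -/
theorem dim_add_le (P : Ideal (MvPolynomial σ ℂ)) (hP : P.IsPrime) (x : σ → ℂ) (hx : x ∈ cone P)
    {γ : Type*} [Fintype γ] (h : γ → MvPolynomial σ ℂ) (hh : ∀ c, h c ∈ P)
    (hli : LinearIndependent ℂ (fun c => dif (h c) x)) :
    ringKrullDim (MvPolynomial σ ℂ ⧸ P) + Fintype.card γ ≤ Fintype.card σ := by
  classical
  set M : Ideal (MvPolynomial σ ℂ) := vanishingIdeal ℂ {x} with hM
  have hMmax : M.IsMaximal := by rw [hM]; infer_instance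
  let W : Submodule ℂ (σ → ℂ) := Submodule.span ℂ (Set.range (fun c => dif (h c) x))
  have hW : Module.finrank ℂ W = Fintype.card γ := finrank_span_eq_card hli
  obtain ⟨W', hW'⟩ := Submodule.exists_isCompl W
  have hsum := Submodule.finrank_add_eq_of_isCompl hW'
  rw [hW, Module.finrank_fintype_fun_eq_card] at hsum
  let w := Module.finBasis ℂ W'
  -- the linear forms
  let L : (σ → ℂ) →ₗ[ℂ] MvPolynomial σ ℂ :=
    { toFun := fun v => ∑ i, C (v i) * (X i - C (x i))
      map_add' := by
        intro u v
        simp [add_mul, Finset.sum_add_distrib]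
      map_smul' := by
        intro c v
        simp [Finset.smul_sum, smul_eq_C_mul, mul_assoc] }
  have hLM : ∀ v, L v ∈ M := by
    intro v
    change ∑ i, C (v i) * (X i - C (x i)) ∈ M
    refine Ideal.sum_mem _ fun i _ => Ideal.mul_mem_left _ _ ?_
    rw [hM, mem_vanishingIdeal_singleton_iff]
    simp
  have hdim : ringKrullDim (MvPolynomial σ ℂ ⧸ P) ≤
      Fintype.card (Fin (Module.finrank ℂ W')) := by
    refine dim_le_of_minimal P hP x hx (fun j => L (w j : σ → ℂ)) ?_ ?_
    · intro j
      have := hLM (w j : σ → ℂ)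
      rw [hM, mem_vanishingIdeal_singleton_iff] at this
      simpa using this
    · intro Q hQ hPQ hyQ hQM
      rw [← hM] at hQM ⊢
      -- the submodule of good vectors is everything
      let T : Submodule ℂ (σ → ℂ) :=
        Submodule.comap L (Submodule.restrictScalars ℂ (Q ⊔ M ^ 2))
      have hWT : W ≤ T := by
        refine Submodule.span_le.mpr ?_
        rintro _ ⟨c, rfl⟩
        change L (dif (h c) x) ∈ Q ⊔ M ^ 2
        have h1 := taylor x (h c)
        have h2 : eval x (h c) = 0 := hx _ (hh c)
        rw [h2, C_0, sub_zero] at h1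
        have h3 : L (dif (h c) x) = h c -
          (h c - ∑ i, C (eval x (pderiv i (h c))) * (X i - C (x i))) := by
          simp [L, dif]
        rw [h3]
        exact Ideal.sub_mem _ (Ideal.mem_sup_left (hPQ (hh c))) (Ideal.mem_sup_right h1)
      have hW'T : W' ≤ T := by
        have h1 : W' = (⊤ : Submodule ℂ W').map W'.subtype := by simp
        rw [h1, ← w.span_eq, Submodule.map_span, Submodule.span_le]
        rintro _ ⟨_, ⟨j, rfl⟩, rfl⟩
        change L (w j : σ → ℂ) ∈ Q ⊔ M ^ 2
        exact Ideal.mem_sup_left (hyQ j)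
      have hT : T = ⊤ := by
        rw [eq_top_iff, ← hW'.sup_eq_top]
        exact sup_le hWT hW'T
      have hMQ : M ≤ Q ⊔ M ^ 2 := by
        intro f hf
        have h1 := taylor x f
        have h2 : eval x f = 0 := by
          rw [hM, mem_vanishingIdeal_singleton_iff] at hf
          simpa using hf
        rw [h2, C_0, sub_zero] at h1
        have h3 : (fun i => eval x (pderiv i f)) ∈ T := by rw [hT]; trivial
        have h4 : L (fun i => eval x (pderiv i f)) ∈ Q ⊔ M ^ 2 := h3
        have h5 : f = (f - ∑ i, C (eval x (pderiv i f)) * (X i - C (x i))) +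
          L (fun i => eval x (pderiv i f)) := by simp [L]
        rw [h5]
        exact Ideal.add_mem _ (Ideal.mem_sup_right h1) h4
      have hdom : IsDomain (MvPolynomial σ ℂ ⧸ Q) := Ideal.Quotient.isDomain Q
      have hidem : IsIdempotentElem (M.map (Ideal.Quotient.mk Q)) := by
        have h1 : M.map (Ideal.Quotient.mk Q) ≤
            M.map (Ideal.Quotient.mk Q) * M.map (Ideal.Quotient.mk Q) := by
          have h2 := Ideal.map_mono (f := Ideal.Quotient.mk Q) hMQ
          rw [Ideal.map_sup, Ideal.map_quotient_self, bot_sup_eq, pow_two, Ideal.map_mul] at h2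
          exact h2
        exact le_antisymm Ideal.mul_le_left h1
      have hfg : (M.map (Ideal.Quotient.mk Q)).FG := IsNoetherian.noetherian _
      rcases (Ideal.isIdempotentElem_iff_eq_bot_or_top _ hfg).mp hidem with h1 | h1
      · intro f hf
        have h2 : Ideal.Quotient.mk Q f ∈ M.map (Ideal.Quotient.mk Q) := Ideal.mem_map_of_mem _ hf
        rw [h1, Ideal.mem_bot] at h2
        exact Ideal.Quotient.eq_zero_iff_mem.mp h2
      · exfalso
        have h2 : Ideal.Quotient.mk Q 1 ∈ M.map (Ideal.Quotient.mk Q) := by rw [h1]; trivial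
        rw [Ideal.mem_quotient_iff_mem hQM] at h2
        exact hMmax.ne_top ((Ideal.eq_top_iff_one _).mpr h2)
  rw [Fintype.card_fin] at hdim
  calc ringKrullDim (MvPolynomial σ ℂ ⧸ P) + Fintype.card γ
      ≤ (Module.finrank ℂ W' : WithBot ℕ∞) + Fintype.card γ := by gcongr
    _ = ((Module.finrank ℂ W' + Fintype.card γ : ℕ) : WithBot ℕ∞) := by push_cast; rfl
    _ ≤ Fintype.card σ := by
      rw [← hsum]
      push_cast
      rw [add_comm]

end H89.Hart
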