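import Pool.Agent.H89.Hart.Weights
import Pool.Agent.H89.Hart.Dim

/-! Case A, step a1 (job HART-J4): conormal vectors at fixed points of weight `0` are supported on
the weight `0` coordinates. -/

open MvPolynomial

set_option linter.unusedSectionVars false
set_option linter.unusedSimpArgs false

namespace H89.Hart

variable {ι : Type*} [Fintype ι] [DecidableEq ι]

/-! ### homogeneity of determinants -/

theorem isHomogeneous_det {σ : Type*} {n : ℕ} (A : Matrix (Fin n) (Fin n) (MvPolynomial σ ℂ))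
    (e : Fin n → ℕ) (hA : ∀ i j, (A i j).IsHomogeneous (e i)) :
    A.det.IsHomogeneous (∑ i, e i) := by
  rw [Matrix.det_apply]
  apply IsHomogeneous.sum
  intro τ _
  have h1 : (∏ i, A (τ i) i).IsHomogeneous (∑ i, e i) := by
    have := IsHomogeneous.prod Finset.univ (fun i => A (τ i) i) (fun i => e (τ i))
      (fun i _ => hA (τ i) i)
    rwa [Equiv.sum_comp τ e] at this
  rw [← mem_homogeneousSubmodule] at h1 ⊢
  rw [Units.smul_def]
  exact zsmul_mem h1 _

theorem isHomogeneous_dd {f : MvPolynomial ι ℂ} {d : ℕ} (hf : f.IsHomogeneous d) (v : ι → ℂ) :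
    (dd v f).IsHomogeneous (d - 1) := by
  rw [dd]
  apply IsHomogeneous.sum
  intro i _
  exact (hf.pderiv).C_mul _

theorem isHomogeneous_Q {n : ℕ} (g : Fin n → MvPolynomial ι ℂ) (d : Fin n → ℕ)
    (hg : ∀ i, (g i).IsHomogeneous (d i)) (l : Fin n → ι → ℂ) {h : MvPolynomial ι ℂ}
    (hh : h.IsHomogeneous 1) (v : ι → ℂ) : (Q g l h v).IsHomogeneous (∑ i, (d i - 1)) := by
  have hm : ∀ i j, (mat g l i j).IsHomogeneous (d i - 1) := fun i j => isHomogeneous_dd (hg i) _
  rw [Q]
  apply IsHomogeneous.sub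
  · have := (isHomogeneous_det _ _ hm).mul (isHomogeneous_dd hh v)
    simpa using this
  · apply IsHomogeneous.sum
    intro i _
    have h1 : ∀ j, ((mat g l).adjugate j i).IsHomogeneous
        (∑ i', Function.update (fun i => d i - 1) i 0 i') := by
      intro j
      rw [Matrix.adjugate_apply]
      apply isHomogeneous_det
      intro i' j'
      by_cases hi : i' = i
      · subst hi
        rw [Matrix.updateRow_self, Function.update_self]
        by_cases hj : j' = j
        · subst hj; rw [Pi.single_eq_same]; exact isHomogeneous_one _ _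
        · rw [Pi.single_eq_of_ne hj]; exact isHomogeneous_zero _ _ _
      · rw [Matrix.updateRow_ne hi, Function.update_of_ne hi]
        exact hm _ _
    have h2 : (∑ j, dd (l j) h * (mat g l).adjugate j i).IsHomogeneous
        (∑ i', Function.update (fun i => d i - 1) i 0 i') := by
      apply IsHomogeneous.sum
      intro j _
      have := (isHomogeneous_dd hh (l j)).mul (h1 j)
      simpa using this
    have h3 := h2.mul (isHomogeneous_dd (hg i) v)
    have h4 : (∑ i', Function.update (fun i => d i - 1) i 0 i') + (d i - 1) =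
        ∑ i, (d i - 1) := by
      rw [Finset.sum_update_of_mem (Finset.mem_univ i), zero_add,
        ← Finset.sum_sdiff (Finset.subset_univ {i}), Finset.sum_singleton]
    rwa [h4] at h3

/-! ### linear forms -/

/-- the linear form with coefficient vector `s`. -/
noncomputable def linf (s : ι → ℂ) : MvPolynomial ι ℂ := ∑ i, C (s i) * X i

theorem dif_linf (s x : ι → ℂ) : dif (linf s) x = s := by
  rw [linf, dif_sum]
  funext j
  rw [Finset.sum_apply, Finset.sum_eq_single j]
  · rw [dif_mul, dif_X]; simp [dif]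
  · intro i _ hi
    rw [dif_mul, dif_X]; simp [dif, Pi.single_apply, Ne.symm hi]
  · simp

theorem isHomogeneous_linf (s : ι → ℂ) : (linf s).IsHomogeneous 1 := by
  rw [linf]
  exact IsHomogeneous.sum _ _ _ fun i _ => (isHomogeneous_X ℂ i).C_mul _

/-! ### weights -/

theorem sum_wcomp (v : ι → ℤ) (g : MvPolynomial ι ℂ) :
    g = ∑ c ∈ g.support.image (Finsupp.weight v), weightedHomogeneousComponent v c g := by
  classical
  ext m
  rw [coeff_sum]
  simp only [coeff_weightedHomogeneousComponent]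
  by_cases hm : m ∈ g.support
  · rw [Finset.sum_eq_single (Finsupp.weight v m)]
    · simp
    · intro b _ hb; simp [Ne.symm hb]
    · intro h; exact absurd (Finset.mem_image_of_mem _ hm) h
  · rw [notMem_support_iff.1 hm]; simp

theorem dif_wcomp (v : ι → ℤ) {x : ι → ℂ} (hx : ∀ i, x i ≠ 0 → v i = 0) (f : MvPolynomial ι ℂ)
    {m : ι} {k : ℤ} (hm : v m = k) :
    dif (weightedHomogeneousComponent v k f) x m = dif f x m := by
  conv_rhs => rw [sum_wcomp v f, dif_sum, Finset.sum_apply]
  have h1 : ∀ c, c ≠ k → dif (weightedHomogeneousComponent v c f) x m = 0 := by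
    intro c hc
    by_contra hne
    exact hc ((dif_support (weightedHomogeneousComponent_isWeightedHomogeneous c f) hx
      hne).symm.trans hm)
  by_cases hk : k ∈ f.support.image (Finsupp.weight v)
  · rw [Finset.sum_eq_single k (fun c _ hc => h1 c hc) (fun h => absurd hk h)]
  · rw [Finset.sum_eq_zero (fun c hc => h1 c (fun e => hk (e ▸ hc)))]
    have : weightedHomogeneousComponent v k f = 0 := by
      rw [weightedHomogeneousComponent_apply]
      apply Finset.sum_eq_zero
      intro d hd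
      rw [Finset.mem_filter] at hd
      exact absurd (Finset.mem_image.2 ⟨d, hd.1, hd.2⟩) hk
    rw [this, dif_zero]; rfl

/-- the part of a frame of a given weight. -/
theorem exists_subframe {I : Ideal (MvPolynomial ι ℂ)} {r : ℕ} (hI : Smooth I r) {w : ι → ℤ}
    (hw : ∀ t : ℂ, t ≠ 0 → ∀ x ∈ cone I, act w t x ∈ cone I) {p : ι → ℂ}
    (hp : p ∈ cone I) (hp0 : p ≠ 0) (hpw : ∀ i, p i ≠ 0 → w i = 0) {k : ℤ} {s : ι → ℂ}
    (hs : s ∈ N I p) (hsk : ∀ i, s i ≠ 0 → w i = k) :
    ∃ e : ℕ, ∃ q : Fin e → MvPolynomial ι ℂ, ∃ l : Fin e → ι → ℂ, (∀ i, q i ∈ I) ∧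
      (∀ i, ∃ d, (q i).IsHomogeneous d) ∧ (∀ i, IsWeightedHomogeneous w (q i) k) ∧
      matAt q l p = 1 ∧ s ∈ Submodule.span ℂ (Set.range fun i => dif (q i) p) := by
  classical
  obtain ⟨g, c, hg, hgd, hgc, hli⟩ := exists_wframe hI hw hp hp0
  let T := {i : Fin r // c i = k}
  let eqv : T ≃ Fin (Fintype.card T) := Fintype.equivFin T
  have hspan := span_dif_eq (hI.rank p hp hp0) g hg hli
  rw [← hspan] at hs
  obtain ⟨b, hb⟩ := (Submodule.mem_span_range_iff_exists_fun ℂ).1 hs
  have hli' : LinearIndependent ℂ (fun j : Fin (Fintype.card T) => dif (g (eqv.symm j).1) p) :=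
    hli.comp (fun j => (eqv.symm j).1)
      (fun a b hab => eqv.symm.injective (Subtype.ext hab))
  obtain ⟨l, hl⟩ := exists_dual _ hli'
  refine ⟨Fintype.card T, fun j => g (eqv.symm j).1, l, fun j => hg _, fun j => hgd _,
    fun j => ?_, ?_, ?_⟩
  · have := hgc (eqv.symm j).1
    rwa [(eqv.symm j).2] at this
  · ext i j
    rw [matAt, Matrix.of_apply, hl, Matrix.one_apply]
  · have hs2 : s = ∑ i, (if c i = k then b i • dif (g i) p else 0) := by
      funext m
      rw [← hb, Finset.sum_apply, Finset.sum_apply]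
      by_cases hm : w m = k
      · refine Finset.sum_congr rfl fun i _ => ?_
        by_cases hi : c i = k
        · rw [if_pos hi]
        · rw [if_neg hi, Pi.smul_apply, Pi.zero_apply, smul_eq_mul]
          have : dif (g i) p m = 0 := by
            by_contra hne
            exact hi ((dif_support (hgc i) hpw hne).symm.trans hm)
          rw [this, mul_zero]
      · have h0 : s m = 0 := by
          by_contra hne; exact hm (hsk m hne)
        have h1 : (∑ i, b i • dif (g i) p) m = 0 := by rw [hb]; exact h0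
        rw [Finset.sum_apply] at h1
        rw [h1]
        symm
        apply Finset.sum_eq_zero
        intro i _
        by_cases hi : c i = k
        · rw [if_pos hi, Pi.smul_apply, smul_eq_mul]
          have : dif (g i) p m = 0 := by
            by_contra hne
            exact hm ((dif_support (hgc i) hpw hne).trans hi)
          rw [this, mul_zero]
        · rw [if_neg hi]; rfl
    rw [hs2]
    refine Submodule.sum_mem _ fun i _ => ?_
    split_ifs with hi
    · refine Submodule.smul_mem _ _ (Submodule.subset_span ⟨eqv ⟨i, hi⟩, ?_⟩)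
      simp
    · exact Submodule.zero_mem _

/-- division of `f - f(z - T y)` by `T`. -/
theorem exists_quot {σ : Type*} (T : MvPolynomial σ ℂ) (y : σ → ℂ) (f : MvPolynomial σ ℂ) :
    ∃ G, f = aeval (fun i => X i - C (y i) * T) f + T * G := by
  let J : Ideal (MvPolynomial σ ℂ) := Ideal.span {T}
  have h : (Ideal.Quotient.mkₐ ℂ J).comp (aeval fun i => X i - C (y i) * T) =
      Ideal.Quotient.mkₐ ℂ J := by
    apply MvPolynomial.algHom_ext
    intro i
    rw [AlgHom.comp_apply, aeval_X, map_sub, map_mul]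
    have : Ideal.Quotient.mkₐ ℂ J T = 0 :=
      Ideal.Quotient.eq_zero_iff_mem.2 (Ideal.mem_span_singleton_self T)
    rw [this, mul_zero, sub_zero]
  have h1 := congrArg (fun φ => φ f) h
  simp only [AlgHom.comp_apply] at h1
  have h2 : f - aeval (fun i => X i - C (y i) * T) f ∈ J := by
    rw [← Ideal.Quotient.eq]
    exact h1.symm
  obtain ⟨G, hG⟩ := Ideal.mem_span_singleton'.1 h2
  exact ⟨G, by rw [mul_comm T G, hG]; ring⟩

/-- the index set of the auxiliary equations. -/
abbrev IdxA (w : ι → ℤ) (r : ℕ) (k : ℤ) (i0 : ι) : Type _ :=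
  {i // w i ≠ 0} ⊕ (Fin r ⊕ ({i // w i = k} ⊕ (Fin r ⊕ {i // w i ≠ 0 ∧ i ≠ i0})))

theorem card_IdxA (w : ι → ℤ) (r : ℕ) (k : ℤ) (i0 : ι) (hi0 : w i0 ≠ 0) :
    Fintype.card (IdxA w r k i0) + 2 * Fintype.card {i // w i = 0} + 1 =
      2 * r + Fintype.card {i // w i = k} + 2 * Fintype.card ι := by
  have h1 : Fintype.card {i // w i ≠ 0} + Fintype.card {i // w i = 0} = Fintype.card ι := by
    have := Fintype.card_subtype_compl (fun i => w i = 0)
    have h2 := Fintype.card_subtype_le (fun i => w i = 0)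
    have h3 : Fintype.card {i // w i ≠ 0} = Fintype.card {i // ¬ w i = 0} := rfl
    omega
  have h2 : Fintype.card {i // w i ≠ 0 ∧ i ≠ i0} + 1 = Fintype.card {i // w i ≠ 0} := by
    rw [Fintype.card_subtype, Fintype.card_subtype]
    have : (Finset.univ.filter fun i => w i ≠ 0 ∧ i ≠ i0) =
        (Finset.univ.filter fun i => w i ≠ 0).erase i0 := by
      ext i; simp [and_comm]
    rw [this, Finset.card_erase_add_one (by simp [hi0])]
  simp only [IdxA, Fintype.card_sum, Fintype.card_fin]
  omega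

/-- J4 (statement a1 of Case A) -/
theorem conormal_supported {I : Ideal (MvPolynomial ι ℂ)} {r : ℕ} (hI : Smooth I r)
    (w : ι → ℤ) (hw : ∀ t : ℂ, t ≠ 0 → ∀ x ∈ cone I, act w t x ∈ cone I)
    (hnd : ∀ s : ι → ℂ, (∀ x ∈ cone I, s ⬝ᵥ x = 0) → s = 0)
    (hbig : ∀ k : ℤ, k ≠ 0 → 2 * r + Fintype.card {i // w i = k} < Fintype.card {i // w i = 0})
    {p : ι → ℂ} (hp : p ∈ cone I) (hp0 : p ≠ 0) (hpw : ∀ i, p i ≠ 0 → w i = 0)
    {s : ι → ℂ} (hs : s ∈ N I p) (i : ι) (hi : s i ≠ 0) : w i = 0 := by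
  classical
  by_contra hk0
  -- pass to the component of weight `k`
  obtain ⟨k, hk⟩ : ∃ k, w i = k := ⟨_, rfl⟩
  rw [hk] at hk0
  obtain ⟨f0, hf0, hf0s⟩ := mem_N.1 hs
  have hf1 : weightedHomogeneousComponent w k f0 ∈ I := wcomp_mem hI.prime w hw hf0 k
  obtain ⟨s', hs'⟩ : ∃ s', s' = dif (weightedHomogeneousComponent w k f0) p := ⟨_, rfl⟩
  have hs'i : s' i ≠ 0 := by
    rw [hs', dif_wcomp w hpw f0 hk, hf0s]; exact hi
  have hs'k : ∀ j, s' j ≠ 0 → w j = k := by
    intro j hj
    rw [hs'] at hj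
    exact dif_support (weightedHomogeneousComponent_isWeightedHomogeneous k f0) hpw hj
  have hs'N : s' ∈ N I p := mem_N.2 ⟨_, hf1, hs'.symm⟩
  clear hs hi hf0s hs' hf1 hf0
  -- the point `y`
  obtain ⟨y, hy, hsy⟩ : ∃ y ∈ cone I, s' ⬝ᵥ y ≠ 0 := by
    by_contra hc
    push Not at hc
    exact hs'i (congrFun (hnd s' hc) i)
  obtain ⟨i0, -, hi0⟩ := Finset.exists_ne_zero_of_sum_ne_zero (by simpa [dotProduct] using hsy)
  have hi0k : w i0 = k := hs'k i0 (left_ne_zero_of_mul hi0)
  have hyi0 : y i0 ≠ 0 := right_ne_zero_of_mul hi0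
  have hy0 : y ≠ 0 := fun e => hyi0 (congrFun e i0)
  have hi0w : w i0 ≠ 0 := by rw [hi0k]; exact hk0
  -- frames
  obtain ⟨g, lg, hg, hgd, hgli, -⟩ := exists_frame hI hp hp0
  obtain ⟨h, lh, hh, hhd, hhli, -⟩ := exists_frame hI hy hy0
  obtain ⟨e, q, l, hq, hqd, hqk, hmat, hsq⟩ := exists_subframe hI hw hp hp0 hpw hs'N hs'k
  choose d hd using hqd
  have hcr := cramer_id (fun i => dif (q i) p) l (matAt q l p) (fun i j => rfl) _ hsq
  -- the equations
  let E : IdxA w r k i0 → MvPolynomial (ι ⊕ ι) ℂ :=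
    Sum.elim (fun i => X (Sum.inl i.1)) (Sum.elim (fun j => rename Sum.inl (g j))
      (Sum.elim (fun i => rename Sum.inl (Q q l (linf s') (Pi.single i.1 1)))
        (Sum.elim (fun j => rename Sum.inr (h j))
          (fun i => C (y i0) * X (Sum.inr i.1) - C (y i.1) * X (Sum.inr i0)))))
  have hE1 : ∀ a, ∃ d, (E a).IsHomogeneous d := by
    rintro (a | a | a | a | a)
    · exact ⟨1, isHomogeneous_X _ _⟩
    · obtain ⟨d, hd⟩ := hgd a
      exact ⟨d, hd.rename_isHomogeneous⟩
    · exact ⟨_, (isHomogeneous_Q q d hd l (isHomogeneous_linf s') _).rename_isHomogeneous⟩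
    · obtain ⟨d, hd⟩ := hhd a
      exact ⟨d, hd.rename_isHomogeneous⟩
    · exact ⟨1, ((isHomogeneous_X _ _).C_mul _).sub ((isHomogeneous_X _ _).C_mul _)⟩
  have hev1 : ∀ (u : ι ⊕ ι → ℂ) (f : MvPolynomial ι ℂ),
      eval u (rename Sum.inl f) = eval (u ∘ Sum.inl) f := fun u f => eval_rename _ _ _
  have hev2 : ∀ (u : ι ⊕ ι → ℂ) (f : MvPolynomial ι ℂ),
      eval u (rename Sum.inr f) = eval (u ∘ Sum.inr) f := fun u f => eval_rename _ _ _
  have hE2 : ∀ a, eval (Sum.elim p y) (E a) = 0 := by
    rintro (a | a | a | a | a)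
    · change eval (Sum.elim p y) (X (Sum.inl a.1)) = 0
      rw [eval_X, Sum.elim_inl]
      by_contra hne
      exact a.2 (hpw _ hne)
    · change eval (Sum.elim p y) (rename Sum.inl (g a)) = 0
      rw [hev1, Sum.elim_comp_inl]
      exact hp _ (hg a)
    · change eval (Sum.elim p y) (rename Sum.inl (Q q l (linf s') (Pi.single a.1 1))) = 0
      rw [hev1, Sum.elim_comp_inl, eval_Q, dif_linf, hcr, sub_self, zero_dotProduct]
    · change eval (Sum.elim p y) (rename Sum.inr (h a)) = 0
      rw [hev2, Sum.elim_comp_inr]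
      exact hy _ (hh a)
    · change eval (Sum.elim p y) (C (y i0) * X (Sum.inr a.1) - C (y a.1) * X (Sum.inr i0)) = 0
      simp only [map_sub, map_mul, eval_C, eval_X, Sum.elim_inr]
      ring
  obtain ⟨P, hP, hPh, hPE, hPpy, hPdim⟩ := exists_component E hE1 (Sum.elim p y) hE2
  -- membership of the ideal
  have hI1 : ∀ f ∈ I, rename Sum.inl f ∈ P := by
    intro f hf
    obtain ⟨u, hu, huf⟩ := L0 hI g hg hp hp0 hgli hf
    have h1 : Ideal.span (Set.range g) ≤ P.comap (rename Sum.inl : MvPolynomial ι ℂ →ₐ[ℂ] _) := by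
      rw [Ideal.span_le]
      rintro _ ⟨j, rfl⟩
      exact hPE (Sum.inr (Sum.inl j))
    have h2 : rename Sum.inl (u * f) ∈ P := h1 huf
    rw [map_mul] at h2
    refine (hP.mem_or_mem h2).resolve_left fun h3 => hu ?_
    have := hPpy _ h3
    rwa [hev1, Sum.elim_comp_inl] at this
  have hI2 : ∀ f ∈ I, rename Sum.inr f ∈ P := by
    intro f hf
    obtain ⟨u, hu, huf⟩ := L0 hI h hh hy hy0 hhli hf
    have h1 : Ideal.span (Set.range h) ≤ P.comap (rename Sum.inr : MvPolynomial ι ℂ →ₐ[ℂ] _) := by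
      rw [Ideal.span_le]
      rintro _ ⟨j, rfl⟩
      exact hPE (Sum.inr (Sum.inr (Sum.inr (Sum.inl j))))
    have h2 : rename Sum.inr (u * f) ∈ P := h1 huf
    rw [map_mul] at h2
    refine (hP.mem_or_mem h2).resolve_left fun h3 => hu ?_
    have := hPpy _ h3
    rwa [hev2, Sum.elim_comp_inr] at this
  have hc1 : ∀ u ∈ cone P, u ∘ Sum.inl ∈ cone I := by
    intro u hu f hf
    rw [← hev1]; exact hu _ (hI1 f hf)
  have hc2 : ∀ u ∈ cone P, u ∘ Sum.inr ∈ cone I := by
    intro u hu f hf
    rw [← hev2]; exact hu _ (hI2 f hf)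
  have hc0 : ∀ u ∈ cone P, ∀ j, w j ≠ 0 → u (Sum.inl j) = 0 := by
    intro u hu j hj
    have := hu _ (hPE (Sum.inl ⟨j, hj⟩))
    simpa [E] using this
  have hcM : ∀ u ∈ cone P, ∀ j, w j ≠ 0 → y i0 * u (Sum.inr j) = y j * u (Sum.inr i0) := by
    intro u hu j hj
    by_cases hji : j = i0
    · rw [hji]
    have := hu _ (hPE (Sum.inr (Sum.inr (Sum.inr (Sum.inr ⟨j, hj, hji⟩)))))
    simp only [E, Sum.elim_inr, map_sub, map_mul, eval_C, eval_X] at this
    exact sub_eq_zero.1 this
  -- the dimension count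
  have hcard := card_IdxA w r k i0 hi0w
  have hb := hbig k hk0
  let B : {i // w i = 0} ⊕ Unit → MvPolynomial (ι ⊕ ι) ℂ :=
    Sum.elim (fun i => X (Sum.inl i.1) - X (Sum.inr i.1)) (fun _ => X (Sum.inr i0))
  have hB0 : ∀ b, eval (0 : ι ⊕ ι → ℂ) (B b) = 0 := by
    rintro (b | b) <;> simp [B]
  have hdim : (Fintype.card ({i // w i = 0} ⊕ Unit) : WithBot ℕ∞) <
      ringKrullDim (MvPolynomial (ι ⊕ ι) ℂ ⧸ P) := by
    by_contra hcon
    push Not at hcon
    have h1 : ((Fintype.card (ι ⊕ ι) : ℕ) : WithBot ℕ∞) ≤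
        ((Fintype.card ({i // w i = 0} ⊕ Unit) + Fintype.card (IdxA w r k i0) : ℕ) :
          WithBot ℕ∞) := by
      refine hPdim.trans ?_
      push_cast
      exact add_le_add_left hcon _
    have h2 : Fintype.card (ι ⊕ ι) ≤
        Fintype.card ({i // w i = 0} ⊕ Unit) + Fintype.card (IdxA w r k i0) := by
      exact_mod_cast h1
    rw [Fintype.card_sum, Fintype.card_sum, Fintype.card_unit] at h2
    omega
  obtain ⟨u, hu, hu0, huB⟩ := exists_ne_zero P hP hPh B hB0 hdim
  have huτ : u (Sum.inr i0) = 0 := by simpa [B] using huB (Sum.inr ())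
  obtain ⟨x, hx⟩ : ∃ x, x = u ∘ Sum.inl := ⟨_, rfl⟩
  have hxz : u ∘ Sum.inr = x := by
    funext j
    rw [hx, Function.comp_apply, Function.comp_apply]
    by_cases hj : w j = 0
    · have := huB (Sum.inl ⟨j, hj⟩)
      simp only [B, Sum.elim_inl, map_sub, eval_X] at this
      exact (sub_eq_zero.1 this).symm
    · rw [hc0 u hu j hj]
      have := hcM u hu j hj
      rw [huτ, mul_zero] at this
      exact (mul_eq_zero.1 this).resolve_left hyi0
  have hxI : x ∈ cone I := by rw [hx]; exact hc1 u hu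
  have hx0 : x ≠ 0 := by
    intro h0
    apply hu0
    funext j
    rcases j with j | j
    · have := congrFun (hx.symm.trans h0) j
      simpa using this
    · have := congrFun (hxz.trans h0) j
      simpa using this
  have hxw : ∀ j, x j ≠ 0 → w j = 0 := by
    intro j hj
    by_contra hne
    apply hj
    rw [hx]; exact hc0 u hu j hne
  have hxi0 : x i0 = 0 := by rw [← hxz]; exact huτ
  -- (c) `s'` is conormal at `x`
  have hsN : ∀ v ∈ cone P, (matAt q l (v ∘ Sum.inl)).det ≠ 0 → s' ∈ N I (v ∘ Sum.inl) := by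
    intro v hv hdet
    have hvw : ∀ j, (v ∘ Sum.inl) j ≠ 0 → w j = 0 := by
      intro j hj
      by_contra hne
      exact hj (hc0 v hv j hne)
    have h1 : (matAt q l (v ∘ Sum.inl)).det • s' = ∑ i, (∑ j, (s' ⬝ᵥ l j) *
        (matAt q l (v ∘ Sum.inl)).adjugate j i) • dif (q i) (v ∘ Sum.inl) := by
      funext m
      by_cases hm : w m = k
      · have h2 := hv _ (hPE (Sum.inr (Sum.inr (Sum.inl ⟨m, hm⟩))))
        simp only [E, Sum.elim_inr, Sum.elim_inl] at h2
        rw [hev1, eval_Q, dif_linf, dotProduct_single, mul_one] at h2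
        exact sub_eq_zero.1 h2
      · rw [Pi.smul_apply, Finset.sum_apply]
        have h3 : s' m = 0 := by
          by_contra hne; exact hm (hs'k m hne)
        rw [h3, smul_zero]
        symm
        apply Finset.sum_eq_zero
        intro j _
        rw [Pi.smul_apply]
        have : dif (q j) (v ∘ Sum.inl) m = 0 := by
          by_contra hne
          exact hm (dif_support (hqk j) hvw hne)
        rw [this, smul_zero]
    have h2 : s' = (matAt q l (v ∘ Sum.inl)).det⁻¹ • ((matAt q l (v ∘ Sum.inl)).det • s') := by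
      rw [smul_smul, inv_mul_cancel₀ hdet, one_smul]
    rw [h2, h1]
    refine Submodule.smul_mem _ _ (Submodule.sum_mem _ fun j _ => Submodule.smul_mem _ _ ?_)
    exact mem_N.2 ⟨q j, hq j, rfl⟩
  have hDP : rename Sum.inl (mat q l).det ∉ P := by
    intro hm
    have := hPpy _ hm
    rw [hev1, Sum.elim_comp_inl, eval_det_mat, hmat, Matrix.det_one] at this
    exact one_ne_zero this
  obtain ⟨g', l', hg', -, -, hmat'⟩ := exists_frame hI hxI hx0
  have hdet' : (matAt g' l' x).det ≠ 0 := by rw [hmat']; simp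
  have hQ' : ∀ v : ι → ℂ, rename Sum.inl (Q g' l' (linf s') v) ∈ P := by
    intro v
    have h1 : rename Sum.inl ((mat q l).det * Q g' l' (linf s') v) ∈ P := by
      apply mem_of_cone hP
      intro a ha
      rw [hev1, map_mul]
      by_cases hd0 : (matAt q l (a ∘ Sum.inl)).det = 0
      · rw [eval_det_mat, hd0, zero_mul]
      · rw [eval_Q, dif_linf, frame_id hI g' hg' l' hxI hx0 hdet' (hc1 a ha) (hsN a ha hd0),
          sub_self, zero_dotProduct, mul_zero]
    rw [map_mul] at h1
    exact (hP.mem_or_mem h1).resolve_left hDP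
  have hsx : s' ∈ N I x := by
    have h1 : s' = ∑ i, (∑ j, (s' ⬝ᵥ l' j) * (matAt g' l' x).adjugate j i) • dif (g' i) x := by
      funext m
      have h2 := hu _ (hQ' (Pi.single m 1))
      rw [hev1, ← hx, eval_Q, dif_linf, dotProduct_single, mul_one] at h2
      have h3 := sub_eq_zero.1 h2
      rwa [hmat', Matrix.det_one, one_smul, ← hmat'] at h3
    rw [h1]
    refine Submodule.sum_mem _ fun j _ => Submodule.smul_mem _ _ ?_
    exact mem_N.2 ⟨g' j, hg' j, rfl⟩
  -- (d)
  obtain ⟨F0, hF0, hF0s⟩ := mem_N.1 hsx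
  obtain ⟨F, hF⟩ : ∃ F, F = weightedHomogeneousComponent w k F0 := ⟨_, rfl⟩
  have hFI : F ∈ I := by rw [hF]; exact wcomp_mem hI.prime w hw hF0 k
  have hFk : IsWeightedHomogeneous w F k := by
    rw [hF]; exact weightedHomogeneousComponent_isWeightedHomogeneous k F0
  have hFs : dif F x = s' := by
    funext m
    by_cases hm : w m = k
    · rw [hF, dif_wcomp w hxw F0 hm, hF0s]
    · have h3 : s' m = 0 := by
        by_contra hne; exact hm (hs'k m hne)
      rw [h3]
      by_contra hne
      exact hm (dif_support hFk hxw hne)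
  obtain ⟨T, hT⟩ : ∃ T : MvPolynomial ι ℂ, T = C (y i0)⁻¹ * X i0 := ⟨_, rfl⟩
  have hTe : ∀ z : ι → ℂ, eval z T = (y i0)⁻¹ * z i0 := by
    intro z; rw [hT, map_mul, eval_C, eval_X]
  obtain ⟨G, hG⟩ := exists_quot T y F
  have hφ : ∀ z : ι → ℂ, eval z (aeval (fun i => X i - C (y i) * T) F) =
      eval (fun i => z i - y i * ((y i0)⁻¹ * z i0)) F := by
    intro z
    have : (eval z).comp ((aeval (fun i => X i - C (y i) * T) :
        MvPolynomial ι ℂ →ₐ[ℂ] MvPolynomial ι ℂ) : MvPolynomial ι ℂ →+* MvPolynomial ι ℂ) =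
        eval (fun i => z i - y i * ((y i0)⁻¹ * z i0)) := by
      apply MvPolynomial.ringHom_ext
      · intro c; simp
      · intro j
        simp only [RingHom.comp_apply, RingHom.coe_coe, aeval_X, map_sub, map_mul, eval_X, eval_C,
          hTe]
    exact congrArg (fun φ => φ F) this
  have hTP : rename Sum.inr T ∉ P := by
    intro hm
    have := hPpy _ hm
    rw [hev2, Sum.elim_comp_inr, hTe, inv_mul_cancel₀ hyi0] at this
    exact one_ne_zero this
  have hGP : rename Sum.inr G ∈ P := by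
    have h1 : rename Sum.inr (T * G) ∈ P := by
      apply mem_of_cone hP
      intro a ha
      rw [hev2]
      have h2 : eval (a ∘ Sum.inr) F = 0 := hc2 a ha F hFI
      have h3 : eval (a ∘ Sum.inr) (aeval (fun i => X i - C (y i) * T) F) = 0 := by
        rw [hφ]
        refine eval_eq_zero_of_weight hFk ?_ hk0
        intro j hj
        by_contra hne
        apply hj
        have h4 := hcM a ha j hne
        simp only [Function.comp_apply]
        have : a (Sum.inr j) = y j * ((y i0)⁻¹ * a (Sum.inr i0)) := by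
          field_simp
          rw [mul_comm]; exact h4
        rw [this, sub_self]
      rw [hG, map_add, h3, zero_add] at h2
      exact h2
    rw [map_mul] at h1
    exact (hP.mem_or_mem h1).resolve_left hTP
  have hGx : eval x G = 0 := by
    have := hu _ hGP
    rwa [hev2, hxz] at this
  -- derivative along `y`
  have hln : (ln x y F).coeff 1 = s' ⬝ᵥ y := by rw [coeff_one_ln, hFs]
  have hlnφ : ln x y (aeval (fun i => X i - C (y i) * T) F) = Polynomial.C (eval x F) := by
    apply Polynomial.funext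
    intro t
    rw [eval_ln, hφ, Polynomial.eval_C]
    congr 2
    funext j
    simp only [Pi.add_apply, Pi.smul_apply, smul_eq_mul, hxi0]
    field_simp
    ring
  have hlnT : ln x y T = Polynomial.X := by
    apply Polynomial.funext
    intro t
    rw [eval_ln, hTe, Polynomial.eval_X]
    simp only [Pi.add_apply, Pi.smul_apply, smul_eq_mul, hxi0]
    field_simp
    ring
  rw [hG, map_add, map_mul, hlnφ, hlnT, Polynomial.coeff_add, Polynomial.coeff_C_of_ne_zero one_ne_zero,
    zero_add, Polynomial.coeff_X_mul, coeff_zero_ln, hGx] at hln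
  exact hsy hln.symm

end H89.Hart
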