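import Pool.Agent.H89.Hart.LemmaA

/-! Case B, first steps. -/

open MvPolynomial Filter Topology

set_option linter.unusedSectionVars false
set_option linter.unusedSimpArgs false

namespace H89.Hart

variable {ι : Type*} [Fintype ι] [DecidableEq ι]

theorem sum_wc (v : ι → ℤ) (f : MvPolynomial ι ℂ) :
    f = ∑ c ∈ f.support.image (Finsupp.weight v), weightedHomogeneousComponent v c f := by
  classical
  ext m
  rw [coeff_sum]
  simp only [coeff_weightedHomogeneousComponent]
  by_cases hm : m ∈ f.support
  · rw [Finset.sum_eq_single (Finsupp.weight v m)]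
    · simp
    · intro b _ hb; simp [Ne.symm hb]
    · intro h; exact absurd (Finset.mem_image_of_mem _ hm) h
  · rw [notMem_support_iff.1 hm]; simp

/-- the differential of a weighted component at a fixed point. -/
theorem dif_wc {v : ι → ℤ} (f : MvPolynomial ι ℂ) {p : ι → ℂ} (hp : ∀ i, p i ≠ 0 → v i = 0)
    (c : ℤ) : dif (weightedHomogeneousComponent v c f) p = cmp v c (dif f p) := by
  classical
  funext i
  by_cases hi : v i = c
  · rw [cmp, if_pos hi]
    conv_rhs => rw [sum_wc v f, dif_sum, Finset.sum_apply]
    by_cases hc : c ∈ f.support.image (Finsupp.weight v)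
    · rw [Finset.sum_eq_single c]
      · intro b _ hb
        by_contra hne
        have := dif_support (weightedHomogeneousComponent_isWeightedHomogeneous b f) hp hne
        exact hb (this.symm.trans hi)
      · intro h; exact absurd hc h
    · rw [Finset.sum_eq_zero]
      · have : weightedHomogeneousComponent v c f = 0 := by
          rw [weightedHomogeneousComponent_apply]
          apply Finset.sum_eq_zero
          intro d hd
          rw [Finset.mem_filter] at hd
          exact absurd (Finset.mem_image.2 ⟨d, hd.1, hd.2⟩) hc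
        rw [this, dif_zero]; rfl
      · intro b hb
        by_contra hne
        have := dif_support (weightedHomogeneousComponent_isWeightedHomogeneous b f) hp hne
        exact hc ((this.symm.trans hi) ▸ hb)
  · rw [cmp, if_neg hi]
    by_contra hne
    exact hi (dif_support (weightedHomogeneousComponent_isWeightedHomogeneous c f) hp hne)

section low

variable {I : Ideal (MvPolynomial ι ℂ)} {r : ℕ} {w : ι → ℤ} {D : ℤ} {a : ι → ℂ}
  {g : Fin r → MvPolynomial ι ℂ} {c : Fin r → ℤ}

/-- dimension count through one of the pairings. -/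
theorem LowFrame.card_le (F : LowFrame I r w D a g c)
    (h3 : 3 * r ≤ Fintype.card {i // 0 < w i} + 1) (i : Fin r) (p q : ι → Prop)
    [DecidablePred p] [DecidablePred q] (hp : ∀ k, p k → 0 < w k)
    (hpq : ∀ k l, p k → w k + w l + 2 * D = c i → q l) :
    Fintype.card {k // p k} ≤ Fintype.card {l // q l} + r := by
  have h1 := finrank_cut (V p) (fun i => dif (g i) a)
  have h2 : Module.finrank ℂ (cut (V p) (fun i => dif (g i) a)) ≤ Module.finrank ℂ (V q) := by
    refine finrank_le_of_inj (bet g a (Pi.single i 1)) ?_ ?_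
    · intro x hx l hl
      rw [bet_single] at hl
      obtain ⟨k, hk, hkl⟩ := hess_support (F.gw i) F.supp0 hl
      exact hpq k l (hx.1 k hk) (by omega)
    · intro x hx h0
      by_contra hx0
      have hxU : x ∈ LU w g a := mem_LU.2 ⟨fun k hk => hp k (hx.1 k hk), hx.2⟩
      have := F.nondeg h3 hxU hx0 h0
      have h5 := congrFun this i
      simp at h5
  rw [finrank_V] at h1 h2
  omega

theorem LowFrame.card_gt_le (F : LowFrame I r w D a g c)
    (h3 : 3 * r ≤ Fintype.card {i // 0 < w i} + 1) (i : Fin r) {j : ℤ} (hj0 : 0 ≤ j)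
    (hj : c i ≤ j + D) : Fintype.card {k // j < w k} ≤ r := by
  have h1 := finrank_cut (V fun k => j < w k) (fun i => dif (g i) a)
  have h2 : cut (V fun k => j < w k) (fun i => dif (g i) a) = ⊥ := by
    rw [Submodule.eq_bot_iff]
    intro u hu
    by_contra hu0
    obtain ⟨m, hm⟩ : ∃ m, u m ≠ 0 := by
      by_contra hc; push Not at hc; exact hu0 (funext hc)
    have hU : u ∈ LU w g a := mem_LU.2 ⟨fun k hk => by have := hu.1 k hk; omega, hu.2⟩
    have hu' := F.cmp_mem hU (w m)
    have hu'0 : cmp w (w m) u ≠ 0 := by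
      intro h; apply hm; have := congrFun h m; simpa [cmp] using this
    have hsupp : ∀ i, cmp w (w m) u i ≠ 0 → w i = w m := H89.Hart.cmp_mem w (w m) u
    have h4 := F.weights_ge h3 hu' hu'0 hsupp i
    have h5 := hu.1 m hm
    omega
  rw [h2, finrank_bot, finrank_V] at h1
  omega

/-- minimal positive weight -/
theorem LowFrame.exists_jmin (F : LowFrame I r w D a g c) :
    ∃ j : ℤ, 0 < j ∧ (∃ i, w i = j) ∧ ∀ i, 0 < w i → j ≤ w i := by
  obtain ⟨k, hk⟩ := F.setup.top
  have hne : (Finset.univ.filter fun i => 0 < w i).Nonempty :=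
    ⟨k, by simp [hk, F.setup.hD]⟩
  obtain ⟨i, hi, himin⟩ := Finset.exists_min_image _ w hne
  rw [Finset.mem_filter] at hi
  exact ⟨w i, hi.2, ⟨i, rfl⟩, fun k hk => himin k (by simp [hk])⟩

/-- B1: the conormal space at the lowest points is of weight `D`. -/
theorem LowFrame.all_top (F : LowFrame I r w D a g c) {b : ι → ℂ}
    {g' : Fin r → MvPolynomial ι ℂ} {c' : Fin r → ℤ} (F' : LowFrame I r (fun i => -w i) D b g' c')
    (h6 : 6 * r < Fintype.card {i // 0 < w i})
    (h3' : 3 * r ≤ Fintype.card {i // 0 < -w i} + 1) (i : Fin r) : c i = 2 * D := by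
  have hr := F.setup.rpos
  have h3 : 3 * r ≤ Fintype.card {i // 0 < w i} + 1 := by omega
  by_contra hne
  have hci1 := F.c_le i
  have hci2 := F.c_gt h3 i
  obtain ⟨j, hj, hjm, hmin⟩ := F.exists_jmin
  obtain ⟨u, hu, hu0, huj⟩ := F.exists_min h3 hj hjm hmin
  have hjc := F.weights_ge h3 hu hu0 huj i
  set e : ℤ := 2 * D - c i with he
  have he0 : 0 < e := by omega
  -- the vector `s'`
  set s' := hess (g i) a u with hs'
  have hs'0 : s' ≠ 0 := by
    intro h
    have := F.nondeg h3 hu hu0 (z := Pi.single i 1) (by rw [bet_single, ← hs', h])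
    have h5 := congrFun this i
    simp at h5
  have hs'N : s' ∈ N I u := by
    have := F.bet_mem hu hu0 (Pi.single i 1)
    rwa [bet_single] at this
  have hs'w : ∀ l, s' l ≠ 0 → w l = -(j + e) := by
    intro l hl
    obtain ⟨k, hk, hkl⟩ := hess_support (F.gw i) F.supp0 hl
    have := huj k hk
    omega
  obtain ⟨f, hf, hfs⟩ := mem_N.1 hs'N
  have hu' : ∀ i, u i ≠ 0 → w i - j = 0 := fun i hi => by have := huj i hi; omega
  set f' := weightedHomogeneousComponent (fun i => w i - j) (-(2 * j + e)) f with hf'
  have hf'I : f' ∈ I := wcomp_mem F.setup.smooth.prime _ (F.setup.stab' j) hf _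
  have hf'w : IsWeightedHomogeneous (fun i => w i - j) f' (-(2 * j + e)) :=
    weightedHomogeneousComponent_isWeightedHomogeneous _ _
  have hf'd : dif f' u = s' := by
    rw [hf', dif_wc f hu', hfs]
    funext l
    by_cases hl : s' l = 0
    · rw [cmp]; split_ifs <;> simp [hl]
    · rw [cmp, if_pos]
      have := hs'w l hl
      omega
  have hb : ∀ i, b i ≠ 0 → w i = D := fun i hi => by have := F'.supp i hi; omega
  have hline : ∀ t : ℂ, dif f' (u + t • b) = s' := by
    intro t
    rw [← hf'd]
    funext l
    have h1 : IsWeightedHomogeneous (fun i => w i - j) (pderiv l f')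
        (-(2 * j + e) - (w l - j)) := hf'w.pderiv (by ring)
    refine eval_line_const h1 (θ := D - j) (fun k hk => (hu' k hk).ge) (fun k hk => ?_) (by omega)
      ?_ t
    · have := hb k hk; omega
    · have := F.setup.ge l; omega
  have hcone : ∀ t : ℂ, u + t • b ∈ cone I := by
    intro t
    apply F.pos_sub h3
    intro k hk
    by_cases huk : u k = 0
    · have hbk : b k ≠ 0 := by intro h; apply hk; simp [huk, h]
      have := hb k hbk; have := F.setup.hD; omega
    · have := huj k huk; omega
  have hs'b : s' ∈ N I b := by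
    refine (mem_N_of_tendsto F.setup.smooth F'.ne (tendsto_smul_add u b)
      (tendsto_const_nhds (x := s')) ?_).2
    filter_upwards [self_mem_nhdsWithin] with τ hτ
    have e1 : τ • (u + τ⁻¹ • b) = τ • u + b := by
      rw [smul_add, smul_smul, mul_inv_cancel₀ hτ, one_smul]
    rw [← e1]
    refine ⟨smul_mem_cone F.setup.smooth (hcone _) τ, N_smul F.setup.smooth hτ ?_⟩
    exact mem_N.2 ⟨f', hf'I, hline _⟩
  -- the mirrored frame sees this weight
  obtain ⟨l, hl⟩ : ∃ l, s' l ≠ 0 := by
    by_contra hc; push Not at hc; exact hs'0 (funext hc)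
  obtain ⟨i', hi'⟩ : ∃ i', dif (g' i') b l ≠ 0 := by
    have hspan := span_dif_eq (F'.setup.smooth.rank b F'.mem F'.ne) g' F'.gI F'.li
    rw [← hspan] at hs'b
    obtain ⟨z, hz⟩ := (Submodule.mem_span_range_iff_exists_fun ℂ).1 hs'b
    by_contra hc
    push Not at hc
    apply hl
    rw [← hz, Finset.sum_apply]
    exact Finset.sum_eq_zero fun k _ => by simp [hc k]
  have hc' := dif_support (F'.gw i') F'.supp0 hi'
  have hlw := hs'w l hl
  have hc'' : c' i' = j + e + D := by
    omega
  -- counting
  have n1 := F'.card_gt_le h3' i' (j := j + e) (by omega) (by omega)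
  have n2 := F.card_le h3 i (fun k => j < w k) (fun l => j + e < -w l) (fun k hk => by omega)
    (fun k l hk hkl => by omega)
  have n3 := F.card_le h3 i (fun k => w k = j) (fun l => -w l = j + e) (fun k hk => by omega)
    (fun k l hk hkl => by omega)
  obtain ⟨i'', hi''⟩ := F'.exists_top h3'
  have n4 := F'.card_le h3' i'' (fun k => -w k = j + e) (fun l => w l = j + e)
    (fun k hk => by omega) (fun k l hk hkl => by omega)
  have n5 : Fintype.card {k // w k = j + e} ≤ Fintype.card {k // j < w k} :=
    Fintype.card_subtype_mono _ _ (fun k hk => by have : w k = j + e := hk; change j < w k; omega)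
  have n6 : Fintype.card {k // 0 < w k} ≤
      Fintype.card {k // w k = j} + Fintype.card {k // j < w k} := by
    refine (Fintype.card_subtype_mono (fun k => 0 < w k) (fun k => w k = j ∨ j < w k)
      (fun k hk => ?_)).trans (Fintype.card_subtype_or _ _)
    have := hmin k hk
    change w k = j ∨ j < w k
    omega
  omega

end low

end H89.Hart
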