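import Pool.Agent.H89.Hart.CaseB1

/-! Case B, the pencils. -/

open MvPolynomial Filter Topology

set_option linter.unusedSectionVars false
set_option linter.unusedSimpArgs false

namespace H89.Hart

variable {ι : Type*} [Fintype ι] [DecidableEq ι]

theorem single_ne_zero' {r : ℕ} (i : Fin r) : (Pi.single i 1 : Fin r → ℂ) ≠ 0 := by
  intro h; have := congrFun h i; simp at this

theorem card_le_of_nondeg {r : ℕ} (hr : 1 ≤ r) {p q : ι → Prop} [DecidablePred p]
    [DecidablePred q] (β : (Fin r → ℂ) →ₗ[ℂ] V p →ₗ[ℂ] V q)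
    (h : ∀ z u, z ≠ 0 → u ≠ 0 → β z u ≠ 0) :
    Fintype.card {i // p i} ≤ Fintype.card {i // q i} := by
  rw [← finrank_V p, ← finrank_V q]
  refine LinearMap.finrank_le_finrank_of_injective (f := β (Pi.single ⟨0, hr⟩ 1)) ?_
  rw [← LinearMap.ker_eq_bot, LinearMap.ker_eq_bot']
  intro u hu
  by_contra hu0
  exact h _ u (single_ne_zero' _) hu0 hu

theorem r_le_one_of {r : ℕ} {p q : ι → Prop} [DecidablePred p] [DecidablePred q]
    (β : (Fin r → ℂ) →ₗ[ℂ] V p →ₗ[ℂ] V q) (h : ∀ z u, z ≠ 0 → u ≠ 0 → β z u ≠ 0)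
    (hcard : Fintype.card {i // q i} ≤ Fintype.card {i // p i})
    (hpos : 0 < Fintype.card {i // p i}) : r ≤ 1 := by
  by_contra hr
  have h1 := card_le_of_nondeg (by omega) β h
  obtain ⟨z, u, hz, hu, hzu⟩ := exists_singular β
    (by rw [Module.finrank_fintype_fun_eq_card, Fintype.card_fin]; omega)
    (by rw [finrank_V, finrank_V]; omega) (by rw [finrank_V]; omega)
  exact h z u hz hu hzu

/-- restriction of the pairing -/
noncomputable def rbet {r : ℕ} (g : Fin r → MvPolynomial ι ℂ) (a : ι → ℂ) (p q : ι → Prop)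
    (h : ∀ z, ∀ u ∈ V p, bet g a z u ∈ V q) : (Fin r → ℂ) →ₗ[ℂ] V p →ₗ[ℂ] V q :=
  LinearMap.mk₂ ℂ (fun z u => ⟨bet g a z u.1, h z u.1 u.2⟩)
    (fun z z' u => Subtype.ext (by simp))
    (fun c z u => Subtype.ext (by simp))
    (fun z u u' => Subtype.ext (by simp))
    (fun c z u => Subtype.ext (by simp))

theorem rbet_apply {r : ℕ} (g : Fin r → MvPolynomial ι ℂ) (a : ι → ℂ) (p q : ι → Prop)
    (h : ∀ z, ∀ u ∈ V p, bet g a z u ∈ V q) (z : Fin r → ℂ) (u : V p) :
    (rbet g a p q h z u).1 = bet g a z u.1 := rfl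

/-- general support of the pairing at a fixed point. -/
theorem bet_support {r : ℕ} {v : ι → ℤ} {g : Fin r → MvPolynomial ι ℂ} {c : Fin r → ℤ}
    (hg : ∀ i, IsWeightedHomogeneous v (g i) (c i)) {a : ι → ℂ} (ha : ∀ i, a i ≠ 0 → v i = 0)
    {z : Fin r → ℂ} {u : ι → ℂ} {l : ι} (hl : bet g a z u l ≠ 0) :
    ∃ i k, u k ≠ 0 ∧ v k + v l = c i := by
  rw [bet_apply, Finset.sum_apply] at hl
  obtain ⟨i, -, hi⟩ := Finset.exists_ne_zero_of_sum_ne_zero hl
  have h1 : hess (g i) a u l ≠ 0 := by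
    intro h; apply hi; simp [h]
  obtain ⟨k, hk, hkl⟩ := hess_support (hg i) ha h1
  exact ⟨i, k, hk, hkl⟩

theorem mem_LU_of_top {w : ι → ℤ} {r : ℕ} {I : Ideal (MvPolynomial ι ℂ)} {D : ℤ} {a : ι → ℂ}
    {g : Fin r → MvPolynomial ι ℂ} {c : Fin r → ℤ} (F : LowFrame I r w D a g c)
    (hc : ∀ i, c i = 2 * D) {u : ι → ℂ} (hu : ∀ k, u k ≠ 0 → 0 < w k ∧ w k < D) :
    u ∈ LU w g a := by
  refine mem_LU.2 ⟨fun k hk => (hu k hk).1, fun i => ?_⟩
  apply Finset.sum_eq_zero
  intro l _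
  by_cases hl : u l = 0
  · rw [hl, mul_zero]
  · have h1 : dif (g i) a l = 0 := by
      by_contra h
      have := dif_support (F.gw i) F.supp0 h
      have h2 := hu l hl
      have h3 := hc i
      omega
    rw [h1, zero_mul]

section low

variable {I : Ideal (MvPolynomial ι ℂ)} {r : ℕ} {w : ι → ℤ} {D : ℤ} {a : ι → ℂ}
  {g : Fin r → MvPolynomial ι ℂ} {c : Fin r → ℤ}

/-- the pencil on an intermediate weight space. -/
theorem LowFrame.mid (F : LowFrame I r w D a g c)
    (h3 : 3 * r ≤ Fintype.card {i // 0 < w i} + 1) (hc : ∀ i, c i = 2 * D) {j : ℤ} (hj : 0 < j)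
    (hjD : j < D) :
    ∃ β : (Fin r → ℂ) →ₗ[ℂ] V (fun k => w k = j) →ₗ[ℂ] V (fun k => -w k = j),
      ∀ z u, z ≠ 0 → u ≠ 0 → β z u ≠ 0 := by
  refine ⟨rbet g a _ _ ?_, ?_⟩
  · intro z u hu l hl
    obtain ⟨i, k, hk, hkl⟩ := bet_support F.gw F.supp0 hl
    have h1 : w k = j := hu k hk
    have h2 := hc i
    change -w l = j
    omega
  · intro z u hz hu h0
    have h1 := congrArg Subtype.val h0
    rw [rbet_apply] at h1
    have hU : u.1 ∈ LU w g a := mem_LU_of_top F hc fun k hk => by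
      have : w k = j := u.2 k hk
      omega
    exact hz (F.nondeg h3 hU (fun h => hu (Subtype.ext h)) h1)

theorem B2 (F : LowFrame I r w D a g c) {b : ι → ℂ}
    {g' : Fin r → MvPolynomial ι ℂ} {c' : Fin r → ℤ} (F' : LowFrame I r (fun i => -w i) D b g' c')
    (h6 : 6 * r < Fintype.card {i // 0 < w i}) (h6' : 6 * r < Fintype.card {i // 0 < -w i})
    {j : ℤ} (hj : 0 < j) (hjD : j < D) (hk : ∃ k, w k = j) : r ≤ 1 := by
  have hr := F.setup.rpos
  have hF'' : ∃ a g c, LowFrame I r (fun i => - -w i) D a g c := by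
    simp only [neg_neg]; exact ⟨a, g, c, F⟩
  obtain ⟨_, _, _, F''⟩ := hF''
  have hc := fun i => F.all_top F' h6 (by omega) i
  have hc' := fun i => F'.all_top F'' h6' (by simp only [neg_neg]; omega) i
  obtain ⟨β, hβ⟩ := F.mid (by omega) hc hj hjD
  obtain ⟨β', hβ'⟩ := F'.mid (by omega) hc' hj hjD
  refine r_le_one_of β hβ ?_ ?_
  · have := card_le_of_nondeg hr β' hβ'
    simpa only [neg_neg] using this
  · obtain ⟨k, hk⟩ := hk
    exact Fintype.card_pos_iff.2 ⟨⟨k, hk⟩⟩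

/-- lowest points exist. -/
theorem Setup.exists_low (S : Setup I r w D) :
    ∃ a ∈ cone I, a ≠ 0 ∧ ∀ i, a i ≠ 0 → w i = -D := by
  obtain ⟨i₀, hi₀⟩ := S.bot
  obtain ⟨x, hx, hxi⟩ : ∃ x ∈ cone I, x i₀ ≠ 0 := by
    by_contra hc
    push Not at hc
    have := S.nd (Pi.single i₀ 1) (fun x hx => by rw [single_dotProduct, one_mul]; exact hc x hx)
    have h2 := congrFun this i₀
    simp at h2
  refine ⟨cmp w (-D) x, ?_, ?_, H89.Hart.cmp_mem w (-D) x⟩
  · have htend : Tendsto (fun t : ℂ => act (fun i => w i - (-D)) t x) (𝓝[≠] 0)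
        (𝓝 (cmp w (-D) x)) := by
      rw [tendsto_pi_nhds]
      intro i
      by_cases hi : w i = -D
      · simp only [act, cmp, hi, if_true]
        simp
      · have hpos : 0 < w i - (-D) := by have := S.ge i; omega
        obtain ⟨n, hn⟩ := Int.eq_ofNat_of_zero_le hpos.le
        have hn0 : n ≠ 0 := by rintro rfl; omega
        simp only [act, cmp, hi, if_false, hn]
        have hcont : Continuous fun t : ℂ => t ^ (n : ℤ) * x i := by
          simp only [zpow_natCast]; fun_prop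
        have := (hcont.tendsto 0).mono_left (nhdsWithin_le_nhds (s := {0}ᶜ))
        simpa [hn0] using this
    refine (isClosed_cone I).mem_of_tendsto htend ?_
    filter_upwards [self_mem_nhdsWithin] with t ht using S.stab' (-D) t ht x hx
  · intro h
    have := congrFun h i₀
    simp only [cmp, hi₀, if_true, Pi.zero_apply] at this
    exact hxi this

/-- tangency in terms of points. -/
theorem LowFrame.tan_iff (F : LowFrame I r w D a g c) {u : ι → ℂ} (hu : ∀ k, u k ≠ 0 → w k = D) :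
    (∀ φ ∈ N I a, φ ⬝ᵥ u = 0) ↔ a + u ∈ cone I := by
  have hD := F.setup.hD
  constructor
  · intro h
    have hU : u ∈ LU w g a := mem_LU.2 ⟨fun k hk => by have := hu k hk; omega,
      fun i => h _ (mem_N.2 ⟨g i, F.gI i, rfl⟩)⟩
    have := F.line hU 1
    rwa [one_smul] at this
  · intro h φ hφ
    rw [← span_dif_eq (F.setup.smooth.rank a F.mem F.ne) g F.gI F.li] at hφ
    obtain ⟨z, rfl⟩ := (Submodule.mem_span_range_iff_exists_fun ℂ).1 hφ
    rw [sum_dotProduct]
    apply Finset.sum_eq_zero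
    intro i _
    rw [smul_dotProduct]
    have h1 := eval_line_affine (F.gw i) (θ := D + 1) (a := a) (u := u)
      (fun j hj => by have := F.supp0 j hj; omega)
      (fun j hj => by have := hu j hj; omega) (by omega)
      (by have := F.c_le i; omega) 1
    rw [one_smul, h _ (F.gI i), F.mem _ (F.gI i), one_mul, zero_add] at h1
    rw [← h1, smul_zero]

/-- the part of the tangent space in `W`. -/
noncomputable def perp (I : Ideal (MvPolynomial ι ℂ)) (x : ι → ℂ) (W : Submodule ℂ (ι → ℂ)) :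
    Submodule ℂ W where
  carrier := {u | ∀ φ ∈ N I x, φ ⬝ᵥ u.1 = 0}
  add_mem' {u v} hu hv φ hφ := by
    rw [Submodule.coe_add, dotProduct_add, hu φ hφ, hv φ hφ, add_zero]
  zero_mem' φ _ := by simp
  smul_mem' c u hu φ hφ := by rw [Submodule.coe_smul, dotProduct_smul, hu φ hφ, smul_zero]

theorem mem_perp {x : ι → ℂ} {W : Submodule ℂ (ι → ℂ)} {u : W} :
    u ∈ perp I x W ↔ ∀ φ ∈ N I x, φ ⬝ᵥ u.1 = 0 := Iff.rfl

theorem finrank_perp (hI : Smooth I r) {x : ι → ℂ} (hx : x ∈ cone I) (hx0 : x ≠ 0)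
    (W : Submodule ℂ (ι → ℂ)) :
    Module.finrank ℂ W ≤ Module.finrank ℂ (perp I x W) + r := by
  obtain ⟨g, -, hg, -, hli, -⟩ := exists_frame hI hx hx0
  let φ : W →ₗ[ℂ] (Fin r → ℂ) :=
    { toFun := fun u i => dif (g i) x ⬝ᵥ u.1
      map_add' := fun x y => by funext i; simp [dotProduct_add]
      map_smul' := fun c x => by funext i; simp [dotProduct_smul] }
  have h1 := LinearMap.finrank_range_add_finrank_ker φ
  have h2 : Module.finrank ℂ (LinearMap.range φ) ≤ r := by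
    have := Submodule.finrank_le (LinearMap.range φ)
    rwa [Module.finrank_fintype_fun_eq_card, Fintype.card_fin] at this
  have h3 : LinearMap.ker φ ≤ perp I x W := by
    intro u hu ψ hψ
    rw [← span_dif_eq (hI.rank x hx hx0) g hg hli] at hψ
    obtain ⟨z, rfl⟩ := (Submodule.mem_span_range_iff_exists_fun ℂ).1 hψ
    rw [sum_dotProduct]
    apply Finset.sum_eq_zero
    intro i _
    rw [smul_dotProduct]
    have : φ u i = 0 := congrFun (LinearMap.mem_ker.1 hu) i
    change dif (g i) x ⬝ᵥ u.1 = 0 at this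
    rw [this, smul_zero]
  have h4 := Submodule.finrank_mono h3
  omega

/-- B3: the glued pencil. -/
theorem Setup.glue (S : Setup I r w D) (h01 : ∀ k, w k = D ∨ -w k = D ∨ w k = 0)
    (h6 : 6 * r < Fintype.card {i // 0 < w i}) (h6' : 6 * r < Fintype.card {i // 0 < -w i}) :
    ∃ G : (Fin r → ℂ) →ₗ[ℂ] V (fun k => w k = D) →ₗ[ℂ] V (fun k => -w k = D),
      ∀ z u, z ≠ 0 → u ≠ 0 → G z u ≠ 0 := by
  have hr := S.rpos
  have hD := S.hD
  obtain ⟨a₀, ha₀, ha₀0, ha₀s⟩ := S.exists_low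
  obtain ⟨g₀, c₀, F₀⟩ := exists_lowFrame S ha₀ ha₀0 ha₀s
  obtain ⟨b₀, hb₀, hb₀0, hb₀s⟩ := S.mirror.exists_low
  obtain ⟨g₀', c₀', F₀'⟩ := exists_lowFrame S.mirror hb₀ hb₀0 hb₀s
  have hA : ∀ a : V (fun k => -w k = D), a.1 ∈ cone I := fun a =>
    F₀'.pos_sub (by omega) (fun i hi => by have : -w i = D := a.2 i hi; omega)
  have hB : ∀ u : V (fun k => w k = D), u.1 ∈ cone I := fun u =>
    F₀.pos_sub (by omega) (fun i hi => by have : w i = D := u.2 i hi; omega)
  have hfr : ∀ a : V (fun k => -w k = D), a ≠ 0 → ∃ g c, LowFrame I r w D a.1 g c := fun a ha =>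
    exists_lowFrame S (hA a) (fun h => ha (Subtype.ext h))
      (fun i hi => by have : -w i = D := a.2 i hi; omega)
  have hfr' : ∀ u : V (fun k => w k = D), u ≠ 0 →
      ∃ g c, LowFrame I r (fun i => -w i) D u.1 g c := fun u hu =>
    exists_lowFrame S.mirror (hB u) (fun h => hu (Subtype.ext h))
      (fun i hi => by have : w i = D := u.2 i hi; omega)
  have key : ∀ a : V (fun k => -w k = D), a ≠ 0 →
      ∃ β : (Fin r → ℂ) →ₗ[ℂ] V (fun k => w k = D) →ₗ[ℂ] V (fun k => -w k = D),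
        (∀ u ∈ perp I a.1 (V fun k => w k = D), u ≠ 0 → ∀ z, β z u = 0 → z = 0) ∧
        (∀ u ∈ perp I a.1 (V fun k => w k = D), u ≠ 0 →
          ∀ v, v ∈ (N I u.1).comap (V (fun k => -w k = D)).subtype ↔ ∃ z, β z u = v) := by
    intro a ha
    obtain ⟨g, c, F⟩ := hfr a ha
    have hc := fun i => F.all_top F₀' h6 (by omega) i
    have hsup : ∀ z, ∀ u ∈ V (fun k => w k = D), bet g a.1 z u ∈ V (fun k => -w k = D) := by
      intro z u hu l hl
      obtain ⟨i, k, hk, hkl⟩ := bet_support F.gw F.supp0 hl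
      have h1 : w k = D := hu k hk
      have h2 := hc i
      change -w l = D
      omega
    have hU : ∀ u ∈ perp I a.1 (V fun k => w k = D), u.1 ∈ LU w g a.1 := fun u hu =>
      mem_LU.2 ⟨fun k hk => by have : w k = D := u.2 k hk; omega,
        fun i => hu _ (mem_N.2 ⟨g i, F.gI i, rfl⟩)⟩
    refine ⟨rbet g a.1 _ _ hsup, ?_, ?_⟩
    · intro u hu hu0 z hz
      have h1 := congrArg Subtype.val hz
      rw [rbet_apply] at h1
      exact F.nondeg (by omega) (hU u hu) (fun h => hu0 (Subtype.ext h)) h1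
    · intro u hu hu0 v
      rw [Submodule.mem_comap, Submodule.subtype_apply,
        F.N_eq (by omega) (hU u hu) (fun h => hu0 (Subtype.ext h))]
      constructor
      · rintro ⟨z, hz⟩; exact ⟨z, Subtype.ext hz⟩
      · rintro ⟨z, hz⟩; exact ⟨z, congrArg Subtype.val hz⟩
  choose! β hβ1 hβ2 using key
  refine gluing r hr (fun a : V (fun k => -w k = D) => perp I a.1 (V fun k => w k = D))
    (fun u : V (fun k => w k = D) => perp I u.1 (V fun k => -w k = D))
    (fun a ha => finrank_perp S.smooth (hA a) (fun h => ha (Subtype.ext h)) _)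
    (fun u hu => finrank_perp S.smooth (hB u) (fun h => hu (Subtype.ext h)) _) ?_
    (fun u => (N I u.1).comap (V (fun k => -w k = D)).subtype) ?_ β hβ1 hβ2 ?_ ?_
  · intro a u ha hu
    obtain ⟨g, c, F⟩ := hfr a ha
    obtain ⟨g', c', F'⟩ := hfr' u hu
    rw [mem_perp, mem_perp, F.tan_iff u.2, F'.tan_iff a.2, add_comm]
  · intro u v hu us hus hv
    have h1 : Tendsto (fun k => (us k).1) atTop (𝓝 u.1) :=
      (continuous_subtype_val.tendsto _).comp hus
    exact (mem_N_of_tendsto S.smooth (fun h => hu (Subtype.ext h)) h1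
      (tendsto_const_nhds (x := v.1)) (Eventually.of_forall fun k => ⟨hB _, hv k⟩)).2
  · rw [finrank_V]
    have : Fintype.card {i // 0 < w i} ≤ Fintype.card {i // w i = D} :=
      Fintype.card_subtype_mono _ _ (fun k hk => by
        have h1 : 0 < w k := hk
        have := h01 k
        change w k = D
        omega)
    omega
  · rw [finrank_V]
    have : Fintype.card {i // 0 < -w i} ≤ Fintype.card {i // -w i = D} :=
      Fintype.card_subtype_mono _ _ (fun k hk => by
        have h1 : 0 < -w k := hk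
        have := h01 k
        change -w k = D
        omega)
    omega

/-- Case B. -/
theorem Setup.caseB (S : Setup I r w D) (h6 : 6 * r < Fintype.card {i // 0 < w i})
    (h6' : 6 * r < Fintype.card {i // 0 < -w i}) : r ≤ 1 := by
  have hr := S.rpos
  have hD := S.hD
  obtain ⟨a₀, ha₀, ha₀0, ha₀s⟩ := S.exists_low
  obtain ⟨g₀, c₀, F₀⟩ := exists_lowFrame S ha₀ ha₀0 ha₀s
  obtain ⟨b₀, hb₀, hb₀0, hb₀s⟩ := S.mirror.exists_low
  obtain ⟨g₀', c₀', F₀'⟩ := exists_lowFrame S.mirror hb₀ hb₀0 hb₀s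
  by_cases h1 : ∃ k, 0 < w k ∧ w k < D
  · obtain ⟨k, hk1, hk2⟩ := h1
    exact B2 F₀ F₀' h6 h6' hk1 hk2 ⟨k, rfl⟩
  by_cases h2 : ∃ k, 0 < -w k ∧ -w k < D
  · obtain ⟨k, hk1, hk2⟩ := h2
    have hF'' : ∃ a g c, LowFrame I r (fun i => - -w i) D a g c := by
      simp only [neg_neg]; exact ⟨_, _, _, F₀⟩
    obtain ⟨_, _, _, F''⟩ := hF''
    exact B2 F₀' F'' h6' (by simp only [neg_neg]; exact h6) hk1 hk2 ⟨k, rfl⟩
  push Not at h1 h2
  have h01 : ∀ k, w k = D ∨ -w k = D ∨ w k = 0 := by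
    intro k
    have := h1 k; have := h2 k; have := S.le k; have := S.ge k
    omega
  obtain ⟨G, hG⟩ := S.glue h01 h6 h6'
  obtain ⟨G', hG'⟩ := S.mirror.glue (fun k => by have := h01 k; omega) h6'
    (by simp only [neg_neg]; exact h6)
  refine r_le_one_of G hG ?_ ?_
  · have := card_le_of_nondeg hr G' hG'
    simpa only [neg_neg] using this
  · obtain ⟨k, hk⟩ := S.top
    exact Fintype.card_pos_iff.2 ⟨⟨k, hk⟩⟩

end low

end H89.Hart
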