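import Pool.Agent.H89.Hart.CaseA
import Pool.Agent.H89.Hart.CaseA1

/-! The nondegenerate diagonal case. -/

open MvPolynomial Filter Topology

set_option linter.unusedSectionVars false
set_option linter.unusedSimpArgs false

namespace H89.Hart

variable {ι : Type*} [Fintype ι] [DecidableEq ι]

theorem Setup.card_bound {I : Ideal (MvPolynomial ι ℂ)} {r : ℕ} {w : ι → ℤ} {D : ℤ}
    (S : Setup I r w D) (h : 7 * r < Fintype.card {i // 0 < w i}) :
    6 * r < Fintype.card {i // 0 < -w i} := by
  have hr := S.rpos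
  obtain ⟨a₀, ha₀, ha₀0, ha₀s⟩ := S.exists_low
  obtain ⟨g₀, c₀, F₀⟩ := exists_lowFrame S ha₀ ha₀0 ha₀s
  have := F₀.card_le (by omega) ⟨0, hr⟩ (fun k => 0 < w k) (fun l => 0 < -w l) (fun k hk => hk)
    (fun k l hk hkl => by have := F₀.c_le ⟨0, hr⟩; omega)
  omega

theorem Setup.main {I : Ideal (MvPolynomial ι ℂ)} {r : ℕ} {w : ι → ℤ} {D : ℤ}
    (S : Setup I r w D) (hcard : 23 * r < Fintype.card ι) : r ≤ 1 := by
  have hr := S.rpos
  by_cases hB : 6 * r < Fintype.card {i // 0 < w i} ∧ 6 * r < Fintype.card {i // 0 < -w i}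
  · exact S.caseB hB.1 hB.2
  have h1 : Fintype.card {i // 0 < w i} ≤ 7 * r := by
    by_contra hc
    push Not at hc
    have := S.card_bound hc
    omega
  have h2 : Fintype.card {i // 0 < -w i} ≤ 7 * r := by
    by_contra hc
    push Not at hc
    have := S.mirror.card_bound hc
    simp only [neg_neg] at this
    omega
  have h3 : Fintype.card ι ≤ Fintype.card {i // w i = 0} +
      (Fintype.card {i // 0 < w i} + Fintype.card {i // 0 < -w i}) := by
    have e1 := Fintype.card_subtype_or (fun i => 0 < w i) (fun i => 0 < -w i)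
    have e2 := Fintype.card_subtype_or (fun i => w i = 0) (fun i => 0 < w i ∨ 0 < -w i)
    have e3 : Fintype.card ι ≤ Fintype.card {i // w i = 0 ∨ (0 < w i ∨ 0 < -w i)} := by
      refine Fintype.card_le_of_injective (fun i => ⟨i, ?_⟩) (fun i j h => congrArg Subtype.val h)
      omega
    omega
  refine S.caseA ?_ (by omega)
  intro q hq hq0 hqw s hs i hi
  refine conormal_supported S.smooth w S.stab S.nd ?_ hq hq0 hqw hs i hi
  intro k hk
  have h4 : Fintype.card {i // w i = k} ≤ 7 * r := by
    rcases lt_or_gt_of_ne hk with h | h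
    · refine le_trans (Fintype.card_subtype_mono _ _ (fun i hi => ?_)) h2
      have : w i = k := hi
      change 0 < -w i
      omega
    · refine le_trans (Fintype.card_subtype_mono _ _ (fun i hi => ?_)) h1
      have : w i = k := hi
      change 0 < w i
      omega
  omega

theorem core (ι : Type) [Fintype ι] [DecidableEq ι] (I : Ideal (MvPolynomial ι ℂ)) (r : ℕ)
    (w : ι → ℤ) (hI : Smooth I r)
    (hstab : ∀ t : ℂ, t ≠ 0 → ∀ x ∈ cone I, (fun i => t ^ w i * x i) ∈ cone I)
    (hnd : ∀ s : ι → ℂ, (∀ x ∈ cone I, s ⬝ᵥ x = 0) → s = 0)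
    (hw : ∃ i j, w i ≠ w j) (hcard : 23 * r < Fintype.card ι) : r ≤ 1 := by
  by_contra hr
  obtain ⟨i₀, j₀, hij⟩ := hw
  have hne : (Finset.univ : Finset ι).Nonempty := ⟨i₀, Finset.mem_univ _⟩
  obtain ⟨i₁, -, hmin⟩ := Finset.exists_min_image _ w hne
  obtain ⟨i₂, -, hmax⟩ := Finset.exists_max_image _ w hne
  have h1 := hmin i₀ (Finset.mem_univ _)
  have h2 := hmin j₀ (Finset.mem_univ _)
  have h3 := hmax i₀ (Finset.mem_univ _)
  have h4 := hmax j₀ (Finset.mem_univ _)
  have S : Setup I r (fun i => 2 * w i - (w i₁ + w i₂)) (w i₂ - w i₁) :=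
    { smooth := hI
      rpos := by omega
      stab := by
        intro t ht x hx
        have h5 := smul_mem_cone hI (hstab (t ^ 2) (pow_ne_zero 2 ht) x hx)
          (t ^ (-(w i₁ + w i₂)))
        have : t ^ (-(w i₁ + w i₂)) • (fun i => (t ^ 2) ^ w i * x i) =
            act (fun i => 2 * w i - (w i₁ + w i₂)) t x := by
          funext i
          simp only [act, Pi.smul_apply, smul_eq_mul]
          rw [← mul_assoc, ← zpow_natCast t 2, ← zpow_mul, ← zpow_add₀ ht]
          congr 2
          push_cast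
          ring
        rwa [this] at h5
      nd := hnd
      hD := by omega
      le := fun i => by have := hmax i (Finset.mem_univ _); omega
      ge := fun i => by have := hmin i (Finset.mem_univ _); omega
      top := ⟨i₂, by ring⟩
      bot := ⟨i₁, by ring⟩ }
  exact hr (S.main hcard)

end H89.Hart
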