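import Pool.Agent.H89.Hart.Basic

/-! Frames of the conormal bundle, the basic identity, closedness. -/

open MvPolynomial

set_option linter.unusedSectionVars false
set_option linter.unusedSimpArgs false

namespace H89.Hart

variable {ι : Type*} [Fintype ι] [DecidableEq ι]

/-- dual vectors of an independent family. -/
theorem exists_dual {r : ℕ} (s : Fin r → ι → ℂ) (hs : LinearIndependent ℂ s) :
    ∃ l : Fin r → ι → ℂ, ∀ i j, s i ⬝ᵥ l j = if i = j then 1 else 0 := by
  let L : (Fin r → ℂ) →ₗ[ℂ] (ι → ℂ) := Fintype.linearCombination ℂ s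
  have hL : LinearMap.ker L = ⊥ := by
    rw [LinearMap.ker_eq_bot']
    intro c hc
    have := Fintype.linearIndependent_iff.1 hs c (by simpa [L, Fintype.linearCombination_apply] using hc)
    exact funext this
  obtain ⟨π, hπ⟩ := L.exists_leftInverse_of_injective hL
  refine ⟨fun j k => π (Pi.single k 1) j, fun i j => ?_⟩
  have h1 : L (Pi.single i 1) = s i := by
    simp [L, Fintype.linearCombination_apply]
  have h2 : π (s i) = Pi.single i 1 := by
    rw [← h1]
    have := congrArg (fun φ => φ (Pi.single i (1 : ℂ))) hπ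
    simpa using this
  have h3 : π (s i) = ∑ k, s i k • π (Pi.single k 1) := by
    conv_lhs => rw [show s i = ∑ k, s i k • (Pi.single k (1 : ℂ) : ι → ℂ) from by
      funext m; simp [Finset.sum_apply, Pi.single_apply]]
    rw [map_sum]; simp
  have h4 : (π (s i)) j = s i ⬝ᵥ fun k => π (Pi.single k 1) j := by
    rw [h3]; simp [dotProduct, Finset.sum_apply]
  rw [← h4, h2]
  by_cases h : i = j
  · subst h; simp
  · simp [h, Pi.single_apply, Ne.symm h]

/-- Cramer's rule in the form used for conormal spaces. -/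
theorem cramer_id {r : ℕ} (G : Fin r → ι → ℂ) (l : Fin r → ι → ℂ) (A : Matrix (Fin r) (Fin r) ℂ)
    (hA : ∀ i j, A i j = G i ⬝ᵥ l j) (φ : ι → ℂ) (hφ : φ ∈ Submodule.span ℂ (Set.range G)) :
    A.det • φ = ∑ i, (∑ j, (φ ⬝ᵥ l j) * A.adjugate j i) • G i := by
  obtain ⟨b, rfl⟩ := (Submodule.mem_span_range_iff_exists_fun ℂ).1 hφ
  rw [Finset.smul_sum]
  refine Finset.sum_congr rfl fun i _ => ?_
  rw [smul_smul]
  congr 1
  have h1 : ∀ j, (∑ k, b k • G k) ⬝ᵥ l j = ∑ k, b k * A k j := by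
    intro j
    rw [sum_dotProduct]
    refine Finset.sum_congr rfl fun k _ => ?_
    rw [smul_dotProduct, hA, smul_eq_mul]
  simp only [h1, Finset.sum_mul]
  rw [Finset.sum_comm]
  have h2 : ∀ k, ∑ j, b k * A k j * A.adjugate j i = b k * (A * A.adjugate) k i := by
    intro k
    rw [Matrix.mul_apply, Finset.mul_sum]
    refine Finset.sum_congr rfl fun j _ => ?_
    ring
  simp only [h2, Matrix.mul_adjugate, Matrix.smul_apply, Matrix.one_apply, smul_eq_mul]
  simp [mul_comm]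

/-- directional derivative of a polynomial. -/
noncomputable def dd (v : ι → ℂ) (f : MvPolynomial ι ℂ) : MvPolynomial ι ℂ :=
  ∑ i, C (v i) * pderiv i f

theorem eval_dd (v : ι → ℂ) (f : MvPolynomial ι ℂ) (x : ι → ℂ) :
    eval x (dd v f) = dif f x ⬝ᵥ v := by
  simp [dd, dotProduct, dif, mul_comm]

/-- the matrix of derivatives of the `g i` in the directions `l j`. -/
noncomputable def mat {r : ℕ} (g : Fin r → MvPolynomial ι ℂ) (l : Fin r → ι → ℂ) :
    Matrix (Fin r) (Fin r) (MvPolynomial ι ℂ) := Matrix.of fun i j => dd (l j) (g i)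

/-- its value at a point. -/
noncomputable def matAt {r : ℕ} (g : Fin r → MvPolynomial ι ℂ) (l : Fin r → ι → ℂ) (x : ι → ℂ) :
    Matrix (Fin r) (Fin r) ℂ := Matrix.of fun i j => dif (g i) x ⬝ᵥ l j

theorem map_mat {r : ℕ} (g : Fin r → MvPolynomial ι ℂ) (l : Fin r → ι → ℂ) (x : ι → ℂ) :
    (mat g l).map (eval x) = matAt g l x := by
  ext i j; simp [mat, matAt, eval_dd]

theorem eval_det_mat {r : ℕ} (g : Fin r → MvPolynomial ι ℂ) (l : Fin r → ι → ℂ) (x : ι → ℂ) :
    eval x (mat g l).det = (matAt g l x).det := by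
  rw [← map_mat, RingHom.map_det]; rfl

theorem eval_adj_mat {r : ℕ} (g : Fin r → MvPolynomial ι ℂ) (l : Fin r → ι → ℂ) (x : ι → ℂ)
    (i j : Fin r) : eval x ((mat g l).adjugate i j) = (matAt g l x).adjugate i j := by
  have h := RingHom.map_adjugate (eval x) (mat g l)
  have h2 := congrArg (fun M => M i j) h
  simp only [RingHom.mapMatrix_apply, Matrix.map_apply] at h2
  rw [h2, map_mat]

/-- the polynomials expressing that `dif h` is a combination of the `dif (g i)`. -/
noncomputable def Q {r : ℕ} (g : Fin r → MvPolynomial ι ℂ) (l : Fin r → ι → ℂ)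
    (h : MvPolynomial ι ℂ) (v : ι → ℂ) : MvPolynomial ι ℂ :=
  (mat g l).det * dd v h - ∑ i, (∑ j, dd (l j) h * (mat g l).adjugate j i) * dd v (g i)

theorem eval_Q {r : ℕ} (g : Fin r → MvPolynomial ι ℂ) (l : Fin r → ι → ℂ)
    (h : MvPolynomial ι ℂ) (v x : ι → ℂ) :
    eval x (Q g l h v) = ((matAt g l x).det • dif h x -
      ∑ i, (∑ j, (dif h x ⬝ᵥ l j) * (matAt g l x).adjugate j i) • dif (g i) x) ⬝ᵥ v := by
  rw [sub_dotProduct, smul_dotProduct, sum_dotProduct]
  simp only [Q, map_sub, map_mul, map_sum, eval_det_mat, eval_adj_mat, eval_dd, smul_dotProduct,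
    smul_eq_mul]

theorem span_dif_eq {I : Ideal (MvPolynomial ι ℂ)} {r : ℕ} {x : ι → ℂ}
    (hr : Module.finrank ℂ (N I x) = r) (g : Fin r → MvPolynomial ι ℂ) (hg : ∀ i, g i ∈ I)
    (hli : LinearIndependent ℂ (fun i => dif (g i) x)) :
    Submodule.span ℂ (Set.range fun i => dif (g i) x) = N I x := by
  apply Submodule.eq_of_le_of_finrank_eq
  · rw [Submodule.span_le]
    rintro _ ⟨i, rfl⟩
    exact mem_N.2 ⟨g i, hg i, rfl⟩
  · rw [finrank_span_eq_card hli, hr, Fintype.card_fin]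

theorem li_of_det {r : ℕ} (g : Fin r → MvPolynomial ι ℂ) (l : Fin r → ι → ℂ) (x : ι → ℂ)
    (h : (matAt g l x).det ≠ 0) : LinearIndependent ℂ (fun i => dif (g i) x) := by
  rw [Fintype.linearIndependent_iff]
  intro c hc
  have h1 : Matrix.vecMul c (matAt g l x) = 0 := by
    funext j
    have := congrArg (fun v => v ⬝ᵥ l j) hc
    simp only [sum_dotProduct, smul_dotProduct, zero_dotProduct, smul_eq_mul] at this
    simpa [Matrix.vecMul, dotProduct, matAt] using this
  have := Matrix.eq_zero_of_vecMul_eq_zero h h1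
  intro i; exact congrFun this i

/-- Membership of `Q` in the ideal. -/
theorem Q_mem {I : Ideal (MvPolynomial ι ℂ)} {r : ℕ} (hI : Smooth I r)
    (g : Fin r → MvPolynomial ι ℂ) (hg : ∀ i, g i ∈ I) (l : Fin r → ι → ℂ) {p : ι → ℂ}
    (hp : p ∈ cone I) (hp0 : p ≠ 0) (hdet : (matAt g l p).det ≠ 0) {h : MvPolynomial ι ℂ}
    (hh : h ∈ I) (v : ι → ℂ) : Q g l h v ∈ I := by
  obtain ⟨k, hk⟩ : ∃ k, p k ≠ 0 := by
    by_contra hc; push Not at hc; exact hp0 (funext hc)
  have hX : (X k : MvPolynomial ι ℂ) ∉ I := fun hm => hk (by simpa using hp _ hm)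
  have hD : (mat g l).det ∉ I := fun hm => hdet (by rw [← eval_det_mat]; exact hp _ hm)
  have key : (X k : MvPolynomial ι ℂ) * ((mat g l).det * Q g l h v) ∈ I := by
    apply mem_of_cone hI.prime
    intro x hx
    rw [map_mul, map_mul]
    by_cases hx0 : x = 0
    · subst hx0; simp
    by_cases hd : (matAt g l x).det = 0
    · rw [eval_det_mat, hd]; simp
    have hspan := span_dif_eq (hI.rank x hx hx0) g hg (li_of_det g l x hd)
    have hmem : dif h x ∈ Submodule.span ℂ (Set.range fun i => dif (g i) x) := by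
      rw [hspan]; exact mem_N.2 ⟨h, hh, rfl⟩
    have := cramer_id (fun i => dif (g i) x) l (matAt g l x) (fun i j => rfl) _ hmem
    rw [eval_Q, this, sub_self, zero_dotProduct]; simp
  rcases hI.prime.mem_or_mem key with h1 | h1
  · exact absurd h1 hX
  · rcases hI.prime.mem_or_mem h1 with h2 | h2
    · exact absurd h2 hD
    · exact h2

/-- the frame identity at every point of the cone. -/
theorem frame_id {I : Ideal (MvPolynomial ι ℂ)} {r : ℕ} (hI : Smooth I r)
    (g : Fin r → MvPolynomial ι ℂ) (hg : ∀ i, g i ∈ I) (l : Fin r → ι → ℂ) {p : ι → ℂ}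
    (hp : p ∈ cone I) (hp0 : p ≠ 0) (hdet : (matAt g l p).det ≠ 0) {x φ : ι → ℂ}
    (hx : x ∈ cone I) (hφ : φ ∈ N I x) :
    (matAt g l x).det • φ =
      ∑ i, (∑ j, (φ ⬝ᵥ l j) * (matAt g l x).adjugate j i) • dif (g i) x := by
  obtain ⟨h, hh, rfl⟩ := mem_N.1 hφ
  rw [← sub_eq_zero]
  funext k
  have h1 := Q_mem hI g hg l hp hp0 hdet hh (Pi.single k 1)
  have h2 := hx _ h1
  rw [eval_Q] at h2
  simpa using h2

theorem exists_frame {I : Ideal (MvPolynomial ι ℂ)} {r : ℕ} (hI : Smooth I r) {p : ι → ℂ}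
    (hp : p ∈ cone I) (hp0 : p ≠ 0) :
    ∃ g : Fin r → MvPolynomial ι ℂ, ∃ l : Fin r → ι → ℂ, (∀ i, g i ∈ I) ∧
      (∀ i, ∃ d, (g i).IsHomogeneous d) ∧ LinearIndependent ℂ (fun i => dif (g i) p) ∧
      matAt g l p = 1 := by
  let s : Set (ι → ℂ) := {v | ∃ f ∈ I, (∃ d, f.IsHomogeneous d) ∧ dif f p = v}
  have hs : Submodule.span ℂ s = N I p := by
    apply le_antisymm
    · rw [Submodule.span_le]
      rintro v ⟨f, hf, -, rfl⟩
      exact mem_N.2 ⟨f, hf, rfl⟩
    · intro v hv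
      obtain ⟨f, hf, rfl⟩ := mem_N.1 hv
      have h1 : dif f p = ∑ d ∈ Finset.range (f.totalDegree + 1),
          dif (homogeneousComponent d f) p := by
        rw [← dif_sum, sum_homogeneousComponent]
      rw [h1]
      refine Submodule.sum_mem _ fun d _ => Submodule.subset_span ?_
      exact ⟨_, hI.homog f hf d, ⟨d, homogeneousComponent_isHomogeneous d f⟩, rfl⟩
  have hr : Module.finrank ℂ (Submodule.span ℂ s) = r := by rw [hs]; exact hI.rank p hp hp0
  obtain ⟨b, hb1, hb3⟩ : ∃ b : Fin r → ι → ℂ, (∀ i, b i ∈ s) ∧ LinearIndependent ℂ b := by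
    have h := Submodule.exists_fun_fin_finrank_span_eq ℂ s
    rw [hr] at h
    obtain ⟨b, hb1, -, hb3⟩ := h
    exact ⟨b, hb1, hb3⟩
  choose g hg using hb1
  have hli : LinearIndependent ℂ (fun i => dif (g i) p) := by
    have : (fun i => dif (g i) p) = b := funext fun i => (hg i).2.2
    rw [this]; exact hb3
  obtain ⟨l, hl⟩ := exists_dual _ hli
  refine ⟨g, l, fun i => (hg i).1, fun i => (hg i).2.1, hli, ?_⟩
  ext i j
  rw [matAt, Matrix.of_apply, hl, Matrix.one_apply]

/-- a vector in the limit of conormal spaces is conormal. -/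
theorem mem_N_of_tendsto {I : Ideal (MvPolynomial ι ℂ)} {r : ℕ} (hI : Smooth I r)
    {T : Type*} {F : Filter T} [F.NeBot] {x φ : T → ι → ℂ} {x₀ φ₀ : ι → ℂ} (hx0 : x₀ ≠ 0)
    (hx : Filter.Tendsto x F (nhds x₀)) (hφ : Filter.Tendsto φ F (nhds φ₀))
    (h : ∀ᶠ t in F, x t ∈ cone I ∧ φ t ∈ N I (x t)) : x₀ ∈ cone I ∧ φ₀ ∈ N I x₀ := by
  have hx₀ : x₀ ∈ cone I :=
    (isClosed_cone I).mem_of_tendsto hx (h.mono fun t ht => ht.1)
  refine ⟨hx₀, ?_⟩
  obtain ⟨g, l, hg, -, hli, hmat⟩ := exists_frame hI hx₀ hx0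
  have hdet : (matAt g l x₀).det ≠ 0 := by rw [hmat]; simp
  let Φ : (ι → ℂ) × (ι → ℂ) → (ι → ℂ) := fun y => (matAt g l y.1).det • y.2 -
    ∑ i, (∑ j, (y.2 ⬝ᵥ l j) * (matAt g l y.1).adjugate j i) • dif (g i) y.1
  have hmatc : Continuous fun y : (ι → ℂ) × (ι → ℂ) => matAt g l y.1 := by
    refine continuous_matrix fun i j => ?_
    simp only [matAt, Matrix.of_apply]
    exact ((continuous_dif (g i)).comp continuous_fst).dotProduct continuous_const
  have hΦ : Continuous Φ := by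
    refine Continuous.sub ?_ ?_
    · exact hmatc.matrix_det.smul continuous_snd
    · refine continuous_finsetSum _ fun i _ => ?_
      have hc1 : Continuous fun y : (ι → ℂ) × (ι → ℂ) => dif (g i) y.1 :=
        (continuous_dif (g i)).comp continuous_fst
      have hc2 : Continuous fun y : (ι → ℂ) × (ι → ℂ) =>
          ∑ j, (y.2 ⬝ᵥ l j) * (matAt g l y.1).adjugate j i := by
        refine continuous_finsetSum _ fun j _ => ?_
        exact (continuous_snd.dotProduct continuous_const).mul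
          (hmatc.matrix_adjugate.matrix_elem j i)
      exact hc2.smul hc1
  have h1 : Filter.Tendsto (fun t => Φ (x t, φ t)) F (nhds (Φ (x₀, φ₀))) :=
    (hΦ.tendsto _).comp (hx.prodMk_nhds hφ)
  have h2 : ∀ᶠ t in F, Φ (x t, φ t) = 0 := h.mono fun t ht => by
    simp only [Φ]
    rw [frame_id hI g hg l hx₀ hx0 hdet ht.1 ht.2, sub_self]
  have h3 : Φ (x₀, φ₀) = 0 :=
    tendsto_nhds_unique (h1.congr' h2) tendsto_const_nhds |>.symm ▸ rfl
  have h4 : φ₀ = ∑ i, (∑ j, (φ₀ ⬝ᵥ l j) * (matAt g l x₀).adjugate j i) • dif (g i) x₀ := by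
    have := sub_eq_zero.1 h3
    simpa [hmat] using this
  rw [h4]
  exact Submodule.sum_mem _ fun i _ => Submodule.smul_mem _ _ (mem_N.2 ⟨g i, hg i, rfl⟩)

end H89.Hart
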