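import Mathlib

/-! Coordinate subspaces, dimension counts and a density lemma. -/

set_option linter.unusedSectionVars false
set_option linter.unusedSimpArgs false

namespace H89.Hart

variable {ι : Type*} [Fintype ι] [DecidableEq ι]

/-- vectors supported on the set of indices where `p` holds. -/
def V (p : ι → Prop) : Submodule ℂ (ι → ℂ) where
  carrier := {x | ∀ i, x i ≠ 0 → p i}
  add_mem' {x y} hx hy i h := by
    by_contra hp
    have h1 : x i = 0 := by by_contra h'; exact hp (hx i h')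
    have h2 : y i = 0 := by by_contra h'; exact hp (hy i h')
    exact h (by simp [h1, h2])
  zero_mem' i h := absurd rfl h
  smul_mem' c x hx i h := hx i (right_ne_zero_of_mul (by simpa using h))

theorem mem_V {p : ι → Prop} {x : ι → ℂ} : x ∈ V p ↔ ∀ i, x i ≠ 0 → p i := Iff.rfl

theorem V_mono {p q : ι → Prop} (h : ∀ i, p i → q i) : V p ≤ V q := fun _ hx i hi => h i (hx i hi)

theorem finrank_V (p : ι → Prop) [DecidablePred p] :
    Module.finrank ℂ (V p) = Fintype.card {i // p i} := by
  let e : V p ≃ₗ[ℂ] ({i // p i} → ℂ) :=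
    { toFun := fun x i => x.1 i.1
      map_add' := fun x y => rfl
      map_smul' := fun c x => rfl
      invFun := fun y => ⟨fun i => if h : p i then y ⟨i, h⟩ else 0, fun i hi => by
        by_contra hp; simp [hp] at hi⟩
      left_inv := fun x => by
        ext i
        by_cases h : p i
        · simp [h]
        · have : x.1 i = 0 := by by_contra h'; exact h (x.2 i h')
          simp [h, this]
      right_inv := fun y => by
        funext i
        simp [i.2] }
  rw [e.finrank_eq, Module.finrank_fintype_fun_eq_card]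

/-- subspace cut out by `r` linear equations. -/
def cut {r : ℕ} (W : Submodule ℂ (ι → ℂ)) (s : Fin r → ι → ℂ) : Submodule ℂ (ι → ℂ) where
  carrier := {x | x ∈ W ∧ ∀ i, s i ⬝ᵥ x = 0}
  add_mem' {x y} hx hy := ⟨W.add_mem hx.1 hy.1, fun i => by rw [dotProduct_add, hx.2, hy.2, add_zero]⟩
  zero_mem' := ⟨W.zero_mem, fun i => dotProduct_zero _⟩
  smul_mem' c x hx := ⟨W.smul_mem c hx.1, fun i => by rw [dotProduct_smul, hx.2, smul_zero]⟩

theorem mem_cut {r : ℕ} {W : Submodule ℂ (ι → ℂ)} {s : Fin r → ι → ℂ} {x : ι → ℂ} :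
    x ∈ cut W s ↔ x ∈ W ∧ ∀ i, s i ⬝ᵥ x = 0 := Iff.rfl

theorem finrank_cut {r : ℕ} (W : Submodule ℂ (ι → ℂ)) (s : Fin r → ι → ℂ) :
    Module.finrank ℂ W ≤ Module.finrank ℂ (cut W s) + r := by
  let φ : W →ₗ[ℂ] (Fin r → ℂ) :=
    { toFun := fun x i => s i ⬝ᵥ x.1
      map_add' := fun x y => by funext i; simp [dotProduct_add]
      map_smul' := fun c x => by funext i; simp [dotProduct_smul] }
  have h1 := LinearMap.finrank_range_add_finrank_ker φ
  have h2 : Module.finrank ℂ (LinearMap.range φ) ≤ r := by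
    have := Submodule.finrank_le (LinearMap.range φ)
    rwa [Module.finrank_fintype_fun_eq_card, Fintype.card_fin] at this
  have h3 : Module.finrank ℂ (LinearMap.ker φ) = Module.finrank ℂ (cut W s) := by
    let e : LinearMap.ker φ ≃ₗ[ℂ] cut W s :=
      { toFun := fun x => ⟨x.1.1, x.1.2, fun i => congrFun (LinearMap.mem_ker.1 x.2) i⟩
        map_add' := fun x y => rfl
        map_smul' := fun c x => rfl
        invFun := fun y => ⟨⟨y.1, y.2.1⟩, LinearMap.mem_ker.2 (funext fun i => y.2.2 i)⟩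
        left_inv := fun x => rfl
        right_inv := fun y => rfl }
    exact e.finrank_eq
  omega

/-- an injective linear map between submodules bounds the dimension. -/
theorem finrank_le_of_inj {W W' : Submodule ℂ (ι → ℂ)} (f : (ι → ℂ) →ₗ[ℂ] (ι → ℂ))
    (hf : ∀ x ∈ W, f x ∈ W') (hinj : ∀ x ∈ W, f x = 0 → x = 0) :
    Module.finrank ℂ W ≤ Module.finrank ℂ W' := by
  let g : W →ₗ[ℂ] W' := (f.comp W.subtype).codRestrict W' fun x => hf x.1 x.2
  refine LinearMap.finrank_le_finrank_of_injective (f := g) ?_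
  rw [← LinearMap.ker_eq_bot, LinearMap.ker_eq_bot']
  intro x hx
  have : f x.1 = 0 := congrArg Subtype.val hx
  exact Subtype.ext (hinj x.1 x.2 this)

/-- Non-injectivity is exceptional on lines through a good point. -/
theorem finite_bad {E U W : Type*} [AddCommGroup E] [Module ℂ E] [FiniteDimensional ℂ E]
    [AddCommGroup U] [Module ℂ U] [AddCommGroup W] [Module ℂ W]
    (β : E →ₗ[ℂ] U →ₗ[ℂ] W) (u₀ u₁ : U) (h : ∀ e, β e u₀ = 0 → e = 0) :
    {t : ℂ | ∃ e, e ≠ 0 ∧ β e (u₁ + t • u₀) = 0}.Finite := by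
  let B₀ : E →ₗ[ℂ] W := β.flip u₀
  let B₁ : E →ₗ[ℂ] W := β.flip u₁
  have hker : LinearMap.ker B₀ = ⊥ := LinearMap.ker_eq_bot'.2 fun e he => h e he
  obtain ⟨L, hL⟩ := B₀.exists_leftInverse_of_injective hker
  have hfin := Module.End.finite_hasEigenvalue (L.comp B₁)
  refine (hfin.image fun t => -t).subset ?_
  rintro t ⟨e, he, hz⟩
  refine ⟨-t, ?_, neg_neg t⟩
  refine Module.End.hasEigenvalue_of_hasEigenvector (x := e) ⟨?_, he⟩
  rw [Module.End.mem_eigenspace_iff]
  have h1 : B₁ e + t • B₀ e = 0 := by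
    simpa [B₀, B₁] using hz
  have h2 : L (B₁ e) + t • L (B₀ e) = 0 := by rw [← map_smul, ← map_add, h1, map_zero]
  have h3 : L (B₀ e) = e := by
    have := congrArg (fun φ => φ e) hL
    simpa using this
  rw [h3] at h2
  rw [LinearMap.comp_apply, neg_smul]
  exact eq_neg_of_add_eq_zero_left h2

/-- weight component of a vector. -/
def cmp (w : ι → ℤ) (j : ℤ) (x : ι → ℂ) : ι → ℂ := fun i => if w i = j then x i else 0

theorem cmp_mem (w : ι → ℤ) (j : ℤ) (x : ι → ℂ) : cmp w j x ∈ V (fun i => w i = j) := by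
  intro i hi
  by_contra h
  exact hi (by simp [cmp, h])

end H89.Hart
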