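import Pool.Agent.H89.Hart.Zak
import Pool.Agent.H89.Hart.Sub
import Pool.Agent.H89.Hart.Lin

/-! The lowest fixed locus (Lemma A). -/

open MvPolynomial Filter Topology

set_option linter.unusedSectionVars false
set_option linter.unusedSimpArgs false

namespace H89.Hart

variable {ι : Type*} [Fintype ι] [DecidableEq ι]

/-- The standing assumptions: `I` smooth nondegenerate of codimension `r`, stable under the
diagonal action with integer weights `w`, whose extreme values are `-D` and `D`. -/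
structure Setup (I : Ideal (MvPolynomial ι ℂ)) (r : ℕ) (w : ι → ℤ) (D : ℤ) : Prop where
  smooth : Smooth I r
  rpos : 1 ≤ r
  stab : ∀ t : ℂ, t ≠ 0 → ∀ x ∈ cone I, act w t x ∈ cone I
  nd : ∀ s : ι → ℂ, (∀ x ∈ cone I, s ⬝ᵥ x = 0) → s = 0
  hD : 0 < D
  le : ∀ i, w i ≤ D
  ge : ∀ i, -D ≤ w i
  top : ∃ i, w i = D
  bot : ∃ i, w i = -D

theorem Setup.stab' {I : Ideal (MvPolynomial ι ℂ)} {r : ℕ} {w : ι → ℤ} {D : ℤ}
    (S : Setup I r w D) (ω : ℤ) : ∀ t : ℂ, t ≠ 0 → ∀ x ∈ cone I,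
      act (fun i => w i - ω) t x ∈ cone I := by
  intro t ht x hx
  have h := smul_mem_cone S.smooth (S.stab t ht x hx) (t ^ (-ω))
  have : t ^ (-ω) • act w t x = act (fun i => w i - ω) t x := by
    funext i
    simp only [act, Pi.smul_apply, smul_eq_mul]
    rw [← mul_assoc, ← zpow_add₀ ht]
    congr 2; ring
  rwa [this] at h

theorem Setup.mirror {I : Ideal (MvPolynomial ι ℂ)} {r : ℕ} {w : ι → ℤ} {D : ℤ}
    (S : Setup I r w D) : Setup I r (fun i => - w i) D where
  smooth := S.smooth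
  rpos := S.rpos
  stab := by
    intro t ht x hx
    have := S.stab t⁻¹ (inv_ne_zero ht) x hx
    have e : act w t⁻¹ x = act (fun i => -w i) t x := by
      funext i; simp [act]
    rwa [e] at this
  nd := S.nd
  hD := S.hD
  le i := by have := S.ge i; omega
  ge i := by have := S.le i; omega
  top := by obtain ⟨i, hi⟩ := S.bot; exact ⟨i, by omega⟩
  bot := by obtain ⟨i, hi⟩ := S.top; exact ⟨i, by omega⟩

/-- the Hessian pairing of a family. -/
noncomputable def bet {r : ℕ} (g : Fin r → MvPolynomial ι ℂ) (a : ι → ℂ) :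
    (Fin r → ℂ) →ₗ[ℂ] (ι → ℂ) →ₗ[ℂ] (ι → ℂ) :=
  LinearMap.mk₂ ℂ (fun z u => ∑ i, z i • hess (g i) a u)
    (fun z z' u => by simp [add_smul, Finset.sum_add_distrib])
    (fun c z u => by simp [Finset.smul_sum, smul_smul])
    (fun z u u' => by simp [hess_add_right, smul_add, Finset.sum_add_distrib])
    (fun c z u => by simp [hess_smul_right, Finset.smul_sum, smul_smul, mul_comm])

theorem bet_apply {r : ℕ} (g : Fin r → MvPolynomial ι ℂ) (a : ι → ℂ) (z : Fin r → ℂ)
    (u : ι → ℂ) : bet g a z u = ∑ i, z i • hess (g i) a u := rfl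

theorem bet_single {r : ℕ} (g : Fin r → MvPolynomial ι ℂ) (a : ι → ℂ) (i : Fin r)
    (u : ι → ℂ) : bet g a (Pi.single i 1) u = hess (g i) a u := by
  rw [bet_apply, Finset.sum_eq_single i]
  · simp
  · intro j _ hj; simp [Pi.single_apply, hj]
  · simp

/-- A homogeneous frame at a point `a` of the lowest fixed locus. -/
structure LowFrame (I : Ideal (MvPolynomial ι ℂ)) (r : ℕ) (w : ι → ℤ) (D : ℤ) (a : ι → ℂ)
    (g : Fin r → MvPolynomial ι ℂ) (c : Fin r → ℤ) : Prop where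
  setup : Setup I r w D
  mem : a ∈ cone I
  ne : a ≠ 0
  supp : ∀ i, a i ≠ 0 → w i = -D
  gI : ∀ i, g i ∈ I
  gw : ∀ i, IsWeightedHomogeneous (fun i => w i - (-D)) (g i) (c i)
  li : LinearIndependent ℂ (fun i => dif (g i) a)

theorem exists_lowFrame {I : Ideal (MvPolynomial ι ℂ)} {r : ℕ} {w : ι → ℤ} {D : ℤ}
    (S : Setup I r w D) {a : ι → ℂ} (ha : a ∈ cone I) (ha0 : a ≠ 0)
    (hs : ∀ i, a i ≠ 0 → w i = -D) : ∃ g c, LowFrame I r w D a g c := by
  obtain ⟨g, c, h1, -, h2, h3⟩ := exists_wframe S.smooth (S.stab' (-D)) ha ha0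
  exact ⟨g, c, ⟨S, ha, ha0, hs, h1, h2, h3⟩⟩

section low

variable {I : Ideal (MvPolynomial ι ℂ)} {r : ℕ} {w : ι → ℤ} {D : ℤ} {a : ι → ℂ}
  {g : Fin r → MvPolynomial ι ℂ} {c : Fin r → ℤ}

/-- the positive part of the tangent space. -/
noncomputable def LU (w : ι → ℤ) (g : Fin r → MvPolynomial ι ℂ) (a : ι → ℂ) : Submodule ℂ (ι → ℂ) :=
  cut (V fun i => 0 < w i) (fun i => dif (g i) a)

theorem LowFrame.supp0 (F : LowFrame I r w D a g c) : ∀ i, a i ≠ 0 → w i - (-D) = 0 := by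
  intro i hi; have := F.supp i hi; omega

theorem LowFrame.dif_ne (F : LowFrame I r w D a g c) (i : Fin r) :
    ∃ l, dif (g i) a l ≠ 0 := by
  by_contra h
  push Not at h
  exact F.li.ne_zero i (funext h)

theorem LowFrame.c_le (F : LowFrame I r w D a g c) (i : Fin r) : c i ≤ 2 * D := by
  obtain ⟨l, hl⟩ := F.dif_ne i
  have := dif_support (F.gw i) F.supp0 hl
  have h2 := F.setup.le l
  omega

theorem LowFrame.c_nonneg (F : LowFrame I r w D a g c) (i : Fin r) : 0 ≤ c i := by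
  obtain ⟨l, hl⟩ := F.dif_ne i
  have := dif_support (F.gw i) F.supp0 hl
  have h2 := F.setup.ge l
  omega

theorem mem_LU {u : ι → ℂ} : u ∈ LU w g a ↔
    (∀ i, u i ≠ 0 → 0 < w i) ∧ ∀ i, dif (g i) a ⬝ᵥ u = 0 := by
  rw [LU, mem_cut, mem_V]

theorem LowFrame.line (F : LowFrame I r w D a g c) {u : ι → ℂ} (hu : u ∈ LU w g a) (t : ℂ) :
    a + t • u ∈ cone I := by
  have hu' := mem_LU.1 hu
  refine line_mem F.setup.smooth g F.gI F.mem F.ne F.li u (fun i t => ?_) t
  rw [eval_line_affine (F.gw i) (θ := D + 1) (fun j hj => by have := F.supp0 j hj; omega)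
    (fun j hj => by have := hu'.1 j hj; omega) (by have := F.setup.hD; omega)
    (by have := F.c_le i; omega), F.mem _ (F.gI i), hu'.2 i]
  ring

theorem LowFrame.dif_line (F : LowFrame I r w D a g c) {u : ι → ℂ} (hu : u ∈ LU w g a)
    (i : Fin r) (t : ℂ) : dif (g i) (a + t • u) = dif (g i) a + t • hess (g i) a u := by
  have hu' := mem_LU.1 hu
  funext l
  have h1 : IsWeightedHomogeneous (fun i => w i - (-D)) (pderiv l (g i)) (c i - (w l - (-D))) :=
    (F.gw i).pderiv (by ring)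
  have h2 := eval_line_affine h1 (θ := D + 1) (a := a) (u := u)
    (fun j hj => by have := F.supp0 j hj; omega)
    (fun j hj => by have := hu'.1 j hj; omega) (by have := F.setup.hD; omega)
    (by have := F.c_le i; have := F.setup.ge l; omega) t
  simpa [dif, hess] using h2

/-- `∑ z i • dif (g i) a` -/
noncomputable def sz (g : Fin r → MvPolynomial ι ℂ) (a : ι → ℂ) (z : Fin r → ℂ) : ι → ℂ :=
  ∑ i, z i • dif (g i) a

theorem LowFrame.sz_ne (F : LowFrame I r w D a g c) {z : Fin r → ℂ} (hz : z ≠ 0) :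
    sz g a z ≠ 0 := fun h =>
  hz (funext (Fintype.linearIndependent_iff.1 F.li z h))

theorem LowFrame.mem_N_line (F : LowFrame I r w D a g c) {u : ι → ℂ} (hu : u ∈ LU w g a)
    (z : Fin r → ℂ) (t : ℂ) : sz g a z + t • bet g a z u ∈ N I (a + t • u) := by
  have : sz g a z + t • bet g a z u = ∑ i, z i • dif (g i) (a + t • u) := by
    simp only [F.dif_line hu, sz, bet_apply, smul_add, Finset.sum_add_distrib, Finset.smul_sum,
      smul_smul, mul_comm]
  rw [this]
  exact Submodule.sum_mem _ fun i _ => Submodule.smul_mem _ _ (mem_N.2 ⟨_, F.gI i, rfl⟩)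

theorem LowFrame.mem_N_line' (F : LowFrame I r w D a g c) {u : ι → ℂ} (hu : u ∈ LU w g a)
    (z : Fin r → ℂ) {τ : ℂ} (hτ : τ ≠ 0) :
    τ • sz g a z + bet g a z u ∈ N I (τ • a + u) := by
  have h1 := F.mem_N_line hu z τ⁻¹
  have h2 := N_smul F.setup.smooth hτ (Submodule.smul_mem _ τ h1)
  have e1 : τ • (a + τ⁻¹ • u) = τ • a + u := by rw [smul_add, smul_smul, mul_inv_cancel₀ hτ, one_smul]
  have e2 : τ • (sz g a z + τ⁻¹ • bet g a z u) = τ • sz g a z + bet g a z u := by
    rw [smul_add, smul_smul, mul_inv_cancel₀ hτ, one_smul]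
  rwa [e1, e2] at h2

theorem LowFrame.line' (F : LowFrame I r w D a g c) {u : ι → ℂ} (hu : u ∈ LU w g a)
    {τ : ℂ} (hτ : τ ≠ 0) : τ • a + u ∈ cone I := by
  have h2 := smul_mem_cone F.setup.smooth (F.line hu τ⁻¹) τ
  have e1 : τ • (a + τ⁻¹ • u) = τ • a + u := by rw [smul_add, smul_smul, mul_inv_cancel₀ hτ, one_smul]
  rwa [e1] at h2

theorem tendsto_smul_add (a u : ι → ℂ) : Tendsto (fun τ : ℂ => τ • a + u) (𝓝[≠] 0) (𝓝 u) := by
  have h : Continuous fun τ : ℂ => τ • a + u := by fun_prop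
  have := (h.tendsto 0).mono_left (nhdsWithin_le_nhds (s := {0}ᶜ))
  simpa using this

theorem LowFrame.U_sub (F : LowFrame I r w D a g c) {u : ι → ℂ} (hu : u ∈ LU w g a) :
    u ∈ cone I :=
  (isClosed_cone I).mem_of_tendsto (tendsto_smul_add a u)
    (by filter_upwards [self_mem_nhdsWithin] with τ hτ using F.line' hu hτ)

theorem LowFrame.bet_mem (F : LowFrame I r w D a g c) {u : ι → ℂ} (hu : u ∈ LU w g a)
    (hu0 : u ≠ 0) (z : Fin r → ℂ) : bet g a z u ∈ N I u :=
  (mem_N_of_tendsto F.setup.smooth hu0 (tendsto_smul_add a u)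
    (tendsto_smul_add (sz g a z) (bet g a z u)) (by
      filter_upwards [self_mem_nhdsWithin] with τ hτ
      exact ⟨F.line' hu hτ, F.mem_N_line' hu z hτ⟩)).2

theorem LowFrame.sz_mem (F : LowFrame I r w D a g c) {u : ι → ℂ} (hu : u ∈ LU w g a)
    {z : Fin r → ℂ} (hz : bet g a z u = 0) {τ : ℂ} (hτ : τ ≠ 0) :
    sz g a z ∈ N I (τ • a + u) := by
  have h := F.mem_N_line' hu z hτ
  rw [hz, add_zero] at h
  have := Submodule.smul_mem _ τ⁻¹ h
  rwa [smul_smul, inv_mul_cancel₀ hτ, one_smul] at this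

theorem LowFrame.sz_mem' (F : LowFrame I r w D a g c) {u : ι → ℂ} (hu : u ∈ LU w g a)
    (hu0 : u ≠ 0) {z : Fin r → ℂ} (hz : bet g a z u = 0) : sz g a z ∈ N I u :=
  (mem_N_of_tendsto F.setup.smooth hu0 (tendsto_smul_add a u) tendsto_const_nhds (by
      filter_upwards [self_mem_nhdsWithin] with τ hτ
      exact ⟨F.line' hu hτ, F.sz_mem hu hz hτ⟩)).2

/-- the kernel of the pairing with a fixed `z` -/
noncomputable def LK (w : ι → ℤ) (g : Fin r → MvPolynomial ι ℂ) (a : ι → ℂ) (z : Fin r → ℂ) :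
    Submodule ℂ (ι → ℂ) := LU w g a ⊓ LinearMap.ker (bet g a z)

theorem LowFrame.finrank_K (F : LowFrame I r w D a g c) {z : Fin r → ℂ} (hz : z ≠ 0) :
    Module.finrank ℂ (LK w g a z) < r := by
  by_contra hcon
  push Not at hcon
  set K := LK w g a z with hK
  have hKU : ∀ u ∈ K, u ∈ LU w g a ∧ bet g a z u = 0 := fun u hu => ⟨hu.1, hu.2⟩
  set Λ := Submodule.span ℂ {a} ⊔ K with hΛ
  have haK : a ∉ K := by
    intro h
    obtain ⟨i, hi⟩ : ∃ i, a i ≠ 0 := by
      by_contra hc; push Not at hc; exact F.ne (funext hc)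
    have h1 := (mem_LU.1 (hKU a h).1).1 i hi
    have h2 := F.supp i hi
    have := F.setup.hD
    omega
  have hfin : Module.finrank ℂ Λ = 1 + Module.finrank ℂ K := by
    have h1 := Submodule.finrank_sup_add_finrank_inf_eq (Submodule.span ℂ {a}) K
    have h2 : Submodule.span ℂ {a} ⊓ K = ⊥ := by
      rw [Submodule.eq_bot_iff]
      rintro x ⟨hx1, hx2⟩
      obtain ⟨t, rfl⟩ := Submodule.mem_span_singleton.1 hx1
      by_cases ht : t = 0
      · simp [ht]
      · exfalso; apply haK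
        have := K.smul_mem t⁻¹ hx2
        rwa [smul_smul, inv_mul_cancel₀ ht, one_smul] at this
    rw [h2, finrank_bot, add_zero, finrank_span_singleton F.ne] at h1
    exact h1
  have hmem : ∀ x ∈ Λ, ∃ t : ℂ, ∃ u ∈ K, x = t • a + u := by
    intro x hx
    obtain ⟨y, hy, u, hu, rfl⟩ := Submodule.mem_sup.1 hx
    obtain ⟨t, rfl⟩ := Submodule.mem_span_singleton.1 hy
    exact ⟨t, u, hu, rfl⟩
  apply F.sz_ne hz
  apply F.setup.nd
  intro y hy
  refine zak F.setup.smooth Λ (by omega) ?_ ?_ hy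
  · intro x hx
    obtain ⟨t, u, hu, rfl⟩ := hmem x hx
    by_cases ht : t = 0
    · rw [ht, zero_smul, zero_add]; exact F.U_sub (hKU u hu).1
    · exact F.line' (hKU u hu).1 ht
  · intro x hx hx0
    obtain ⟨t, u, hu, rfl⟩ := hmem x hx
    by_cases ht : t = 0
    · subst ht
      rw [zero_smul, zero_add] at hx0 ⊢
      exact F.sz_mem' (hKU u hu).1 hx0 (hKU u hu).2
    · exact F.sz_mem (hKU u hu).1 (hKU u hu).2 ht

theorem LowFrame.finrank_U (F : LowFrame I r w D a g c) :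
    Fintype.card {i // 0 < w i} ≤ Module.finrank ℂ (LU w g a) + r := by
  have := finrank_cut (V fun i => 0 < w i) (fun i => dif (g i) a)
  rwa [finrank_V] at this

theorem LowFrame.c_gt (F : LowFrame I r w D a g c)
    (h3 : 3 * r ≤ Fintype.card {i // 0 < w i} + 1) (i : Fin r) : D < c i := by
  by_contra hcon
  push Not at hcon
  have h1 : LK w g a (Pi.single i 1) = LU w g a := by
    apply le_antisymm inf_le_left
    intro u hu
    refine ⟨hu, ?_⟩
    rw [SetLike.mem_coe, LinearMap.mem_ker, bet_single]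
    by_contra hne
    obtain ⟨l, hl⟩ : ∃ l, hess (g i) a u l ≠ 0 := by
      by_contra hc; push Not at hc; exact hne (funext hc)
    obtain ⟨k, hk, hkl⟩ := hess_support (F.gw i) F.supp0 hl
    have h4 := (mem_LU.1 hu).1 k hk
    have h5 := F.setup.ge l
    omega
  have h2 := F.finrank_K (z := Pi.single i 1) (by
    intro h; have := congrFun h i; simp at this)
  rw [h1] at h2
  have h3' := F.finrank_U
  have := F.setup.rpos
  omega

theorem LowFrame.sz_supp (F : LowFrame I r w D a g c)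
    (h3 : 3 * r ≤ Fintype.card {i // 0 < w i} + 1) (z : Fin r → ℂ) {l : ι}
    (hl : sz g a z l ≠ 0) : 0 < w l := by
  rw [sz, Finset.sum_apply] at hl
  obtain ⟨i, -, hi⟩ := Finset.exists_ne_zero_of_sum_ne_zero hl
  have h1 : dif (g i) a l ≠ 0 := by
    intro h; apply hi; simp [h]
  have h2 := dif_support (F.gw i) F.supp0 h1
  have h4 := F.c_gt h3 i
  omega

theorem LowFrame.bet_supp (F : LowFrame I r w D a g c) (z : Fin r → ℂ) {u : ι → ℂ}
    (hu : ∀ i, u i ≠ 0 → 0 < w i) {l : ι} (hl : bet g a z u l ≠ 0) : w l < 0 := by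
  rw [bet_apply, Finset.sum_apply] at hl
  obtain ⟨i, -, hi⟩ := Finset.exists_ne_zero_of_sum_ne_zero hl
  have h1 : hess (g i) a u l ≠ 0 := by
    intro h; apply hi; simp [h]
  obtain ⟨k, hk, hkl⟩ := hess_support (F.gw i) F.supp0 h1
  have h4 := F.c_le i
  have h5 := hu k hk
  omega

theorem LowFrame.exists_good (F : LowFrame I r w D a g c)
    (h3 : 3 * r ≤ Fintype.card {i // 0 < w i} + 1) :
    ∃ u ∈ LU w g a, ∀ z, bet g a z u = 0 → z = 0 := by
  by_contra hcon
  push Not at hcon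
  let β : (Fin r → ℂ) →ₗ[ℂ] (LU w g a) →ₗ[ℂ] (ι → ℂ) :=
    (LinearMap.lcomp ℂ (ι → ℂ) (LU w g a).subtype).comp (bet g a)
  have hβ : ∀ z u, β z u = bet g a z u.1 := fun z u => rfl
  obtain ⟨z, hz, hfin⟩ := exists_large_kernel β (fun u => by
    obtain ⟨z, hz1, hz2⟩ := hcon u.1 u.2
    exact ⟨z, hz2, hz1⟩)
  have h1 : Module.finrank ℂ (LinearMap.ker (β z)) ≤ Module.finrank ℂ (LK w g a z) := by
    let f : LinearMap.ker (β z) →ₗ[ℂ] LK w g a z :=
      { toFun := fun x => ⟨x.1.1, x.1.2, x.2⟩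
        map_add' := fun x y => rfl
        map_smul' := fun c x => rfl }
    refine LinearMap.finrank_le_finrank_of_injective (f := f) ?_
    intro x y hxy
    have := congrArg Subtype.val hxy
    exact Subtype.ext (Subtype.ext this)
  have h2 := F.finrank_K hz
  have h4 := F.finrank_U
  rw [Module.finrank_fintype_fun_eq_card, Fintype.card_fin] at hfin
  have := F.setup.rpos
  omega

theorem LowFrame.N_eq_of_good (F : LowFrame I r w D a g c) {u : ι → ℂ} (hu : u ∈ LU w g a)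
    (hu0 : u ≠ 0) (hgood : ∀ z, bet g a z u = 0 → z = 0) (φ : ι → ℂ) :
    φ ∈ N I u ↔ ∃ z, bet g a z u = φ := by
  let B : (Fin r → ℂ) →ₗ[ℂ] (ι → ℂ) := (bet g a).flip u
  have hB : ∀ z, B z = bet g a z u := fun z => rfl
  have hinj : Function.Injective B := by
    rw [← LinearMap.ker_eq_bot, LinearMap.ker_eq_bot']
    intro z hz; exact hgood z hz
  have hr : LinearMap.range B = N I u := by
    apply Submodule.eq_of_le_of_finrank_eq
    · rintro _ ⟨z, rfl⟩
      exact F.bet_mem hu hu0 z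
    · rw [LinearMap.finrank_range_of_inj hinj, Module.finrank_fintype_fun_eq_card,
        Fintype.card_fin, F.setup.smooth.rank u (F.U_sub hu) hu0]
  rw [← hr]; rfl

theorem LowFrame.N_supp (F : LowFrame I r w D a g c)
    (h3 : 3 * r ≤ Fintype.card {i // 0 < w i} + 1) {u : ι → ℂ} (hu : u ∈ LU w g a)
    (hu0 : u ≠ 0) {φ : ι → ℂ} (hφ : φ ∈ N I u) {l : ι} (hl : φ l ≠ 0) : w l < 0 := by
  obtain ⟨u₀, hu₀, hgood⟩ := F.exists_good h3
  obtain ⟨f, hf, rfl⟩ := mem_N.1 hφ
  by_contra hwl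
  apply hl
  have hfin := finite_bad (bet g a) u₀ u hgood
  have hcont : Continuous fun t : ℂ => dif f (u + t • u₀) l :=
    (continuous_apply l).comp ((continuous_dif f).comp (by fun_prop))
  have h1 : Tendsto (fun t : ℂ => dif f (u + t • u₀) l) (𝓝[≠] 0) (𝓝 (dif f u l)) := by
    have := (hcont.tendsto 0).mono_left (nhdsWithin_le_nhds (s := {0}ᶜ))
    simpa using this
  have h2 : ∀ᶠ t : ℂ in 𝓝[≠] 0, dif f (u + t • u₀) l = 0 := by
    have h4 : ∀ᶠ t : ℂ in 𝓝[≠] 0, t ∉ {t : ℂ | ∃ e, e ≠ 0 ∧ bet g a e (u + t • u₀) = 0} := by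
      have : ({t : ℂ | ∃ e, e ≠ 0 ∧ bet g a e (u + t • u₀) = 0} \ {0})ᶜ ∈ 𝓝 (0 : ℂ) := by
        refine (Set.Finite.isClosed (hfin.subset Set.diff_subset)).isOpen_compl.mem_nhds ?_
        simp
      filter_upwards [nhdsWithin_le_nhds this, self_mem_nhdsWithin] with t ht ht0 htm
      exact ht ⟨htm, ht0⟩
    filter_upwards [h4] with t ht
    have hg : ∀ z, bet g a z (u + t • u₀) = 0 → z = 0 := by
      intro z hz
      by_contra hz0
      exact ht ⟨z, hz0, hz⟩
    have hmem : u + t • u₀ ∈ LU w g a := (LU w g a).add_mem hu ((LU w g a).smul_mem t hu₀)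
    have hne : u + t • u₀ ≠ 0 := by
      intro h0
      have hr := F.setup.rpos
      have := hg (Pi.single ⟨0, hr⟩ 1) (by rw [h0, map_zero])
      have h5 := congrFun this ⟨0, hr⟩
      simp at h5
    by_contra hne2
    obtain ⟨z, hz⟩ := (F.N_eq_of_good hmem hne hg _).1 (mem_N.2 ⟨f, hf, rfl⟩)
    rw [← hz] at hne2
    exact hwl (F.bet_supp z (mem_LU.1 hmem).1 hne2)
  exact tendsto_nhds_unique (h1.congr' h2) tendsto_const_nhds

/-- (A3) nondegeneracy of the pairing. -/
theorem LowFrame.nondeg (F : LowFrame I r w D a g c)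
    (h3 : 3 * r ≤ Fintype.card {i // 0 < w i} + 1) {u : ι → ℂ} (hu : u ∈ LU w g a)
    (hu0 : u ≠ 0) {z : Fin r → ℂ} (hz : bet g a z u = 0) : z = 0 := by
  by_contra hz0
  obtain ⟨l, hl⟩ : ∃ l, sz g a z l ≠ 0 := by
    by_contra hc; push Not at hc; exact F.sz_ne hz0 (funext hc)
  have h1 := F.sz_supp h3 z hl
  have h2 := F.N_supp h3 hu hu0 (F.sz_mem' hu hu0 hz) hl
  omega

theorem LowFrame.N_eq (F : LowFrame I r w D a g c)
    (h3 : 3 * r ≤ Fintype.card {i // 0 < w i} + 1) {u : ι → ℂ} (hu : u ∈ LU w g a)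
    (hu0 : u ≠ 0) (φ : ι → ℂ) : φ ∈ N I u ↔ ∃ z, bet g a z u = φ :=
  F.N_eq_of_good hu hu0 (fun _ hz => F.nondeg h3 hu hu0 hz) φ

/-- (A4) -/
theorem LowFrame.weights_ge (F : LowFrame I r w D a g c)
    (h3 : 3 * r ≤ Fintype.card {i // 0 < w i} + 1) {u : ι → ℂ} (hu : u ∈ LU w g a)
    (hu0 : u ≠ 0) {j : ℤ} (huj : ∀ i, u i ≠ 0 → w i = j) (i : Fin r) : j + D ≤ c i := by
  have h1 : hess (g i) a u ≠ 0 := by
    intro h
    have := F.nondeg h3 hu hu0 (z := Pi.single i 1) (by rw [bet_single, h])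
    have h5 := congrFun this i
    simp at h5
  obtain ⟨l, hl⟩ : ∃ l, hess (g i) a u l ≠ 0 := by
    by_contra hc; push Not at hc; exact h1 (funext hc)
  obtain ⟨k, hk, hkl⟩ := hess_support (F.gw i) F.supp0 hl
  have h4 := huj k hk
  have h5 := F.setup.ge l
  omega

/-- (A5) -/
theorem LowFrame.exists_top (F : LowFrame I r w D a g c)
    (h3 : 3 * r ≤ Fintype.card {i // 0 < w i} + 1) : ∃ i, c i = 2 * D := by
  obtain ⟨j, hj⟩ := F.setup.top
  by_cases h : (Pi.single j 1 : ι → ℂ) ∈ LU w g a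
  · have hr := F.setup.rpos
    refine ⟨⟨0, hr⟩, ?_⟩
    have h1 := F.weights_ge h3 h (by simp) (j := D) (by
      intro i hi
      by_cases hij : i = j
      · rw [hij, hj]
      · simp [Pi.single_apply, hij] at hi) ⟨0, hr⟩
    have h2 := F.c_le ⟨0, hr⟩
    omega
  · rw [mem_LU] at h
    push Not at h
    obtain ⟨i, hi⟩ := h (by
      intro i hi
      by_cases hij : i = j
      · rw [hij, hj]; exact F.setup.hD
      · simp [Pi.single_apply, hij] at hi)
    rw [dotProduct_single, mul_one] at hi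
    refine ⟨i, ?_⟩
    have := dif_support (F.gw i) F.supp0 hi
    omega

/-- components of tangent vectors -/
theorem LowFrame.cmp_mem (F : LowFrame I r w D a g c) {u : ι → ℂ} (hu : u ∈ LU w g a) (j : ℤ) :
    cmp w j u ∈ LU w g a := by
  have hu' := mem_LU.1 hu
  rw [mem_LU]
  refine ⟨fun i hi => ?_, fun i => ?_⟩
  · apply hu'.1 i
    intro h; apply hi; simp [cmp, h]
  · by_cases hc : c i = j + D
    · rw [← hu'.2 i]
      refine Finset.sum_congr rfl fun l _ => ?_
      by_cases hd : dif (g i) a l = 0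
      · rw [hd, zero_mul, zero_mul]
      · have := dif_support (F.gw i) F.supp0 hd
        rw [cmp, if_pos (by omega)]
    · apply Finset.sum_eq_zero
      intro l _
      by_cases hd : dif (g i) a l = 0
      · rw [hd, zero_mul]
      · have := dif_support (F.gw i) F.supp0 hd
        rw [cmp, if_neg (by omega), mul_zero]

/-- (A6), first half -/
theorem LowFrame.exists_min (F : LowFrame I r w D a g c)
    (h3 : 3 * r ≤ Fintype.card {i // 0 < w i} + 1) {j : ℤ} (hj : 0 < j) (hjm : ∃ i, w i = j)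
    (hmin : ∀ i, 0 < w i → j ≤ w i) :
    ∃ u ∈ LU w g a, u ≠ 0 ∧ ∀ i, u i ≠ 0 → w i = j := by
  by_contra hcon
  push Not at hcon
  obtain ⟨k, hk⟩ := hjm
  have h1 : (Pi.single k 1 : ι → ℂ) ∉ LU w g a := by
    intro h
    obtain ⟨i, hi, hi2⟩ := hcon _ h (by simp)
    by_cases hik : i = k
    · exact hi2 (hik ▸ hk)
    · simp [Pi.single_apply, hik] at hi
  rw [mem_LU] at h1
  push Not at h1
  obtain ⟨i, hi⟩ := h1 (by
    intro i hi
    by_cases hik : i = k
    · rw [hik, hk]; exact hj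
    · simp [Pi.single_apply, hik] at hi)
  rw [dotProduct_single, mul_one] at hi
  have hci := dif_support (F.gw i) F.supp0 hi
  -- a nonzero tangent vector
  have hpos : 0 < Module.finrank ℂ (LU w g a) := by
    have := F.finrank_U; have := F.setup.rpos; omega
  obtain ⟨u, hu, hu0⟩ := (Submodule.ne_bot_iff _).1 (by
    intro h; rw [h, finrank_bot] at hpos; exact lt_irrefl _ hpos : LU w g a ≠ ⊥)
  obtain ⟨m, hm⟩ : ∃ m, u m ≠ 0 := by
    by_contra hc; push Not at hc; exact hu0 (funext hc)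
  have hu' := F.cmp_mem hu (w m)
  have hu'0 : cmp w (w m) u ≠ 0 := by
    intro h; apply hm; have := congrFun h m; simpa [cmp] using this
  have hsupp : ∀ i, cmp w (w m) u i ≠ 0 → w i = w m := H89.Hart.cmp_mem w (w m) u
  have h4 := F.weights_ge h3 hu' hu'0 hsupp i
  have h5 := hmin m ((mem_LU.1 hu).1 m hm)
  have h6 : w m = j := by omega
  obtain ⟨i', hi', hi2⟩ := hcon _ hu' hu'0
  exact hi2 ((hsupp i' hi').trans h6)

/-- (A6), second half: all vectors of positive weight are in the cone. -/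
theorem LowFrame.pos_sub (F : LowFrame I r w D a g c)
    (h3 : 3 * r ≤ Fintype.card {i // 0 < w i} + 1) {x : ι → ℂ} (hx : ∀ i, x i ≠ 0 → 0 < w i) :
    x ∈ cone I := by
  obtain ⟨j, hj, hjm, hmin⟩ : ∃ j : ℤ, 0 < j ∧ (∃ i, w i = j) ∧ ∀ i, 0 < w i → j ≤ w i := by
    obtain ⟨k, hk⟩ := F.setup.top
    have hne : (Finset.univ.filter fun i => 0 < w i).Nonempty :=
      ⟨k, by simp [hk, F.setup.hD]⟩
    obtain ⟨i, hi, himin⟩ := Finset.exists_min_image _ w hne
    rw [Finset.mem_filter] at hi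
    exact ⟨w i, hi.2, ⟨i, rfl⟩, fun k hk => himin k (by simp [hk])⟩
  obtain ⟨u, hu, hu0, huj⟩ := F.exists_min h3 hj hjm hmin
  obtain ⟨g', c', hg', -, hw', hli'⟩ := exists_wframe F.setup.smooth (F.setup.stab' j)
    (F.U_sub hu) hu0
  have hsupp : ∀ i, u i ≠ 0 → w i - j = 0 := fun i hi => by have := huj i hi; omega
  have hc' : ∀ i, c' i < 0 := by
    intro i
    obtain ⟨l, hl⟩ : ∃ l, dif (g' i) u l ≠ 0 := by
      by_contra hc; push Not at hc; exact hli'.ne_zero i (funext hc)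
    have h1 := dif_support (hw' i) hsupp hl
    have h2 := F.N_supp h3 hu hu0 (mem_N.2 ⟨_, hg' i, rfl⟩) hl
    omega
  have hline : ∀ t : ℂ, u + t • x ∈ cone I := fun t => by
    refine line_mem F.setup.smooth g' hg' (F.U_sub hu) hu0 hli' x (fun i t => ?_) t
    refine eval_eq_zero_of_neg (hw' i) (fun k hk => ?_) (hc' i)
    by_cases huk : u k = 0
    · have hxk : x k ≠ 0 := by
        intro h; apply hk; simp [huk, h]
      have := hmin k (hx k hxk); omega
    · have := huj k huk; omega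
  refine (isClosed_cone I).mem_of_tendsto (tendsto_smul_add u x) ?_
  filter_upwards [self_mem_nhdsWithin] with τ hτ
  have h2 := smul_mem_cone F.setup.smooth (hline τ⁻¹) τ
  have e1 : τ • (u + τ⁻¹ • x) = τ • u + x := by
    rw [smul_add, smul_smul, mul_inv_cancel₀ hτ, one_smul]
  rwa [e1] at h2

end low

end H89.Hart
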