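import Pool.Agent.H15.Hart.Gens

set_option linter.unusedSectionVars false

/-!
# Reduction to the nondegenerate diagonal case (MP_9a3fdb_ag, job HART-J3)
-/

open MvPolynomial

namespace H89.Hart

open H15.Hart

section gens

variable {ι κ : Type*} [Fintype ι] [DecidableEq ι] [Fintype κ] [DecidableEq κ]

/-- `lin` as a linear map. -/
noncomputable def linMap (ι : Type*) [Fintype ι] [DecidableEq ι] :
    (ι → ℂ) →ₗ[ℂ] MvPolynomial ι ℂ where
  toFun v := lin v
  map_add' v w := lin_add v w
  map_smul' c v := by rw [lin_smul, MvPolynomial.smul_eq_C_mul]; rfl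

theorem linMap_apply (v : ι → ℂ) : linMap ι v = lin v := rfl

variable {L : (κ → ℂ) →ₗ[ℂ] (ι → ℂ)} {M : (ι → ℂ) →ₗ[ℂ] (κ → ℂ)} {I : Ideal (MvPolynomial ι ℂ)}

theorem lin_mem_of_ker (h : Inv L M I) (hI : I.IsPrime) {v : ι → ℂ}
    (hv : v ∈ LinearMap.ker (tr L)) : lin v ∈ I :=
  mem_of_cone hI fun y hy => by
    rw [eval_lin, ← h.LM y hy, ← tr_dot, LinearMap.mem_ker.1 hv, zero_dotProduct]

/-- The generators of `I` from those of `pull M I`. -/
theorem gens_pull (h : Inv L M I) (hI : I.IsPrime) {α β : Type*} (b : α → ι → ℂ)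
    (hb : Submodule.span ℂ (Set.range b) = LinearMap.ker (tr L)) (F : β → MvPolynomial κ ℂ)
    (hF : pull M I = Ideal.span (Set.range F)) :
    I = Ideal.span (Set.range (Sum.elim (fun j => lin (b j)) (fun j => sub M (F j)))) := by
  set G : α ⊕ β → MvPolynomial ι ℂ := Sum.elim (fun j => lin (b j)) (fun j => sub M (F j)) with hG
  set J := Ideal.span (Set.range G) with hJ
  apply le_antisymm
  · -- linear forms
    have h1 : ∀ v ∈ LinearMap.ker (tr L), lin v ∈ J := by
      intro v hv
      rw [← hb] at hv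
      have h2 : linMap ι v ∈ (Submodule.span ℂ (Set.range b)).map (linMap ι) :=
        Submodule.mem_map_of_mem hv
      rw [Submodule.map_span] at h2
      have h3 : Submodule.span ℂ (linMap ι '' Set.range b) ≤ J.restrictScalars ℂ := by
        rw [Submodule.span_le]
        rintro _ ⟨_, ⟨j, rfl⟩, rfl⟩
        exact Ideal.subset_span ⟨Sum.inl j, rfl⟩
      exact h3 h2
    have h2 : ∀ f, f - sub M (sub L f) ∈ J := by
      intro f
      have h3 : (Ideal.Quotient.mkₐ ℂ J) = (Ideal.Quotient.mkₐ ℂ J).comp ((sub M).comp (sub L)) := by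
        apply MvPolynomial.algHom_ext
        intro i
        change Ideal.Quotient.mk J (X i) = Ideal.Quotient.mk J (sub M (sub L (X i)))
        rw [Ideal.Quotient.eq, sub_comp, sub_X, ← lin_single]
        have h4 : (lin (Pi.single i 1) : MvPolynomial ι ℂ) - lin (row (L ∘ₗ M) i) =
            lin (Pi.single i 1 - row (L ∘ₗ M) i) := by
          rw [← linMap_apply, ← linMap_apply, ← map_sub]
          rfl
        rw [h4]
        apply h1
        rw [LinearMap.mem_ker]
        funext s
        rw [tr_apply, sub_dotProduct, row_dot]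
        simp [h.ML]
      have h4 := DFunLike.congr_fun h3 f
      change Ideal.Quotient.mk J f = Ideal.Quotient.mk J (sub M (sub L f)) at h4
      rwa [Ideal.Quotient.eq] at h4
    intro f hf
    have h3 : sub L f ∈ pull M I := (sub_mem_pull h hI).2 hf
    rw [hF] at h3
    have h4 : Ideal.span (Set.range F) ≤ J.comap (sub M) := by
      rw [Ideal.span_le]
      rintro _ ⟨j, rfl⟩
      exact Ideal.subset_span ⟨Sum.inr j, rfl⟩
    have h5 : sub M (sub L f) ∈ J := h4 h3
    have h6 := J.add_mem (h2 f) h5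
    rwa [sub_add_cancel] at h6
  · rw [Ideal.span_le]
    rintro _ ⟨j | j, rfl⟩
    · apply lin_mem_of_ker h hI
      rw [← hb]
      exact Submodule.subset_span ⟨j, rfl⟩
    · have : F j ∈ pull M I := by
        rw [hF]
        exact Ideal.subset_span ⟨j, rfl⟩
      exact this

end gens

/-- J3: reduction of the final theorem to the nondegenerate diagonal case `core`. -/
theorem reduction
    (core : ∀ (ι : Type) [Fintype ι] [DecidableEq ι] (I : Ideal (MvPolynomial ι ℂ)) (r : ℕ)
      (w : ι → ℤ), Smooth I r →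
      (∀ t : ℂ, t ≠ 0 → ∀ x ∈ cone I, (fun i => t ^ w i * x i) ∈ cone I) →
      (∀ s : ι → ℂ, (∀ x ∈ cone I, s ⬝ᵥ x = 0) → s = 0) →
      (∃ i j, w i ≠ w j) → 23 * r < Fintype.card ι → r ≤ 1)
    (n r : ℕ) (I : Ideal (MvPolynomial (Fin (n + 1)) ℂ)) (hI : Smooth I r)
    (hdim : ringKrullDim (MvPolynomial (Fin (n + 1)) ℂ ⧸ I) + r = n + 1)
    (A : (Fin (n + 1) → ℂ) ≃ₗ[ℂ] (Fin (n + 1) → ℂ)) (w : Fin (n + 1) → ℤ)
    (hstab : ∀ t : ℂ, t ≠ 0 → ∀ x ∈ cone I, A (fun i => t ^ w i * A.symm x i) ∈ cone I)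
    (hmove : ∃ x ∈ cone I, ∃ t : ℂ, t ≠ 0 ∧ ∀ c : ℂ, A (fun i => t ^ w i * A.symm x i) ≠ c • x)
    (hn : 23 * r < n + 1) :
    ∃ F : Fin r → MvPolynomial (Fin (n + 1)) ℂ, (∀ i, ∃ d, (F i).IsHomogeneous d) ∧
      I = Ideal.span (Set.range F) ∧
      ∀ x ∈ cone I, x ≠ 0 → LinearIndependent ℂ (fun i => dif (F i) x) := by
  classical
  -- the span of the cone in the diagonal coordinates
  let Y : Set (Fin (n + 1) → ℂ) := {y | A y ∈ cone I}
  let W : Submodule ℂ (Fin (n + 1) → ℂ) := Submodule.span ℂ Y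
  let D : ℂ → (Fin (n + 1) → ℂ) →ₗ[ℂ] (Fin (n + 1) → ℂ) := fun t =>
    { toFun := fun y i => t ^ w i * y i
      map_add' := fun y z => by funext i; simp [mul_add]
      map_smul' := fun c y => by funext i; simp; ring }
  have hD : ∀ t y, D t y = fun i => t ^ w i * y i := fun _ _ => rfl
  have hYW : ∀ x ∈ cone I, A.symm x ∈ W := fun x hx =>
    Submodule.subset_span (show A (A.symm x) ∈ cone I by rwa [A.apply_symm_apply])
  have hDY : ∀ t, t ≠ 0 → ∀ y ∈ Y, D t y ∈ Y := by
    intro t ht y hy
    have := hstab t ht (A y) hy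
    rw [A.symm_apply_apply] at this
    exact this
  have hDW : ∀ t, t ≠ 0 → ∀ y ∈ W, D t y ∈ W := by
    intro t ht y hy
    have h1 : D t y ∈ W.map (D t) := Submodule.mem_map_of_mem hy
    have h2 : W.map (D t) ≤ W := by
      rw [Submodule.map_span, Submodule.span_le]
      rintro _ ⟨y, hy, rfl⟩
      exact Submodule.subset_span (hDY t ht y hy)
    exact h2 h1
  obtain ⟨κ, _, _, a, B, hBW, hBa, hBW'⟩ := exists_coords W
  let L : (κ → ℂ) →ₗ[ℂ] (Fin (n + 1) → ℂ) := A.toLinearMap ∘ₗ B
  let M : (Fin (n + 1) → ℂ) →ₗ[ℂ] (κ → ℂ) := LinearMap.funLeft ℂ ℂ a ∘ₗ A.symm.toLinearMap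
  have hL : ∀ z, L z = A (B z) := fun _ => rfl
  have hM : ∀ x, M x = fun k => A.symm x (a k) := fun _ => rfl
  have hInv : Inv L M I :=
    { ML := fun z => by
        rw [hL, hM, A.symm_apply_apply]
        funext k
        exact hBa z k
      LM := fun x hx => by
        rw [hL, hM, hBW' _ (hYW x hx), A.apply_symm_apply] }
  have hBD : ∀ t, t ≠ 0 → ∀ z, B (fun k => t ^ w (a k) * z k) = D t (B z) := by
    intro t ht z
    rw [← hBW' _ (hDW t ht _ (hBW z))]
    congr 1
    funext k
    change t ^ w (a k) * z k = t ^ w (a k) * B z (a k)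
    rw [hBa]
  obtain ⟨x₀, hx₀, t₀, ht₀, hmv⟩ := hmove
  have hx₀0 : x₀ ≠ 0 := by
    rintro rfl
    apply hmv 0
    rw [map_zero, smul_zero]
    have : (fun i => t₀ ^ w i * (0 : Fin (n + 1) → ℂ) i) = 0 := by funext i; simp
    rw [this, map_zero]
  set r₀ := Module.finrank ℂ (LinearMap.ker (tr L)) with hr₀
  have hcard : r₀ + Fintype.card κ = n + 1 := by
    have := finrank_ker_tr hInv
    rwa [Fintype.card_fin] at this
  have hr₀r : r₀ ≤ r := by
    rw [← hI.rank x₀ hx₀ hx₀0]
    exact Submodule.finrank_mono (ker_tr_le hInv hI.prime x₀)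
  set r' := r - r₀ with hr'
  have hsm : Smooth (pull M I) r' :=
    { prime := pull_isPrime hInv hI.prime
      homog := fun g hg d => by
        change sub M _ ∈ I
        rw [← homogeneousComponent_sub]
        exact hI.homog _ hg d
      rank := fun z hz hz0 => by
        have h1 := finrank_N_pull hInv hI.prime z
        rw [hI.rank _ ((cone_pull hInv hI.prime).1 hz) (L_ne_zero hInv hI.prime hz0)] at h1
        omega }
  have hr1 : r' ≤ 1 := by
    refine core κ (pull M I) r' (fun k => w (a k)) hsm ?_ ?_ ?_ (by omega)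
    · intro t ht z hz
      rw [cone_pull hInv hI.prime, hL] at hz ⊢
      rw [hBD t ht z, hD]
      have := hstab t ht _ hz
      rwa [A.symm_apply_apply] at this
    · intro s hs
      have h1 : ∀ y ∈ W, s ⬝ᵥ (fun k => y (a k)) = 0 := by
        intro y hy
        induction hy using Submodule.span_induction with
        | mem y hy =>
          apply hs
          rw [cone_pull hInv hI.prime, hL, hBW' y (Submodule.subset_span hy)]
          exact hy
        | zero => simp [dotProduct]
        | add y z _ _ h h' =>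
          have : (fun k => (y + z) (a k)) = (fun k => y (a k)) + fun k => z (a k) := rfl
          rw [this, dotProduct_add, h, h', add_zero]
        | smul c y _ h =>
          have : (fun k => (c • y) (a k)) = c • fun k => y (a k) := rfl
          rw [this, dotProduct_smul, h, smul_zero]
      funext k
      have h2 := h1 _ (hBW (Pi.single k 1))
      simpa [hBa] using h2
    · by_contra hne
      push Not at hne
      obtain ⟨c, hc⟩ : ∃ c : ℂ, ∀ k, t₀ ^ w (a k) = c := by
        rcases isEmpty_or_nonempty κ with he | ⟨⟨k₀⟩⟩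
        · exact ⟨0, fun k => he.elim k⟩
        · exact ⟨t₀ ^ w (a k₀), fun k => by rw [hne k k₀]⟩
      apply hmv c
      have h1 : D t₀ (A.symm x₀) = c • A.symm x₀ := by
        rw [← hBW' _ (hDW t₀ ht₀ _ (hYW x₀ hx₀))]
        conv_rhs => rw [← hBW' _ (hYW x₀ hx₀)]
        rw [← map_smul]
        congr 1
        funext k
        change t₀ ^ w (a k) * A.symm x₀ (a k) = c * A.symm x₀ (a k)
        rw [hc]
      change A (D t₀ (A.symm x₀)) = _
      rw [h1, map_smul, A.apply_symm_apply]
  obtain ⟨d, hd⟩ := exists_nat_of_add (n := n + 1) (by rw [hdim]; norm_cast)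
  have hdim' : ringKrullDim (MvPolynomial κ ℂ ⧸ pull M I) + r' = Fintype.card κ := by
    rw [ringKrullDim_pull hInv hI.prime, hd]
    rw [hd] at hdim
    have h1 : d + r = n + 1 := by exact_mod_cast hdim
    have h2 : d + r' = Fintype.card κ := by omega
    exact_mod_cast h2
  obtain ⟨F', hF'h, hF'⟩ := exists_gens hsm.prime hsm.homog hr1 hdim'
  let b := Module.finBasis ℂ (LinearMap.ker (tr L))
  have hb : Submodule.span ℂ (Set.range fun j => (b j : Fin (n + 1) → ℂ)) =
      LinearMap.ker (tr L) := by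
    have h1 := congrArg (Submodule.map (LinearMap.ker (tr L)).subtype) b.span_eq
    rw [Submodule.map_span, Submodule.map_subtype_top, ← Set.range_comp] at h1
    exact h1
  have hgen := gens_pull hInv hI.prime (fun j => (b j : Fin (n + 1) → ℂ)) hb F' hF'
  let e : Fin r ≃ Fin r₀ ⊕ Fin r' :=
    ((finSumFinEquiv).trans (finCongr (show r₀ + r' = r by omega))).symm
  have hgen' : I = Ideal.span (Set.range fun i => Sum.elim (fun j => lin (b j : Fin (n + 1) → ℂ))
      (fun j => sub M (F' j)) (e i)) := by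
    have : (Set.range fun i => Sum.elim (fun j => lin (b j : Fin (n + 1) → ℂ))
      (fun j => sub M (F' j)) (e i)) = Set.range (Sum.elim (fun j => lin (b j : Fin (n + 1) → ℂ))
      (fun j => sub M (F' j))) := e.surjective.range_comp _
    rw [this]
    exact hgen
  refine ⟨_, ?_, hgen', ?_⟩
  · intro i
    rcases e i with j | j
    · exact ⟨1, lin_homog _⟩
    · obtain ⟨d, hd⟩ := hF'h j
      exact ⟨d, sub_homog M hd⟩
  · intro x hx hx0
    rw [linearIndependent_iff_card_eq_finrank_span, Set.finrank, ← N_span hgen' hx,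
      hI.rank x hx hx0, Fintype.card_fin]

end H89.Hart
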