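import Pool.Agent.H89.Hart.Weights
import Pool.Agent.H89.Hart.Dim

/-! The elementary Zak-type lemma. -/

open MvPolynomial

set_option linter.unusedSectionVars false
set_option linter.unusedSimpArgs false

namespace H89.Hart

variable {ι : Type*} [Fintype ι] [DecidableEq ι]

/-- linear form as a polynomial. -/
noncomputable def lf (s : ι → ℂ) : MvPolynomial ι ℂ := ∑ i, C (s i) * X i

theorem eval_lf (s x : ι → ℂ) : eval x (lf s) = s ⬝ᵥ x := by
  simp [lf, dotProduct]

theorem lf_homog (s : ι → ℂ) : (lf s).IsHomogeneous 1 :=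
  IsHomogeneous.sum _ _ _ fun _ _ => isHomogeneous_C_mul_X _ _

theorem dif_lf (s x : ι → ℂ) : dif (lf s) x = s := by
  rw [lf, dif_sum]
  funext j
  simp only [Finset.sum_apply]
  rw [Finset.sum_eq_single j]
  · simp [dif]
  · intro i _ hi
    simp [dif, pderiv_X, Pi.single_apply, hi, Ne.symm hi]
  · simp

theorem eval_smul_homog {f : MvPolynomial ι ℂ} {d : ℕ} (hf : f.IsHomogeneous d) (c : ℂ)
    (x : ι → ℂ) : eval (c • x) f = c ^ d * eval x f := by
  rw [eval_eq', eval_eq', Finset.mul_sum]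
  refine Finset.sum_congr rfl fun m hm => ?_
  have hd := hf.degree_eq_sum_deg_support hm
  have : ∏ i, (c • x) i ^ m i = c ^ d * ∏ i, x i ^ m i := by
    simp only [Pi.smul_apply, smul_eq_mul, mul_pow, Finset.prod_mul_distrib]
    congr 1
    rw [Finset.prod_pow_eq_pow_sum, hd]
    congr 1
    refine (Finset.sum_subset (Finset.subset_univ _) ?_).symm
    intro i _ hi
    simpa using hi
  rw [this]; ring

theorem smul_mem_cone {I : Ideal (MvPolynomial ι ℂ)} {r : ℕ} (hI : Smooth I r) {x : ι → ℂ}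
    (hx : x ∈ cone I) (c : ℂ) : c • x ∈ cone I := by
  intro f hf
  rw [← sum_homogeneousComponent f, map_sum]
  apply Finset.sum_eq_zero
  intro d _
  rw [eval_smul_homog (homogeneousComponent_isHomogeneous d f), hx _ (hI.homog f hf d), mul_zero]

theorem N_smul {I : Ideal (MvPolynomial ι ℂ)} {r : ℕ} (hI : Smooth I r) {x φ : ι → ℂ}
    {c : ℂ} (hc : c ≠ 0) (h : φ ∈ N I x) : φ ∈ N I (c • x) := by
  obtain ⟨f, hf, rfl⟩ := mem_N.1 h
  have h1 : dif f x = ∑ d ∈ Finset.range (f.totalDegree + 1),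
      dif (homogeneousComponent d f) x := by rw [← dif_sum, sum_homogeneousComponent]
  rw [h1]
  refine Submodule.sum_mem _ fun d _ => ?_
  have hd := homogeneousComponent_isHomogeneous d f
  have h2 : dif (homogeneousComponent d f) (c • x) =
      c ^ (d - 1) • dif (homogeneousComponent d f) x := by
    funext i
    simp only [dif, Pi.smul_apply, smul_eq_mul]
    exact eval_smul_homog (hd.pderiv) c x
  have h3 : dif (homogeneousComponent d f) x =
      (c ^ (d - 1))⁻¹ • dif (homogeneousComponent d f) (c • x) := by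
    rw [h2, smul_smul, inv_mul_cancel₀ (pow_ne_zero _ hc), one_smul]
  rw [h3]
  exact Submodule.smul_mem _ _ (mem_N.2 ⟨_, hI.homog f hf d, rfl⟩)

theorem dot_self {I : Ideal (MvPolynomial ι ℂ)} {r : ℕ} (hI : Smooth I r) {x φ : ι → ℂ}
    (hx : x ∈ cone I) (h : φ ∈ N I x) : φ ⬝ᵥ x = 0 := by
  obtain ⟨f, hf, rfl⟩ := mem_N.1 h
  have h1 : dif f x = ∑ d ∈ Finset.range (f.totalDegree + 1),
      dif (homogeneousComponent d f) x := by rw [← dif_sum, sum_homogeneousComponent]
  rw [h1, sum_dotProduct]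
  apply Finset.sum_eq_zero
  intro d _
  have := (homogeneousComponent_isHomogeneous d f).sum_X_mul_pderiv
  have h2 := congrArg (eval x) this
  rw [map_nsmul, hx _ (hI.homog f hf d), smul_zero, map_sum] at h2
  rw [← h2]
  simp [dotProduct, dif, mul_comm]

/-- equations of a linear subspace. -/
theorem exists_equations (M : Submodule ℂ (ι → ℂ)) :
    ∃ l : Fin (Fintype.card ι - Module.finrank ℂ M) → ι → ℂ,
      ∀ x, x ∈ M ↔ ∀ j, l j ⬝ᵥ x = 0 := by
  have hq : Module.finrank ℂ ((ι → ℂ) ⧸ M) = Fintype.card ι - Module.finrank ℂ M := by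
    have := Submodule.finrank_quotient_add_finrank M
    rw [Module.finrank_fintype_fun_eq_card] at this
    omega
  let e : ((ι → ℂ) ⧸ M) ≃ₗ[ℂ] (Fin (Fintype.card ι - Module.finrank ℂ M) → ℂ) :=
    LinearEquiv.ofFinrankEq _ _ (by rw [hq, Module.finrank_fintype_fun_eq_card, Fintype.card_fin])
  let φ : (ι → ℂ) →ₗ[ℂ] (Fin (Fintype.card ι - Module.finrank ℂ M) → ℂ) :=
    e.toLinearMap ∘ₗ M.mkQ
  refine ⟨fun j k => φ (Pi.single k 1) j, fun x => ?_⟩
  have h1 : ∀ j, (fun k => φ (Pi.single k 1) j) ⬝ᵥ x = φ x j := by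
    intro j
    have : φ x = ∑ k, x k • φ (Pi.single k 1) := by
      conv_lhs => rw [show x = ∑ k, x k • (Pi.single k (1 : ℂ) : ι → ℂ) from by
        funext m; simp [Finset.sum_apply, Pi.single_apply]]
      rw [map_sum]; simp
    rw [this]; simp [dotProduct, Finset.sum_apply, mul_comm]
  simp only [h1]
  constructor
  · intro hx j
    have : φ x = 0 := by
      simp only [φ, LinearMap.comp_apply, Submodule.mkQ_apply]
      rw [(Submodule.Quotient.mk_eq_zero M).2 hx, map_zero]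
    rw [this]; rfl
  · intro h
    have h0 : φ x = 0 := funext h
    simp only [φ, LinearMap.comp_apply, Submodule.mkQ_apply] at h0
    exact (Submodule.Quotient.mk_eq_zero M).1 (e.map_eq_zero_iff.1 h0)

theorem algHom_sub_mem {σ : Type*} (J : Ideal (MvPolynomial σ ℂ))
    (φ₁ φ₂ : MvPolynomial σ ℂ →ₐ[ℂ] MvPolynomial σ ℂ) (h : ∀ i, φ₁ (X i) - φ₂ (X i) ∈ J)
    (f : MvPolynomial σ ℂ) : φ₁ f - φ₂ f ∈ J := by
  rw [← Ideal.Quotient.eq]
  have : (Ideal.Quotient.mkₐ ℂ J).comp φ₁ = (Ideal.Quotient.mkₐ ℂ J).comp φ₂ := by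
    apply MvPolynomial.algHom_ext
    intro i
    exact Ideal.Quotient.eq.2 (h i)
  exact congrArg (fun φ => φ f) this

/-- `I ≤ P` if `P` contains local equations at a common point. -/
theorem le_of_local {I : Ideal (MvPolynomial ι ℂ)} {r : ℕ} (hI : Smooth I r)
    (g : Fin r → MvPolynomial ι ℂ) (hg : ∀ i, g i ∈ I) {p : ι → ℂ} (hp : p ∈ cone I)
    (hp0 : p ≠ 0) (hli : LinearIndependent ℂ (fun i => dif (g i) p))
    {P : Ideal (MvPolynomial ι ℂ)} (hP : P.IsPrime) (hgP : ∀ i, g i ∈ P) (hpP : p ∈ cone P) :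
    I ≤ P := by
  intro f hf
  obtain ⟨u, hu, huf⟩ := L0 hI g hg hp hp0 hli hf
  have h1 : Ideal.span (Set.range g) ≤ P := by
    rw [Ideal.span_le]; rintro _ ⟨i, rfl⟩; exact hgP i
  exact (hP.mem_or_mem (h1 huf)).resolve_left fun h => hu (hpP _ h)

/-- A linear space in the cone along which a hyperplane is tangent is small. -/
theorem zak {I : Ideal (MvPolynomial ι ℂ)} {r : ℕ} (hI : Smooth I r)
    (Λ : Submodule ℂ (ι → ℂ)) (hΛ : r + 1 ≤ Module.finrank ℂ Λ) (hsub : ∀ x ∈ Λ, x ∈ cone I)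
    {s : ι → ℂ} (hs : ∀ x ∈ Λ, x ≠ 0 → s ∈ N I x) {y : ι → ℂ} (hy : y ∈ cone I) :
    s ⬝ᵥ y = 0 := by
  by_contra hsy
  have hy0 : y ≠ 0 := by rintro rfl; simp at hsy
  have hsΛ : ∀ x ∈ Λ, s ⬝ᵥ x = 0 := by
    intro x hx
    by_cases hx0 : x = 0
    · simp [hx0]
    · exact dot_self hI (hsub x hx) (hs x hx hx0)
  have hyΛ : y ∉ Λ := fun h => hsy (hsΛ y h)
  set M := Λ ⊔ Submodule.span ℂ {y} with hM
  have hMfin : Module.finrank ℂ M = Module.finrank ℂ Λ + 1 := by
    have h1 := Submodule.finrank_sup_add_finrank_inf_eq Λ (Submodule.span ℂ {y})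
    have h2 : Λ ⊓ Submodule.span ℂ {y} = ⊥ := by
      rw [Submodule.eq_bot_iff]
      rintro z ⟨hz1, hz2⟩
      obtain ⟨c, rfl⟩ := Submodule.mem_span_singleton.1 hz2
      by_cases hc : c = 0
      · simp [hc]
      · exfalso; apply hyΛ
        have := Λ.smul_mem c⁻¹ hz1
        rwa [smul_smul, inv_mul_cancel₀ hc, one_smul] at this
    rw [h2, finrank_bot, add_zero, finrank_span_singleton hy0] at h1
    exact h1
  have hMmem : ∀ z ∈ M, z - ((s ⬝ᵥ y)⁻¹ * (s ⬝ᵥ z)) • y ∈ Λ := by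
    intro z hz
    obtain ⟨a, ha, b, hb, rfl⟩ := Submodule.mem_sup.1 hz
    obtain ⟨c, rfl⟩ := Submodule.mem_span_singleton.1 hb
    have : (s ⬝ᵥ y)⁻¹ * (s ⬝ᵥ (a + c • y)) = c := by
      rw [dotProduct_add, hsΛ a ha, zero_add, dotProduct_smul, smul_eq_mul]
      field_simp
    rw [this]; simpa using ha
  obtain ⟨l, hl⟩ := exists_equations M
  obtain ⟨h, -, hhI, hhom, hli, -⟩ := exists_frame hI hy hy0
  -- the component through `y`
  obtain ⟨P, hP, hPh, hPg, hyP, hdim⟩ := exists_component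
    (Sum.elim h (fun j => lf (l j)) : Fin r ⊕ Fin _ → MvPolynomial ι ℂ)
    (by rintro (i | j); exacts [hhom i, ⟨1, lf_homog _⟩]) y
    (by
      rintro (i | j)
      · exact hy _ (hhI i)
      · simp only [Sum.elim_inr, eval_lf]
        exact (hl y).1 (Submodule.mem_sup_right (Submodule.mem_span_singleton_self y)) j)
  have hIP : I ≤ P := le_of_local hI h hhI hy hy0 hli hP (fun i => hPg (Sum.inl i)) hyP
  have hPM : ∀ z ∈ cone P, z ∈ M := by
    intro z hz
    rw [hl]
    intro j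
    have := hz _ (hPg (Sum.inr j))
    simpa [eval_lf] using this
  have hdim2 : (Fintype.card Unit : WithBot ℕ∞) < ringKrullDim (MvPolynomial ι ℂ ⧸ P) := by
    by_contra hcon
    push Not at hcon
    have h1 : (Fintype.card ι : WithBot ℕ∞) ≤ (Fintype.card Unit : WithBot ℕ∞) +
        (Fintype.card (Fin r ⊕ Fin (Fintype.card ι - Module.finrank ℂ M)) : WithBot ℕ∞) :=
      hdim.trans (add_le_add_left hcon _)
    rw [Fintype.card_unit, Fintype.card_sum, Fintype.card_fin, Fintype.card_fin] at h1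
    have h2 : Fintype.card ι ≤ 1 + (r + (Fintype.card ι - Module.finrank ℂ M)) := by
      exact_mod_cast h1
    have h3 : Module.finrank ℂ M ≤ Fintype.card ι := by
      have := Submodule.finrank_le M
      rwa [Module.finrank_fintype_fun_eq_card] at this
    omega
  obtain ⟨x, hxP, hx0, hxs⟩ := exists_ne_zero P hP hPh (fun _ : Unit => lf s)
    (by intro _; rw [eval_lf]; simp) hdim2
  have hxs' : s ⬝ᵥ x = 0 := by simpa [eval_lf] using hxs ()
  have hxΛ : x ∈ Λ := by
    have := hMmem x (hPM x hxP)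
    rwa [hxs', mul_zero, zero_smul, sub_zero] at this
  obtain ⟨f, hf, hfs⟩ := mem_N.1 (hs x hxΛ hx0)
  -- the division by `τ`
  let τ : MvPolynomial ι ℂ := C (s ⬝ᵥ y)⁻¹ * lf s
  have hτ : ∀ z, eval z τ = (s ⬝ᵥ y)⁻¹ * (s ⬝ᵥ z) := fun z => by
    simp only [τ, map_mul, eval_C, eval_lf]
  let φ : MvPolynomial ι ℂ →ₐ[ℂ] MvPolynomial ι ℂ := aeval fun i => X i - τ * C (y i)
  have hφ : ∀ z (f : MvPolynomial ι ℂ), eval z (φ f) =
      eval (z - ((s ⬝ᵥ y)⁻¹ * (s ⬝ᵥ z)) • y) f := by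
    intro z f
    have : ((aeval z : MvPolynomial ι ℂ →ₐ[ℂ] ℂ).comp φ) =
        aeval (z - ((s ⬝ᵥ y)⁻¹ * (s ⬝ᵥ z)) • y) := by
      apply MvPolynomial.algHom_ext
      intro i
      simp only [φ, AlgHom.comp_apply, aeval_X, aeval_eq_eval, map_sub, map_mul, eval_X, eval_C,
        hτ, Pi.sub_apply, Pi.smul_apply, smul_eq_mul]
    have h2 := congrArg (fun ψ => ψ f) this
    simpa [aeval_eq_eval] using h2
  obtain ⟨G, hG⟩ : ∃ G, f - φ f = τ * G := by
    have := algHom_sub_mem (Ideal.span {τ}) (AlgHom.id ℂ _) φ (by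
      intro i
      simp only [AlgHom.id_apply, φ, aeval_X]
      rw [sub_sub_cancel]
      exact Ideal.mul_mem_right _ _ (Ideal.mem_span_singleton_self τ)) f
    exact (Ideal.mem_span_singleton.1 this)
  have hGP : G ∈ P := by
    have h1 : τ * G ∈ P := by
      apply mem_of_cone hP
      intro z hz
      rw [← hG, map_sub, hz _ (hIP hf), hφ, hsub _ (hMmem z (hPM z hz)) f hf, sub_zero]
    refine (hP.mem_or_mem h1).resolve_left fun h => ?_
    have := hyP _ h
    rw [hτ, inv_mul_cancel₀ hsy] at this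
    exact one_ne_zero this
  have h1 : dif (f - φ f) x ⬝ᵥ y = 0 := by
    rw [hG, dif_mul, hτ, hxs', mul_zero, zero_smul, zero_add, hxP _ hGP, zero_smul,
      zero_dotProduct]
  have h2 : dif (φ f) x ⬝ᵥ y = 0 := by
    rw [← coeff_one_ln]
    have : ln x y (φ f) = Polynomial.C (eval x f) := by
      apply Polynomial.funext
      intro t
      rw [eval_ln, hφ, Polynomial.eval_C]
      congr 1
      rw [dotProduct_add, hxs', zero_add, dotProduct_smul, smul_eq_mul]
      have : (s ⬝ᵥ y)⁻¹ * (t * (s ⬝ᵥ y)) = t := by field_simp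
      rw [this]; simp
    rw [this]; simp
  rw [dif_sub, sub_dotProduct, h2, sub_zero, hfs] at h1
  exact hsy h1

end H89.Hart
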